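import Pool.Agent.Helper89.FF.Defs
import Pool.Agent.Helper79.PK.Grid

/-!
# FF-ASM: assembling blocks of containers in a disk

`assign'`: adapt the proof of `Pool.Agent.Helper79.PK.assign` (`Pool/Agent/Helper55/PK/Assign.lean`)
to capacities `M t` which depend on the type.

`place_containers`: `grid_count` gives a finite set `G` of blocks
`{p.1 ℓ ≤ X ≤ (p.1 + 1) ℓ, p.2 ℓ ≤ Y ≤ (p.2 + 1) ℓ}` in the disk of radius `R` and centre `0`; its
cardinality is at least the number of boxes needed, so `assign'` gives the boxes; the motion of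
the `i`-th set is `g_(f i).2 ∘ e i`, followed by the translation by `pt (p.1 ℓ) (p.2 ℓ) + c`,
`p` the block `(f i).1`. Disjointness: in the same block from `Slots` (translations and
`Homeomorph.image_interior`), in different blocks by `sep_X`, `sep_Y`; see the end of the proof of
`Pool.Agent.Helper79.PK.place` (`Pool/Agent/Helper79/PK/Place.lean`).
-/

namespace Pool.Agent.Helper89.FF

open Pool.Agent.Helper16.Disk7 Pool.Agent.Helper79.PK Metric

theorem assign' {k B : ℕ} {T : Type*} [Fintype T] [DecidableEq T] (τ : Fin k → T) (M : T → ℕ)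
    (hM : ∀ t, 0 < M t)
    (h : ∑ t, ((Finset.univ.filter fun i => τ i = t).card / M t + 1) ≤ B) :
    ∃ f : Fin k → Fin B × ℕ, Function.Injective f ∧ (∀ i, (f i).2 < M (τ i)) ∧
      ∀ i j, (f i).1 = (f j).1 → τ i = τ j := by
  classical
  -- the rank of an object in its type
  let rk : Fin k → ℕ := fun i => (Finset.univ.filter (fun j => j < i ∧ τ j = τ i)).card
  let nn : T → ℕ := fun t => (Finset.univ.filter (fun j => τ j = t)).card
  have hrk : ∀ i j, τ i = τ j → i < j → rk i < rk j := by
    intro i j hτ hij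
    apply Finset.card_lt_card
    rw [Finset.ssubset_iff_of_subset]
    · refine ⟨i, ?_, ?_⟩
      · simp [hij, hτ]
      · simp
    · intro a ha
      simp only [Finset.mem_filter, Finset.mem_univ, true_and] at ha ⊢
      exact ⟨ha.1.trans hij, ha.2.trans hτ⟩
  have hrkn : ∀ i, rk i < nn (τ i) := by
    intro i
    apply Finset.card_lt_card
    rw [Finset.ssubset_iff_of_subset]
    · refine ⟨i, ?_, ?_⟩
      · simp
      · simp
    · intro a ha
      simp only [Finset.mem_filter, Finset.mem_univ, true_and] at ha ⊢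
      exact ha.2
  let key : Fin k → (_ : T) × ℕ := fun i => ⟨τ i, rk i / M (τ i)⟩
  let K : Finset ((_ : T) × ℕ) := Finset.univ.image key
  have hKsub : K ⊆ Finset.univ.sigma (fun t => Finset.range (nn t / M t + 1)) := by
    intro x hx
    obtain ⟨i, -, rfl⟩ := Finset.mem_image.1 hx
    simp only [Finset.mem_sigma, Finset.mem_univ, Finset.mem_range, true_and, key]
    have := Nat.div_le_div_right (c := M (τ i)) (hrkn i).le
    omega
  have hKcard : K.card ≤ B := by
    have h1 : K.card ≤ ∑ t, (nn t / M t + 1) := by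
      refine (Finset.card_le_card hKsub).trans ?_
      simp
    exact h1.trans h
  have hle : Fintype.card K ≤ Fintype.card (Fin B) := by
    simpa using hKcard
  obtain ⟨e⟩ := Function.Embedding.nonempty_of_card_le hle
  have hkK : ∀ i, key i ∈ K := fun i => Finset.mem_image_of_mem _ (Finset.mem_univ i)
  refine ⟨fun i => (e ⟨key i, hkK i⟩, rk i % M (τ i)), ?_, fun i => Nat.mod_lt _ (hM _), ?_⟩
  · intro i j hij
    simp only [Prod.mk.injEq, EmbeddingLike.apply_eq_iff_eq, Subtype.mk.injEq] at hij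
    obtain ⟨h1, h2⟩ := hij
    have hτ : τ i = τ j := by
      have := congrArg Sigma.fst h1
      exact this
    have hd : rk i / M (τ i) = rk j / M (τ j) := by
      have := congrArg (fun x : (_ : T) × ℕ => x.2) h1
      exact this
    rw [hτ] at hd h2
    have hr : rk i = rk j := by
      rw [← Nat.div_add_mod (rk i) (M (τ j)), ← Nat.div_add_mod (rk j) (M (τ j)), hd, h2]
    rcases lt_trichotomy i j with hlt | heq | hgt
    · exact absurd hr (hrk i j hτ hlt).ne
    · exact heq
    · exact absurd hr.symm (hrk j i hτ.symm hgt).ne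
  · intro i j hij
    simp only [EmbeddingLike.apply_eq_iff_eq, Subtype.mk.injEq] at hij
    exact congrArg Sigma.fst hij

theorem place_containers {k : ℕ} {T : Type*} [Fintype T] [DecidableEq T] {ℓ R : ℝ} (hℓ : 0 < ℓ)
    (hR : 2 * ℓ ≤ R) (P : T → Set ℂ) (M : T → ℕ) (hM : ∀ t, 0 < M t)
    (hP : ∀ t, Slots (P t) ℓ (M t)) (K : Fin k → Set ℂ) (τ : Fin k → T) (e : Fin k → ℂ → ℂ)
    (he : ∀ i, IsRigidMotion (e i)) (hKP : ∀ i, e i '' K i ⊆ P (τ i))
    (hcount : ((∑ t, ((Finset.univ.filter fun i => τ i = t).card / M t + 1) : ℕ) : ℝ) * ℓ ^ 2 ≤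
      √3 / 2 * Real.pi * (R - 2 * ℓ) ^ 2) (c : ℂ) :
    Accommodates (closedBall c R) K := by
  classical
  choose g g1 g2 g3 using hP
  obtain ⟨G, hG, hGin⟩ := grid_count hℓ hR
  have hℓ2 : 0 < ℓ ^ 2 := by positivity
  have hB : ∑ t, ((Finset.univ.filter fun i => τ i = t).card / M t + 1) ≤ G.card := by
    have h1 := le_of_mul_le_mul_right (hcount.trans hG) hℓ2
    exact_mod_cast h1
  obtain ⟨f, hf, hf2, hft⟩ := assign' τ M hM hB
  let blk : Fin G.card → ℤ × ℤ := fun s => ((G.equivFin.symm s : G) : ℤ × ℤ)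
  have hblk : ∀ s, blk s ∈ G := fun s => (G.equivFin.symm s).2
  have hblkinj : Function.Injective blk := fun s s' hss =>
    G.equivFin.symm.injective (Subtype.ext hss)
  -- the motions into the slots, without dependent types
  let gg : T → ℕ → ℂ → ℂ := fun t s => if h : s < M t then g t ⟨s, h⟩ else id
  have gg1 : ∀ t s, s < M t → IsRigidMotion (gg t s) := by
    intro t s hs
    simp only [gg, dif_pos hs]
    exact g1 t _
  have gg2 : ∀ t s, s < M t → ∀ z ∈ gg t s '' P t, InBlock ℓ z := by
    intro t s hs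
    simp only [gg, dif_pos hs]
    exact g2 t _
  have gg3 : ∀ t s s', s < M t → s' < M t → s ≠ s' →
      Disjoint (interior (gg t s '' P t)) (interior (gg t s' '' P t)) := by
    intro t s s' hs hs' hne
    simp only [gg, dif_pos hs, dif_pos hs']
    exact g3 t _ _ (fun h => hne (congrArg Fin.val h))
  let CX : Fin k → ℝ := fun i => ((blk (f i).1).1 : ℝ) * ℓ
  let CY : Fin k → ℝ := fun i => ((blk (f i).1).2 : ℝ) * ℓ
  -- the sets, before the final translation by `c`
  let L : Fin k → Set ℂ := fun i =>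
    (fun z => gg (τ i) (f i).2 (e i z) + pt (CX i) (CY i)) '' K i
  have hLsub : ∀ i, L i ⊆ (fun z => z + pt (CX i) (CY i)) '' (gg (τ i) (f i).2 '' P (τ i)) := by
    rintro i z ⟨y, hy, rfl⟩
    exact ⟨gg (τ i) (f i).2 (e i y), ⟨e i y, hKP i ⟨y, hy, rfl⟩, rfl⟩, rfl⟩
  have bounds : ∀ i, ∀ z ∈ L i, ((blk (f i).1).1 : ℝ) * ℓ ≤ X z ∧
      X z ≤ (((blk (f i).1).1 : ℝ) + 1) * ℓ ∧ ((blk (f i).1).2 : ℝ) * ℓ ≤ Y z ∧
      Y z ≤ (((blk (f i).1).2 : ℝ) + 1) * ℓ := by
    intro i z hz
    obtain ⟨w, hw, rfl⟩ := hLsub i hz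
    obtain ⟨q1, q2, q3, q4⟩ := gg2 (τ i) (f i).2 (hf2 i) w hw
    simp only [X_add, Y_add, X_pt, Y_pt, CX, CY]
    refine ⟨by linarith, by linarith, by linarith, by linarith⟩
  have hLR : ∀ i, ∀ z ∈ L i, ‖z‖ ≤ R := by
    intro i z hz
    obtain ⟨q1, q2, q3, q4⟩ := bounds i z hz
    exact hGin _ (hblk (f i).1) z q1 q2 q3 q4
  have hadd : ∀ (v : ℂ) (s : Set ℂ),
      interior ((fun z => z + v) '' s) = (fun z => z + v) '' interior s := fun v s =>
    ((Homeomorph.addRight v).image_interior s).symm
  have hLdisj : ∀ i j, i ≠ j → Disjoint (interior (L i)) (interior (L j)) := by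
    intro i j hij
    by_cases hb' : (f i).1 = (f j).1
    · have hty : τ i = τ j := hft i j hb'
      have hne : (f i).2 ≠ (f j).2 := fun h' => hij (hf (Prod.ext hb' h'))
      have hCX : CX i = CX j := by simp only [CX, hb']
      have hCY : CY i = CY j := by simp only [CY, hb']
      have hsi := hf2 i
      have hLi := hLsub i
      rw [hty] at hsi hLi
      rw [hCX, hCY] at hLi
      refine Disjoint.mono (interior_mono hLi) (interior_mono (hLsub j)) ?_
      rw [hadd, hadd]
      exact (Set.disjoint_image_iff (add_left_injective _)).2 (gg3 (τ j) _ _ hsi (hf2 j) hne)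
    · have hbb : blk (f i).1 ≠ blk (f j).1 := fun h' => hb' (hblkinj h')
      have key : ∀ p q : ℤ, p < q → ((p : ℝ) + 1) * ℓ ≤ (q : ℝ) * ℓ := by
        intro p q hpq
        have : (p : ℝ) + 1 ≤ q := by exact_mod_cast hpq
        exact mul_le_mul_of_nonneg_right this hℓ.le
      rcases lt_trichotomy (blk (f i).1).1 (blk (f j).1).1 with hx | hx | hx
      · exact sep_X (c := ((blk (f j).1).1 : ℝ) * ℓ)
          (fun z hz => (bounds i z hz).2.1.trans (key _ _ hx)) (fun z hz => (bounds j z hz).1)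
      · rcases lt_trichotomy (blk (f i).1).2 (blk (f j).1).2 with hy | hy | hy
        · exact sep_Y (c := ((blk (f j).1).2 : ℝ) * ℓ)
            (fun z hz => (bounds i z hz).2.2.2.trans (key _ _ hy))
            (fun z hz => (bounds j z hz).2.2.1)
        · exact absurd (Prod.ext hx hy) hbb
        · exact (sep_Y (c := ((blk (f i).1).2 : ℝ) * ℓ)
            (fun z hz => (bounds j z hz).2.2.2.trans (key _ _ hy))
            (fun z hz => (bounds i z hz).2.2.1)).symm
      · exact (sep_X (c := ((blk (f i).1).1 : ℝ) * ℓ)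
          (fun z hz => (bounds j z hz).2.1.trans (key _ _ hx))
          (fun z hz => (bounds i z hz).1)).symm
  -- final translation
  have himg : ∀ i, (fun z => gg (τ i) (f i).2 (e i z) + pt (CX i) (CY i) + c) '' K i =
      (fun z => z + c) '' L i := by
    intro i
    simp only [L, Set.image_image]
  refine ⟨fun i z => gg (τ i) (f i).2 (e i z) + pt (CX i) (CY i) + c, ?_, ?_, ?_⟩
  · intro i
    obtain ⟨u, v, hu, huv⟩ := gg1 (τ i) (f i).2 (hf2 i)
    obtain ⟨u', v', hu', huv'⟩ := he i
    exact ⟨u * u', u * v' + v + pt (CX i) (CY i) + c, by rw [norm_mul, hu, hu', one_mul],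
      fun z => by
        show gg (τ i) (f i).2 (e i z) + pt (CX i) (CY i) + c = _
        rw [huv, huv']; ring⟩
  · intro i
    rw [himg]
    rintro z ⟨y, hy, rfl⟩
    rw [mem_closedBall, dist_eq_norm, add_sub_cancel_right]
    exact hLR i y hy
  · intro i j hij
    rw [himg, himg, hadd, hadd]
    exact (Set.disjoint_image_iff (add_left_injective c)).2 (hLdisj i j hij)

end Pool.Agent.Helper89.FF
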