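import Pool.Agent.Helper89.FF.Defs
import Pool.Agent.Helper14.PK.L

/-!
# FF-BLK: periodic packings fill rhombus blocks

Proofs in words.

`lattice_points`: the linear map `(x, y) ↦ (x X v1 + y X v2, x Y v1 + y Y v2)` of the plane has
determinant `D`. Let `ρ' ≥ |ρ|, |X v1|, |X v2|, |Y v1|, |Y v2|`. The translates of the fundamental
parallelogram `F` (area `D`) by the lattice points of the square `[ρ', ℓ - ρ'] ^ 2` cover the
square `[3 ρ', ℓ - 3 ρ'] ^ 2`, so their number is at least `(ℓ - 6 ρ') ^ 2 / D`. The proof is the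
same as that of `Pool.Agent.Helper79.PK.lattice_count` (file `Pool/Agent/Helper14/PK/L.lean`,
where the lattice is special). The number of lattice points in the square is finite because
`p.1 * D = X λ * Y v2 - Y λ * X v2`, `p.2 * D = ...` are bounded.

`block_of_periodic`: choose `ρ` such that `|X z|, |Y z| ≤ ρ` for all `z` in the bounded sets
`h j '' P`; take the translates `h j z + λ`, `λ` in the set `T` of `lattice_points` (for this
`ρ`), so `M = n * T.card` copies.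
-/

namespace Pool.Agent.Helper89.FF

open Pool.Agent.Helper16.Disk7 Pool.Agent.Helper79.PK Metric

private theorem ffb_X (p : ℤ × ℤ) (v1 v2 : ℂ) :
    X ((p.1 : ℂ) * v1 + (p.2 : ℂ) * v2) = (p.1 : ℝ) * X v1 + (p.2 : ℝ) * X v2 := by
  simp [X]

private theorem ffb_Y (p : ℤ × ℤ) (v1 v2 : ℂ) :
    Y ((p.1 : ℂ) * v1 + (p.2 : ℂ) * v2) = (p.1 : ℝ) * Y v1 + (p.2 : ℝ) * Y v2 := by
  simp only [Y, Complex.add_re, Complex.add_im, Complex.mul_re, Complex.mul_im,
    Complex.intCast_re, Complex.intCast_im, zero_mul, sub_zero, add_zero]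
  ring

private theorem ffb_abs_X (z : ℂ) : |X z| ≤ 2 * ‖z‖ := by
  have h1 : |X z| ≤ ‖z‖ := Complex.abs_re_le_norm z
  have := norm_nonneg z
  linarith

private theorem ffb_abs_Y (z : ℂ) : |Y z| ≤ 2 * ‖z‖ := by
  have h1 : |z.re| ≤ ‖z‖ := Complex.abs_re_le_norm z
  have h2 : |z.im| ≤ ‖z‖ := Complex.abs_im_le_norm z
  have h3 : √3 ≤ 2 := by
    rw [Real.sqrt_le_left (by norm_num)]
    norm_num
  have h4 : 0 ≤ √3 := Real.sqrt_nonneg 3
  have h5 : |Y z| ≤ |z.re| / 2 + √3 / 2 * |z.im| := by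
    rw [Y]
    refine (abs_add_le _ _).trans ?_
    rw [abs_mul, abs_div, abs_neg, abs_of_nonneg (show (0 : ℝ) ≤ √3 / 2 by positivity),
      abs_of_nonneg (show (0 : ℝ) ≤ 2 by norm_num)]
  have h6 : √3 / 2 * |z.im| ≤ 1 * ‖z‖ :=
    mul_le_mul (by linarith) h2 (abs_nonneg _) (by norm_num)
  have h7 := norm_nonneg z
  linarith

private theorem ffb_comb {a b x y R : ℝ} (hx : 0 ≤ x) (hx1 : x ≤ 1) (hy : 0 ≤ y) (hy1 : y ≤ 1)
    (h : |a| + |b| ≤ R) : |x * a + y * b| ≤ R := by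
  refine (abs_add_le _ _).trans ?_
  rw [abs_mul, abs_mul, abs_of_nonneg hx, abs_of_nonneg hy]
  have h1 : x * |a| ≤ 1 * |a| := mul_le_mul_of_nonneg_right hx1 (abs_nonneg _)
  have h2 : y * |b| ≤ 1 * |b| := mul_le_mul_of_nonneg_right hy1 (abs_nonneg _)
  linarith

open MeasureTheory Set in
private theorem ffb_count {a1 a2 b1 b2 D R ℓ : ℝ} (hD : D = a1 * b2 - a2 * b1) (hD0 : 0 < D)
    (hR : 0 ≤ R) (ha : |a1| + |a2| ≤ R) (hb : |b1| + |b2| ≤ R) (hℓ : 4 * R ≤ ℓ) :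
    ∃ T : Finset (ℤ × ℤ), (ℓ - 4 * R) ^ 2 ≤ (T.card : ℝ) * D ∧
      ∀ p ∈ T, R ≤ (p.1 : ℝ) * a1 + p.2 * a2 ∧ (p.1 : ℝ) * a1 + p.2 * a2 ≤ ℓ - R ∧
        R ≤ (p.1 : ℝ) * b1 + p.2 * b2 ∧ (p.1 : ℝ) * b1 + p.2 * b2 ≤ ℓ - R := by
  classical
  -- the linear map
  let A : Matrix (Fin 2) (Fin 2) ℝ := !![a1, a2; b1, b2]
  have hdet : A.det = D := by
    simp only [A, Matrix.det_fin_two_of]
    rw [hD]
  let Q : Set (Fin 2 → ℝ) := Set.univ.pi fun _ => Set.Ico (0 : ℝ) 1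
  let F : Set (Fin 2 → ℝ) := (Matrix.toLin' A) '' Q
  have hQ : volume Q = 1 := by
    simp [Q, Real.volume_pi_Ico]
  have hF : volume F = ENNReal.ofReal D := by
    simp only [F]
    rw [Measure.addHaar_image_linearMap, hQ, mul_one, LinearMap.det_toLin', hdet, abs_of_pos hD0]
  let S : Set (Fin 2 → ℝ) := Set.Icc (fun _ => 2 * R) (fun _ => ℓ - 2 * R)
  have hS : volume S = ENNReal.ofReal ((ℓ - 4 * R) ^ 2) := by
    simp only [S]
    rw [Real.volume_Icc_pi]
    simp only [Fin.prod_univ_two]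
    rw [← ENNReal.ofReal_mul (by linarith)]
    congr 1; ring
  -- the lattice points
  obtain ⟨N, hN⟩ : ∃ N : ℤ, 2 * R * ℓ / D ≤ (N : ℝ) := ⟨⌈2 * R * ℓ / D⌉, Int.le_ceil _⟩
  have hN' : 2 * R * ℓ ≤ (N : ℝ) * D := by
    rwa [div_le_iff₀ hD0] at hN
  have hℓ0 : 0 ≤ ℓ := by linarith
  have ha1 : |a1| ≤ R := by linarith [abs_nonneg a2]
  have ha2 : |a2| ≤ R := by linarith [abs_nonneg a1]
  have hb1 : |b1| ≤ R := by linarith [abs_nonneg b2]
  have hb2 : |b2| ≤ R := by linarith [abs_nonneg b1]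
  let T : Finset (ℤ × ℤ) := (Finset.Icc (-N) N ×ˢ Finset.Icc (-N) N).filter fun p =>
    R ≤ (p.1 : ℝ) * a1 + p.2 * a2 ∧ (p.1 : ℝ) * a1 + p.2 * a2 ≤ ℓ - R ∧
        R ≤ (p.1 : ℝ) * b1 + p.2 * b2 ∧ (p.1 : ℝ) * b1 + p.2 * b2 ≤ ℓ - R
  have hT : ∀ p : ℤ × ℤ, (R ≤ (p.1 : ℝ) * a1 + p.2 * a2 ∧ (p.1 : ℝ) * a1 + p.2 * a2 ≤ ℓ - R ∧
        R ≤ (p.1 : ℝ) * b1 + p.2 * b2 ∧ (p.1 : ℝ) * b1 + p.2 * b2 ≤ ℓ - R) → p ∈ T := by
    intro p hp
    obtain ⟨h1, h2, h3, h4⟩ := hp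
    have e1 : (p.1 : ℝ) * D = ((p.1 : ℝ) * a1 + p.2 * a2) * b2 -
        ((p.1 : ℝ) * b1 + p.2 * b2) * a2 := by
      rw [hD]; ring
    have e2 : (p.2 : ℝ) * D = ((p.1 : ℝ) * b1 + p.2 * b2) * a1 -
        ((p.1 : ℝ) * a1 + p.2 * a2) * b1 := by
      rw [hD]; ring
    have key : ∀ c d u w : ℝ, |c| ≤ R → |d| ≤ R → 0 ≤ u → u ≤ ℓ → 0 ≤ w → w ≤ ℓ →
        |u * c - w * d| ≤ N * D := by
      intro c d u w hc hd hu0 hu1 hw0 hw1
      have q1 : |u * c| ≤ ℓ * R := by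
        rw [abs_mul, abs_of_nonneg hu0]
        exact mul_le_mul hu1 hc (abs_nonneg _) hℓ0
      have q2 : |w * d| ≤ ℓ * R := by
        rw [abs_mul, abs_of_nonneg hw0]
        exact mul_le_mul hw1 hd (abs_nonneg _) hℓ0
      have q3 := abs_le.1 q1
      have q4 := abs_le.1 q2
      rw [abs_le]
      constructor <;> linarith
    have int_bd : ∀ k : ℤ, |(k : ℝ) * D| ≤ N * D → -N ≤ k ∧ k ≤ N := by
      intro k hk
      obtain ⟨q1, q2⟩ := abs_le.1 hk
      constructor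
      · have : ((-N : ℤ) : ℝ) ≤ (k : ℝ) := by
          rw [Int.cast_neg]
          refine le_of_mul_le_mul_right ?_ hD0
          linarith
        exact_mod_cast this
      · have : (k : ℝ) ≤ (N : ℝ) := le_of_mul_le_mul_right q2 hD0
        exact_mod_cast this
    have r1 := int_bd p.1 (by
      rw [e1]
      exact key _ _ _ _ hb2 ha2 (by linarith) (by linarith) (by linarith) (by linarith))
    have r2 := int_bd p.2 (by
      rw [e2]
      exact key _ _ _ _ ha1 hb1 (by linarith) (by linarith) (by linarith) (by linarith))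
    simp only [T, Finset.mem_filter, Finset.mem_product, Finset.mem_Icc]
    exact ⟨⟨⟨r1.1, r1.2⟩, ⟨r2.1, r2.2⟩⟩, h1, h2, h3, h4⟩
  refine ⟨T, ?_, ?_⟩
  · -- the area estimate
    let v : ℤ × ℤ → (Fin 2 → ℝ) := fun p => Matrix.toLin' A ![(p.1 : ℝ), (p.2 : ℝ)]
    have hcov : S ⊆ ⋃ p ∈ T, (fun x => v p + x) '' F := by
      intro s hs
      have hs0 : 2 * R ≤ s 0 ∧ s 0 ≤ ℓ - 2 * R := ⟨hs.1 0, hs.2 0⟩
      have hs1 : 2 * R ≤ s 1 ∧ s 1 ≤ ℓ - 2 * R := ⟨hs.1 1, hs.2 1⟩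
      set x : ℝ := (b2 * s 0 - a2 * s 1) / D with hx
      set y : ℝ := (a1 * s 1 - b1 * s 0) / D with hy
      have hDne : D ≠ 0 := hD0.ne'
      have g0 : x * a1 + y * a2 = s 0 := by
        rw [hx, hy]; field_simp; rw [hD]; ring
      have g1 : x * b1 + y * b2 = s 1 := by
        rw [hx, hy]; field_simp; rw [hD]; ring
      have hfx0 := Int.fract_nonneg x
      have hfx1 := Int.fract_lt_one x
      have hfy0 := Int.fract_nonneg y
      have hfy1 := Int.fract_lt_one y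
      have ex : ((⌊x⌋ : ℤ) : ℝ) = x - Int.fract x := by
        have := Int.floor_add_fract x; linarith
      have ey : ((⌊y⌋ : ℤ) : ℝ) = y - Int.fract y := by
        have := Int.floor_add_fract y; linarith
      have c1 := abs_le.1 (ffb_comb hfx0 hfx1.le hfy0 hfy1.le ha)
      have c2 := abs_le.1 (ffb_comb hfx0 hfx1.le hfy0 hfy1.le hb)
      have t1 : (x - Int.fract x) * a1 + (y - Int.fract y) * a2
          = s 0 - (Int.fract x * a1 + Int.fract y * a2) := by rw [← g0]; ring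
      have t2 : (x - Int.fract x) * b1 + (y - Int.fract y) * b2
          = s 1 - (Int.fract x * b1 + Int.fract y * b2) := by rw [← g1]; ring
      refine Set.mem_iUnion₂.2 ⟨(⌊x⌋, ⌊y⌋), hT _ ?_, ?_⟩
      · simp only
        rw [ex, ey, t1, t2]
        refine ⟨?_, ?_, ?_, ?_⟩
        · linarith [c1.2, hs0.1]
        · linarith [c1.1, hs0.2]
        · linarith [c2.2, hs1.1]
        · linarith [c2.1, hs1.2]
      · refine ⟨Matrix.toLin' A ![Int.fract x, Int.fract y],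
          ⟨![Int.fract x, Int.fract y], ?_, rfl⟩, ?_⟩
        · simp only [Q, Set.mem_univ_pi]
          intro i
          fin_cases i
          · exact ⟨hfx0, hfx1⟩
          · exact ⟨hfy0, hfy1⟩
        · simp only [v]
          rw [← map_add]
          have : (![((⌊x⌋ : ℤ) : ℝ), ((⌊y⌋ : ℤ) : ℝ)] + ![Int.fract x, Int.fract y] : Fin 2 → ℝ)
              = ![x, y] := by
            ext i
            fin_cases i
            · simp
            · simp
          rw [this, Matrix.toLin'_apply]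
          ext i
          fin_cases i
          · simp only [A, Matrix.mulVec, dotProduct, Fin.sum_univ_two, Fin.zero_eta, Matrix.of_apply,
              Matrix.cons_val_zero, Matrix.cons_val_one]
            rw [← g0]; ring
          · simp only [A, Matrix.mulVec, dotProduct, Fin.sum_univ_two, Fin.mk_one, Matrix.of_apply,
              Matrix.cons_val_zero, Matrix.cons_val_one]
            rw [← g1]; ring
    have hle : volume S ≤ (T.card : ENNReal) * ENNReal.ofReal D := by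
      calc volume S ≤ volume (⋃ p ∈ T, (fun x => v p + x) '' F) := measure_mono hcov
        _ ≤ ∑ p ∈ T, volume ((fun x => v p + x) '' F) := measure_biUnion_finset_le _ _
        _ = ∑ p ∈ T, ENNReal.ofReal D := by
            refine Finset.sum_congr rfl fun p _ => ?_
            rw [Set.image_add_left, measure_preimage_add, hF]
        _ = (T.card : ENNReal) * ENNReal.ofReal D := by
            rw [Finset.sum_const, nsmul_eq_mul]
    rw [hS] at hle
    have e : (T.card : ENNReal) * ENNReal.ofReal D = ENNReal.ofReal ((T.card : ℝ) * D) := by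
      rw [ENNReal.ofReal_mul (by positivity), ENNReal.ofReal_natCast]
    rw [e] at hle
    exact (ENNReal.ofReal_le_ofReal_iff (by positivity)).1 hle
  · intro p hp
    simp only [T, Finset.mem_filter] at hp
    exact hp.2

theorem lattice_points {v1 v2 : ℂ} {D : ℝ} (hD : D = X v1 * Y v2 - X v2 * Y v1) (hD0 : 0 < D)
    (ρ : ℝ) : ∃ C : ℝ, ∀ ℓ : ℝ, C ≤ ℓ → ∃ T : Finset (ℤ × ℤ),
      (ℓ - C) ^ 2 ≤ (T.card : ℝ) * D ∧
      ∀ p ∈ T, ρ ≤ X ((p.1 : ℂ) * v1 + (p.2 : ℂ) * v2) ∧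
        X ((p.1 : ℂ) * v1 + (p.2 : ℂ) * v2) ≤ ℓ - ρ ∧
        ρ ≤ Y ((p.1 : ℂ) * v1 + (p.2 : ℂ) * v2) ∧
        Y ((p.1 : ℂ) * v1 + (p.2 : ℂ) * v2) ≤ ℓ - ρ := by
  set R : ℝ := |ρ| + (|X v1| + |X v2|) + (|Y v1| + |Y v2|) with hRdef
  have p0 := abs_nonneg ρ
  have p1 := abs_nonneg (X v1)
  have p2 := abs_nonneg (X v2)
  have p3 := abs_nonneg (Y v1)
  have p4 := abs_nonneg (Y v2)
  have hρ : ρ ≤ R := by linarith [le_abs_self ρ]
  refine ⟨4 * R, fun ℓ hℓ => ?_⟩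
  obtain ⟨T, h1, h2⟩ := ffb_count hD hD0 (R := R) (by linarith) (by linarith) (by linarith) hℓ
  refine ⟨T, h1, fun p hp => ?_⟩
  obtain ⟨q1, q2, q3, q4⟩ := h2 p hp
  rw [ffb_X, ffb_Y]
  exact ⟨by linarith, by linarith, by linarith, by linarith⟩

theorem block_of_periodic {P : Set ℂ} (hP : Bornology.IsBounded P) {n : ℕ} (hn : 0 < n)
    (h : Fin n → ℂ → ℂ) (hh : ∀ j, IsRigidMotion (h j)) {v1 v2 : ℂ} {D : ℝ}
    (hD : D = X v1 * Y v2 - X v2 * Y v1) (hD0 : 0 < D)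
    (hdis : ∀ (j j' : Fin n) (p p' : ℤ × ℤ), (j, p) ≠ (j', p') →
      Disjoint (interior ((fun z => h j z + ((p.1 : ℂ) * v1 + (p.2 : ℂ) * v2)) '' P))
        (interior ((fun z => h j' z + ((p'.1 : ℂ) * v1 + (p'.2 : ℂ) * v2)) '' P))) :
    BlockPacks P (D / n) := by
  classical
  obtain ⟨B, hB⟩ := hP.exists_norm_le
  choose a b ha hab using hh
  set ρ : ℝ := ∑ j, 2 * (|B| + ‖b j‖) with hρdef
  have hρ : ∀ j, ∀ z ∈ P, 2 * ‖h j z‖ ≤ ρ := by
    intro j z hz
    have h1 : ‖h j z‖ ≤ |B| + ‖b j‖ := by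
      rw [hab]
      refine (norm_add_le _ _).trans ?_
      rw [norm_mul, ha, one_mul]
      have := (hB z hz).trans (le_abs_self B)
      linarith
    have h2 : 2 * (|B| + ‖b j‖) ≤ ρ := by
      rw [hρdef]
      exact Finset.single_le_sum (f := fun j => 2 * (|B| + ‖b j‖))
        (fun i _ => by positivity) (Finset.mem_univ j)
    linarith
  obtain ⟨C, hC⟩ := lattice_points hD hD0 ρ
  refine ⟨C, fun ℓ hℓ => ?_⟩
  obtain ⟨T, hT1, hT2⟩ := hC ℓ hℓ
  have hn0 : (n : ℝ) ≠ 0 := by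
    have : (0 : ℝ) < n := by exact_mod_cast hn
    exact this.ne'
  refine ⟨n * T.card, ?_, ?_⟩
  · have h1 : ((n * T.card : ℕ) : ℝ) * (D / n) = (T.card : ℝ) * D := by
      rw [Nat.cast_mul]
      field_simp
    rw [h1]
    exact hT1
  · let e : Fin (n * T.card) ≃ Fin n × T :=
      finProdFinEquiv.symm.trans (Equiv.prodCongr (Equiv.refl _) T.equivFin.symm)
    refine ⟨fun s z => h (e s).1 z +
      ((((e s).2 : ℤ × ℤ).1 : ℂ) * v1 + (((e s).2 : ℤ × ℤ).2 : ℂ) * v2), ?_, ?_, ?_⟩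
    · intro s
      exact isRigidMotion_comp (isRigidMotion_add _) ⟨a _, b _, ha _, hab _⟩
    · intro s z hz
      obtain ⟨w, hw, rfl⟩ := hz
      obtain ⟨q1, q2, q3, q4⟩ := hT2 _ (e s).2.2
      have r := hρ (e s).1 w hw
      have r1 := abs_le.1 ((ffb_abs_X (h (e s).1 w)).trans r)
      have r2 := abs_le.1 ((ffb_abs_Y (h (e s).1 w)).trans r)
      simp only [InBlock]
      rw [X_add, Y_add]
      exact ⟨by linarith [r1.1], by linarith [r1.2], by linarith [r2.1], by linarith [r2.2]⟩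
    · intro s t hst
      apply hdis (e s).1 (e t).1 (e s).2 (e t).2
      intro h1
      apply hst
      apply e.injective
      rw [Prod.mk.injEq] at h1
      exact Prod.ext h1.1 (Subtype.ext h1.2)

end Pool.Agent.Helper89.FF
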