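import Pool.Agent.Helper89.FF.Supp

/-!
# FF-CPT: compactness

Let `S` be the set of the `K : TopologicalSpace.NonemptyCompacts ℂ` with `IsUnitConvexSet K`,
`0 ∈ K`, `Far ε K`. It is a closed subset of `{K | K ⊆ closedBall 0 1}`, which is compact
(`TopologicalSpace.NonemptyCompacts.isCompact_subsets_of_isCompact`): a convex set of perimeter
`1` containing `0` lies in `closedBall 0 1` (for `z ∈ K`, `n = ‖z‖`,
`supportFn K θ ≥ max 0 (pr θ z) ≥ (pr θ z + (pr θ z) ^ 2 / n) / 2`, so `1 ≥ π n / 2`);
closedness: convexity passes to limits (for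
`x, y ∈ K` and `K' ` close to `K`, choose `x', y' ∈ K'` close to `x, y`; use `infDist`), the
perimeter by `abs_perimeter_sub_le`, `0 ∈ K` by `infDist`, `Far ε K` because
`|hausdorffDist K B - hausdorffDist K' B| ≤ hausdorffDist K K'`.

A set `K` of `S` is not a disk of perimeter `1` (its Hausdorff distance to itself is zero), so
`hloc` gives `r K > 0` and `a K < a0`; finitely many of the balls `ball K (r K)` cover `S`; let
`P j` be the sets `cthickening (r (K j)) (K j)`, `a` the maximum of the numbers `a (K j)` and of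
`a0 / 2`. (For `J` we can take the number of balls; if `S` is empty take `J = 0`.)
For a unit convex set `K'` with `Far ε K'` choose `v` with `0 ∈ K' + v`; `K' + v ∈ S`, it lies in
a ball `ball (K j) (r (K j))`, so `K' + v ⊆ cthickening (r (K j)) (K j)`.
-/

namespace Pool.Agent.Helper89.FF

open Pool.Agent.Helper16.Disk7 Pool.Agent.Helper79.PK Metric Widths
open TopologicalSpace MeasureTheory

namespace Cpt

theorem integral_pr (z : ℂ) : ∫ θ in (0 : ℝ)..(2 * Real.pi), pr θ z = 0 := by
  unfold pr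
  rw [intervalIntegral.integral_add, intervalIntegral.integral_const_mul,
    intervalIntegral.integral_const_mul, integral_cos, integral_sin]
  · simp
  · exact (Continuous.intervalIntegrable (by fun_prop) _ _)
  · exact (Continuous.intervalIntegrable (by fun_prop) _ _)

theorem integral_pr_sq (z : ℂ) :
    ∫ θ in (0 : ℝ)..(2 * Real.pi), (pr θ z) ^ 2 = Real.pi * ‖z‖ ^ 2 := by
  have h : ∀ θ : ℝ, (pr θ z) ^ 2 = z.re ^ 2 * Real.cos θ ^ 2 + z.im ^ 2 * Real.sin θ ^ 2 +
      2 * z.re * z.im * (Real.sin θ * Real.cos θ) := by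
    intro θ
    unfold pr
    ring
  simp only [h]
  rw [intervalIntegral.integral_add, intervalIntegral.integral_add,
    intervalIntegral.integral_const_mul, intervalIntegral.integral_const_mul,
    intervalIntegral.integral_const_mul, integral_cos_sq, integral_sin_sq,
    integral_sin_mul_cos₁, Complex.sq_norm, Complex.normSq_apply]
  · simp
    ring
  · exact (Continuous.intervalIntegrable (by fun_prop) _ _)
  · exact (Continuous.intervalIntegrable (by fun_prop) _ _)
  · exact (Continuous.intervalIntegrable (by fun_prop) _ _)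
  · exact (Continuous.intervalIntegrable (by fun_prop) _ _)

theorem continuous_pr' (z : ℂ) : Continuous fun θ => pr θ z := by
  unfold pr
  fun_prop

theorem norm_le_one {K : Set ℂ} (hK : IsUnitConvexSet K) (h0 : (0 : ℂ) ∈ K) {z : ℂ}
    (hz : z ∈ K) : ‖z‖ ≤ 1 := by
  by_cases hz0 : z = 0
  · simp [hz0]
  have hn : 0 < ‖z‖ := norm_pos_iff.mpr hz0
  have hle : ∀ θ : ℝ, (pr θ z + (pr θ z) ^ 2 / ‖z‖) / 2 ≤ supportFn K θ := by
    intro θ
    have h1 := pr_le hK.isCompact hz θ
    have h2 := pr_le hK.isCompact h0 θ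
    have h3 : pr θ 0 = 0 := by simp [pr]
    rw [h3] at h2
    have h4 := abs_le.mp (abs_pr_le θ z)
    rcases le_total 0 (pr θ z) with hp | hp
    · have h5 : (pr θ z) ^ 2 / ‖z‖ ≤ pr θ z := by
        rw [div_le_iff₀ hn]
        nlinarith [h4.2]
      linarith
    · have h5 : (pr θ z) ^ 2 / ‖z‖ ≤ - pr θ z := by
        rw [div_le_iff₀ hn]
        nlinarith [h4.1]
      linarith
  have hc1 : Continuous fun θ => pr θ z := continuous_pr' z
  have hmono : ∫ θ in (0 : ℝ)..(2 * Real.pi), (pr θ z + (pr θ z) ^ 2 / ‖z‖) / 2 ≤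
      ∫ θ in (0 : ℝ)..(2 * Real.pi), supportFn K θ := by
    refine intervalIntegral.integral_mono_on (by positivity) ?_ ?_ (fun θ _ => hle θ)
    · exact Continuous.intervalIntegrable (by fun_prop) _ _
    · exact (continuous_supportFn hK.isCompact hK.nonempty).intervalIntegrable _ _
  have hper : ∫ θ in (0 : ℝ)..(2 * Real.pi), supportFn K θ = 1 := hK.perimeter_eq
  have hval : ∫ θ in (0 : ℝ)..(2 * Real.pi), (pr θ z + (pr θ z) ^ 2 / ‖z‖) / 2 =
      Real.pi * ‖z‖ / 2 := by
    rw [intervalIntegral.integral_div, intervalIntegral.integral_add,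
      intervalIntegral.integral_div, integral_pr, integral_pr_sq]
    · field_simp
      ring
    · exact Continuous.intervalIntegrable (by fun_prop) _ _
    · exact Continuous.intervalIntegrable (by fun_prop) _ _
  rw [hval, hper] at hmono
  have h3 := Real.pi_gt_three
  nlinarith

theorem supportFn_translate {K : Set ℂ} (hK : IsCompact K) (hKn : K.Nonempty) (v : ℂ) (θ : ℝ) :
    supportFn ((fun z => z + v) '' K) θ = supportFn K θ + pr θ v := by
  have hc : IsCompact ((fun z => z + v) '' K) := hK.image (by fun_prop)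
  apply le_antisymm
  · obtain ⟨w, hw, h⟩ := exists_pr hc (hKn.image _) θ
    obtain ⟨z, hz, rfl⟩ := hw
    rw [← h]
    show pr θ (z + v) ≤ _
    rw [pr_add]
    have := pr_le hK hz θ
    linarith
  · obtain ⟨z, hz, h⟩ := exists_pr hK hKn θ
    rw [← h, ← pr_add]
    exact pr_le hc (Set.mem_image_of_mem _ hz) θ

theorem isUnitConvexSet_translate {K : Set ℂ} (hK : IsUnitConvexSet K) (v : ℂ) :
    IsUnitConvexSet ((fun z => z + v) '' K) where
  nonempty := hK.nonempty.image _
  isCompact := hK.isCompact.image (by fun_prop)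
  convex := by
    rintro _ ⟨x, hx, rfl⟩ _ ⟨y, hy, rfl⟩ a b ha hb hab
    refine ⟨a • x + b • y, hK.convex hx hy ha hb hab, ?_⟩
    show a • x + b • y + v = a • (x + v) + b • (y + v)
    rw [smul_add, smul_add]
    have : v = a • v + b • v := by rw [← add_smul, hab, one_smul]
    nth_rewrite 1 [this]
    abel
  perimeter_eq := by
    unfold perimeter
    have h : ∀ θ, supportFn ((fun z => z + v) '' K) θ = supportFn K θ + pr θ v :=
      supportFn_translate hK.isCompact hK.nonempty v
    simp only [h]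
    rw [intervalIntegral.integral_add, integral_pr, add_zero]
    · exact hK.perimeter_eq
    · exact (continuous_supportFn hK.isCompact hK.nonempty).intervalIntegrable _ _
    · exact (continuous_pr' v).intervalIntegrable _ _

theorem far_translate {ε : ℝ} {K : Set ℂ} (hK : Far ε K) (v : ℂ) :
    Far ε ((fun z => z + v) '' K) := by
  intro c
  have h1 : closedBall c (1 / (2 * Real.pi)) =
      (fun z => z + v) '' closedBall (c - v) (1 / (2 * Real.pi)) := by
    have h2 := (IsometryEquiv.addRight v).image_closedBall (c - v) (1 / (2 * Real.pi))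
    have h3 : (IsometryEquiv.addRight v) (c - v) = c := by simp
    rw [h3] at h2
    exact h2.symm
  have h4 := hausdorffDist_image (s := K) (t := closedBall (c - v) (1 / (2 * Real.pi)))
    (IsometryEquiv.addRight v).isometry
  have h5 : ((IsometryEquiv.addRight v : ℂ ≃ᵢ ℂ) : ℂ → ℂ) = fun z => z + v := rfl
  rw [h5] at h4
  rw [h1, h4]
  exact hK _

theorem hd_ne_top (K L : NonemptyCompacts ℂ) :
    hausdorffEDist (K : Set ℂ) (L : Set ℂ) ≠ ⊤ :=
  hausdorffEDist_ne_top_of_nonempty_of_bounded K.nonempty L.nonempty K.isCompact.isBounded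
    L.isCompact.isBounded

theorem isClosed_convex : IsClosed {K : NonemptyCompacts ℂ | Convex ℝ (K : Set ℂ)} := by
  refine isClosed_of_closure_subset fun K hK => ?_
  rw [Metric.mem_closure_iff] at hK
  intro x hx y hy a b ha hb hab
  rw [K.isCompact.isClosed.mem_iff_infDist_zero K.nonempty]
  refine le_antisymm (le_of_forall_pos_le_add fun δ hδ => ?_) infDist_nonneg
  obtain ⟨L, hL, hKL⟩ := hK (δ / 2) (by positivity)
  rw [NonemptyCompacts.dist_eq] at hKL
  obtain ⟨x', hx', hxx⟩ := exists_dist_lt_of_hausdorffDist_lt hx hKL (hd_ne_top K L)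
  obtain ⟨y', hy', hyy⟩ := exists_dist_lt_of_hausdorffDist_lt hy hKL (hd_ne_top K L)
  have hmem := hL hx' hy' ha hb hab
  obtain ⟨w, hw, hww⟩ := exists_dist_lt_of_hausdorffDist_lt' hmem hKL (hd_ne_top K L)
  have h1 : dist (a • x + b • y) (a • x' + b • y') ≤ δ / 2 := by
    rw [dist_eq_norm]
    have h2 : a • x + b • y - (a • x' + b • y') = a • (x - x') + b • (y - y') := by
      rw [smul_sub, smul_sub]
      abel
    rw [h2]
    refine (norm_add_le _ _).trans ?_
    rw [norm_smul, norm_smul, Real.norm_of_nonneg ha, Real.norm_of_nonneg hb, ← dist_eq_norm,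
      ← dist_eq_norm]
    calc a * dist x x' + b * dist y y' ≤ a * (δ / 2) + b * (δ / 2) := by gcongr
      _ = (a + b) * (δ / 2) := by ring
      _ = δ / 2 := by rw [hab, one_mul]
  have h3 : dist (a • x' + b • y') w < δ / 2 := by
    rw [dist_comm]
    exact hww
  have h4 := infDist_le_dist_of_mem (x := a • x + b • y) hw
  have h5 := dist_triangle (a • x + b • y) (a • x' + b • y') w
  linarith

theorem isClosed_perimeter : IsClosed {K : NonemptyCompacts ℂ | perimeter (K : Set ℂ) = 1} := by
  have h : LipschitzWith ⟨2 * Real.pi, by positivity⟩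
      (fun K : NonemptyCompacts ℂ => perimeter (K : Set ℂ)) := by
    refine LipschitzWith.of_dist_le_mul fun K L => ?_
    rw [Real.dist_eq, NonemptyCompacts.dist_eq]
    exact abs_perimeter_sub_le K.isCompact L.isCompact K.nonempty L.nonempty
  exact isClosed_eq h.continuous continuous_const

theorem isClosed_zero : IsClosed {K : NonemptyCompacts ℂ | (0 : ℂ) ∈ (K : Set ℂ)} := by
  have h := (Metric.lipschitz_infDist_set (0 : ℂ)).continuous
  have h2 : {K : NonemptyCompacts ℂ | (0 : ℂ) ∈ (K : Set ℂ)} =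
      {K : NonemptyCompacts ℂ | infDist (0 : ℂ) (K : Set ℂ) = 0} := by
    ext K
    exact K.isCompact.isClosed.mem_iff_infDist_zero K.nonempty
  rw [h2]
  exact isClosed_eq h continuous_const

theorem isClosed_far (ε : ℝ) : IsClosed {K : NonemptyCompacts ℂ | Far ε (K : Set ℂ)} := by
  have h : {K : NonemptyCompacts ℂ | Far ε (K : Set ℂ)} =
      ⋂ c : ℂ, {K : NonemptyCompacts ℂ |
        ε ≤ hausdorffDist (K : Set ℂ) (closedBall c (1 / (2 * Real.pi)))} := by
    ext K
    simp only [Set.mem_setOf_eq, Set.mem_iInter]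
    exact Iff.rfl
  rw [h]
  refine isClosed_iInter fun c => ?_
  let B : NonemptyCompacts ℂ := ⟨⟨closedBall c (1 / (2 * Real.pi)), isCompact_closedBall _ _⟩,
    nonempty_closedBall.mpr (by positivity)⟩
  have h2 : ∀ K : NonemptyCompacts ℂ,
      hausdorffDist (K : Set ℂ) (closedBall c (1 / (2 * Real.pi))) = dist K B := fun K => by
    rw [NonemptyCompacts.dist_eq]
    rfl
  simp only [h2]
  exact isClosed_le continuous_const (continuous_id.dist continuous_const)

/-- The compact set of unit convex sets containing `0` and far from the disks. -/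
def S (ε : ℝ) : Set (NonemptyCompacts ℂ) :=
  {K | IsUnitConvexSet (K : Set ℂ) ∧ (0 : ℂ) ∈ (K : Set ℂ) ∧ Far ε (K : Set ℂ)}

theorem isCompact_S (ε : ℝ) : IsCompact (S ε) := by
  have h1 : IsClosed (S ε) := by
    have h : S ε = {K : NonemptyCompacts ℂ | Convex ℝ (K : Set ℂ)} ∩
        ({K : NonemptyCompacts ℂ | perimeter (K : Set ℂ) = 1} ∩
        ({K : NonemptyCompacts ℂ | (0 : ℂ) ∈ (K : Set ℂ)} ∩
        {K : NonemptyCompacts ℂ | Far ε (K : Set ℂ)})) := by
      ext K
      constructor
      · rintro ⟨h1, h2, h3⟩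
        exact ⟨h1.convex, h1.perimeter_eq, h2, h3⟩
      · rintro ⟨h1, h2, h3, h4⟩
        exact ⟨⟨K.nonempty, K.isCompact, h1, h2⟩, h3, h4⟩
    rw [h]
    exact isClosed_convex.inter (isClosed_perimeter.inter (isClosed_zero.inter (isClosed_far ε)))
  refine (NonemptyCompacts.isCompact_subsets_of_isCompact
    (isCompact_closedBall (0 : ℂ) 1)).of_isClosed_subset h1 ?_
  rintro K ⟨h1, h2, h3⟩ z hz
  rw [mem_closedBall_zero_iff]
  exact norm_le_one h1 h2 hz

theorem BlockPacks.mono_area {P : Set ℂ} {a b : ℝ} (h : BlockPacks P a) (hab : a ≤ b) :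
    BlockPacks P b := by
  obtain ⟨C, hC⟩ := h
  refine ⟨C, fun ℓ hℓ => ?_⟩
  obtain ⟨M, h1, h2⟩ := hC ℓ hℓ
  exact ⟨M, h1.trans (by gcongr), h2⟩

end Cpt

open Cpt

theorem finite_containers {ε : ℝ} (hε : 0 < ε)
    (hloc : ∀ K : Set ℂ, IsUnitConvexSet K → (∀ c : ℂ, K ≠ closedBall c (1 / (2 * Real.pi))) →
      ∃ r > 0, ∃ a < a0, BlockPacks (cthickening r K) a) :
    ∃ (J : ℕ) (P : Fin J → Set ℂ) (a : ℝ), 0 < a ∧ a < a0 ∧ (∀ j, BlockPacks (P j) a) ∧
      ∀ K : Set ℂ, IsUnitConvexSet K → Far ε K → ∃ (j : Fin J) (v : ℂ),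
        (fun z => z + v) '' K ⊆ P j := by
  classical
  have hch : ∀ K : NonemptyCompacts ℂ, ∃ r > 0, ∃ a < a0, K ∈ S ε →
      BlockPacks (cthickening r (K : Set ℂ)) a := by
    intro K
    by_cases hK : K ∈ S ε
    · obtain ⟨h1, h2, h3⟩ := hK
      have hne : ∀ c : ℂ, (K : Set ℂ) ≠ closedBall c (1 / (2 * Real.pi)) := by
        intro c hc
        have h4 := h3 c
        rw [← hc, hausdorffDist_self_zero] at h4
        linarith
      obtain ⟨r, hr, a, ha, hB⟩ := hloc K h1 hne
      exact ⟨r, hr, a, ha, fun _ => hB⟩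
    · exact ⟨1, one_pos, a0 - 1, by linarith, fun h => absurd h hK⟩
  choose r hr a ha hB using hch
  obtain ⟨t, ht, hcov⟩ := (isCompact_S ε).elim_nhds_subcover (fun K => ball K (r K))
    (fun K _ => ball_mem_nhds K (hr K))
  have hne : (insert (a0 / 2) (t.image a)).Nonempty := Finset.insert_nonempty _ _
  set A := (insert (a0 / 2) (t.image a)).max' hne with hA
  have ha0 := a0_pos
  have hA1 : a0 / 2 ≤ A := Finset.le_max' _ _ (Finset.mem_insert_self _ _)
  have hA2 : ∀ K ∈ t, a K ≤ A := fun K hK =>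
    Finset.le_max' _ _ (Finset.mem_insert_of_mem (Finset.mem_image_of_mem a hK))
  have hA3 : A < a0 := by
    rw [hA, Finset.max'_lt_iff]
    intro y hy
    rw [Finset.mem_insert, Finset.mem_image] at hy
    rcases hy with rfl | ⟨K, _, rfl⟩
    · linarith
    · exact ha K
  let e : Fin t.card ≃ t := t.equivFin.symm
  refine ⟨t.card, fun j => cthickening (r (e j).1) ((e j).1 : Set ℂ), A, by linarith, hA3,
    fun j => ?_, fun K hK hF => ?_⟩
  · exact BlockPacks.mono_area (hB _ (ht _ (e j).2)) (hA2 _ (e j).2)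
  · obtain ⟨z0, hz0⟩ := hK.nonempty
    let v : ℂ := -z0
    have h1 := isUnitConvexSet_translate hK v
    have h2 := far_translate hF v
    let L : NonemptyCompacts ℂ := ⟨⟨(fun z => z + v) '' K, h1.isCompact⟩, h1.nonempty⟩
    have hL : L ∈ S ε := by
      refine ⟨h1, ⟨z0, hz0, ?_⟩, h2⟩
      show z0 + v = 0
      simp [v]
    obtain ⟨M, hM, hLM⟩ := Set.mem_iUnion₂.mp (hcov hL)
    refine ⟨e.symm ⟨M, hM⟩, v, fun z hz => ?_⟩
    show z ∈ cthickening (r (e (e.symm ⟨M, hM⟩)).1) ((e (e.symm ⟨M, hM⟩)).1 : Set ℂ)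
    rw [e.apply_symm_apply]
    have hLM' : hausdorffDist (L : Set ℂ) (M : Set ℂ) < r M := by
      rw [← NonemptyCompacts.dist_eq]
      exact hLM
    obtain ⟨w, hw, hzw⟩ := exists_dist_lt_of_hausdorffDist_lt (show z ∈ (L : Set ℂ) from hz)
      hLM' (hd_ne_top L M)
    exact mem_cthickening_of_dist_le z w _ _ hw hzw.le

end Pool.Agent.Helper89.FF
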