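import Pool.Agent.Helper79.PK.Sep
import Pool.Agent.Helper46.PK.Widths
import Pool.Agent.Helper79.PK.Num

/-!
# Families with members far from the disk: definitions

`X` and `Y` are the coordinates of `Pool.Agent.Helper79.PK` (the orthogonal projections on the
directions of angles `0` and `2 π / 3`).
-/

namespace Pool.Agent.Helper89.FF

open Pool.Agent.Helper16.Disk7 Pool.Agent.Helper79.PK Metric

/-- The set `K` has Hausdorff distance at least `ε` from every closed disk of perimeter `1`. -/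
def Far (ε : ℝ) (K : Set ℂ) : Prop :=
  ∀ c : ℂ, ε ≤ hausdorffDist K (closedBall c (1 / (2 * Real.pi)))

/-- The area (in the coordinates `X`, `Y`) of the cell of the densest lattice packing of disks of
perimeter `1`. -/
noncomputable def a0 : ℝ := (3 / Real.pi) ^ 2 / 12

/-- The rhombus block `0 ≤ X ≤ ℓ`, `0 ≤ Y ≤ ℓ`. -/
def InBlock (ℓ : ℝ) (z : ℂ) : Prop := 0 ≤ X z ∧ X z ≤ ℓ ∧ 0 ≤ Y z ∧ Y z ≤ ℓ

/-- The rhombus block of side `ℓ` has room for `M` congruent copies of `P` with disjoint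
interiors. -/
def Slots (P : Set ℂ) (ℓ : ℝ) (M : ℕ) : Prop :=
  ∃ g : Fin M → ℂ → ℂ, (∀ s, IsRigidMotion (g s)) ∧ (∀ s, ∀ z ∈ g s '' P, InBlock ℓ z) ∧
    ∀ s t, s ≠ t → Disjoint (interior (g s '' P)) (interior (g t '' P))

/-- `P` can be packed with area `a` (in the coordinates `X`, `Y`) per copy. -/
def BlockPacks (P : Set ℂ) (a : ℝ) : Prop :=
  ∃ C : ℝ, ∀ ℓ : ℝ, C ≤ ℓ → ∃ M : ℕ, (ℓ - C) ^ 2 ≤ (M : ℝ) * a ∧ Slots P ℓ M

theorem a0_pos : 0 < a0 := by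
  have := Real.pi_pos
  unfold a0
  positivity

theorem Slots.mono_num {P : Set ℂ} {ℓ : ℝ} {M N : ℕ} (h : Slots P ℓ M) (hN : N ≤ M) :
    Slots P ℓ N := by
  obtain ⟨g, h1, h2, h3⟩ := h
  refine ⟨fun s => g (Fin.castLE hN s), fun s => h1 _, fun s => h2 _, fun s t hst => h3 _ _ ?_⟩
  intro h
  exact hst (Fin.castLE_injective hN h)

theorem Slots.mono_set {P Q : Set ℂ} {ℓ : ℝ} {M : ℕ} (h : Slots P ℓ M) (hQ : Q ⊆ P) :
    Slots Q ℓ M := by
  obtain ⟨g, h1, h2, h3⟩ := h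
  refine ⟨g, h1, fun s z hz => h2 s z (Set.image_mono hQ hz), fun s t hst => ?_⟩
  exact (h3 s t hst).mono (interior_mono (Set.image_mono hQ)) (interior_mono (Set.image_mono hQ))

theorem BlockPacks.mono_set {P Q : Set ℂ} {a : ℝ} (h : BlockPacks P a) (hQ : Q ⊆ P) :
    BlockPacks Q a := by
  obtain ⟨C, hC⟩ := h
  refine ⟨C, fun ℓ hℓ => ?_⟩
  obtain ⟨M, h1, h2⟩ := hC ℓ hℓ
  exact ⟨M, h1, h2.mono_set hQ⟩

theorem isRigidMotion_comp {f g : ℂ → ℂ} (hf : IsRigidMotion f) (hg : IsRigidMotion g) :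
    IsRigidMotion (f ∘ g) := by
  obtain ⟨a, b, ha, h⟩ := hf
  obtain ⟨a', b', ha', h'⟩ := hg
  refine ⟨a * a', a * b' + b, by rw [norm_mul, ha, ha', one_mul], fun z => ?_⟩
  simp only [Function.comp_apply, h, h']
  ring

theorem isRigidMotion_add (v : ℂ) : IsRigidMotion (fun z => z + v) :=
  ⟨1, v, norm_one, fun z => by ring⟩

theorem isRigidMotion_neg (v : ℂ) : IsRigidMotion (fun z => v - z) :=
  ⟨-1, v, by simp, fun z => by ring⟩

/-- Rigid motions are injective and preserve interiors. -/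
theorem isRigidMotion_homeomorph {g : ℂ → ℂ} (hg : IsRigidMotion g) :
    ∃ e : ℂ ≃ₜ ℂ, ∀ z, e z = g z := by
  obtain ⟨a, b, ha, h⟩ := hg
  have ha0 : a ≠ 0 := by
    rintro rfl
    simp at ha
  refine ⟨(Homeomorph.mulLeft₀ a ha0).trans (Homeomorph.addRight b), fun z => ?_⟩
  rw [h]
  rfl

theorem isRigidMotion_inv {g : ℂ → ℂ} (hg : IsRigidMotion g) :
    ∃ g' : ℂ → ℂ, IsRigidMotion g' ∧ (∀ z, g' (g z) = z) ∧ ∀ z, g (g' z) = z := by
  obtain ⟨a, b, ha, h⟩ := hg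
  have ha0 : a ≠ 0 := by
    rintro rfl
    simp at ha
  refine ⟨fun z => a⁻¹ * z + (-(a⁻¹ * b)), ⟨a⁻¹, -(a⁻¹ * b), by rw [norm_inv, ha, inv_one],
    fun z => rfl⟩, fun z => ?_, fun z => ?_⟩
  · simp only [h]
    field_simp
    ring
  · simp only [h]
    field_simp
    ring

end Pool.Agent.Helper89.FF
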