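import Pool.Agent.Helper89.FF.Supp
import Pool.Agent.Helper89.FF.Blocks

/-!
# FF-DBL: a double lattice packing of a body of constant width

`h θ = supportFn K θ`, `h θ + h (θ + π) = W`, `f = h - W / 2`. Put `ψ = t - π / 3`,
`A = π / 3 + δ`, `B = 2 π / 3 + δ`, `φ1 = ψ + A = t + δ`, `φ2 = ψ + B = t + π / 3 + δ`,
`vec ψ x y` = the vector with coordinates `(x, y)` in the frame rotated by `ψ`, so
`pr φ (vec ψ x y) = x cos (φ - ψ) + y sin (φ - ψ)`.

Row vector `r = vec ψ W 0`. Let `c = vec ψ x y` be the solution of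
`pr φ1 c = 2 h φ1`, `pr φ2 (c - r) = 2 h φ2`, that is
`x cos A + y sin A = 2 h φ1`, `x cos B + y sin B = 2 h φ2 + W cos B`, which gives
`(√3 / 2) y = 2 h φ1 cos (π / 3 - δ) + 2 h φ2 cos (π / 3 + δ) + W (3 / 4 - cos ^ 2 δ)`
(`cos B = - cos (π / 3 - δ)`, `sin (B - A) = √3 / 2`). Let `d = vec ψ x' y'`, `y' < 0`, be the
solution of `pr (t + π) d = 2 h (t + π)`, `pr (t + π / 3 + π) (d + r) = 2 h (t + π / 3 + π)`; here
`(√3 / 2) (- y') = h (t + π) + h (t + 4 π / 3) - W / 4`. Lattice: generated by `r` and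
`b = c - d`. The packing: the copies `K + m r + n b` and `- K + c + m r + n b`.

Determinant in the coordinates `X`, `Y`: `X r * Y b - X b * Y r = (√3 / 2) W (y - y')`, and
`(√3 / 2) (y - y') = 3 W / 2 + (2 f φ2 cos (π / 3 + δ) + 2 f φ1 cos (π / 3 - δ)
  + W cos δ (1 - cos δ) - f (t + π / 3) - f t)`.

Separation. For `z ∈ K + u` : `pr φ z ≤ pr φ u + h φ`; for `z ∈ - K + v`:
`pr φ z ≥ pr φ v - h φ`. So (`disjoint_interior_of_sep` with `f = pr φ`)
* `K + u`, `K + v` (and `- K + u`, `- K + v`) have disjoint interiors if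
  `pr φ (v - u) ≥ h φ + h (φ + π) = W` for some `φ`;
* `K + u` and `- K + v` have disjoint interiors if `pr φ (v - u) ≥ 2 h φ` for some `φ`.

By the support function inequality
`h φ1 cos (π / 3 - δ) + h φ2 cos (π / 3 + δ) ≥ (√3 / 2) h (ψ + π / 2)` (the vector
`cos (π / 3 - δ) u(φ1) + cos (π / 3 + δ) u(φ2)` is `(√3 / 2) u(ψ + π / 2)`, and the coefficients
are `≥ 0` for `|δ| ≤ π / 6`; take a point of `K` where `pr (ψ + π / 2)` is largest) one gets
`y ≥ 2 h (ψ + π / 2) - W / (2 √3)`, and similarly `- y' ≥ 2 h (ψ + 3 π / 2) - W / (2 √3)`; so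
`y - y' ≥ 2 W - W / √3 ≥ 1.42 W`.
* Same orientation, `v - u = m r + n b`: if `n ≥ 1` use `φ = ψ + π / 2` (and symmetrically for
  `n ≤ -1`): `n (y - y') ≥ W`; if `n = 0` use `φ = ψ` (or `ψ + π`): `|m| W ≥ W`.
* `K + u`, `- K + v`, `v - u = c + M r + N b`. `N = 0`: for `M ≥ 0` use `φ1`
  (`pr φ1 r = W cos A ≥ 0`), for `M ≤ -1` use `φ2` (`pr φ2 r = W cos B ≤ 0`). `N = -1`:
  `v - u = d + M r`: for `M ≤ 0` use `t + π`, for `M ≥ 1` use `t + π / 3 + π`. `N ≥ 1`:
  `φ = ψ + π / 2`: `y + N (y - y') ≥ 2 h (ψ + π / 2) - 0.29 W + 1.42 W`. `N ≤ -2`: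
  `φ = ψ + 3 π / 2`: `- (y + N (y - y')) ≥ (y - y') + (- y') ≥ 2 h (ψ + 3 π / 2)`.
-/

namespace Pool.Agent.Helper89.FF

open Pool.Agent.Helper16.Disk7 Pool.Agent.Helper79.PK Metric Widths

/-- the vector with coordinates `(x, y)` in the frame rotated by `ψ` -/
private noncomputable def ffdVec (ψ x y : ℝ) : ℂ :=
  ⟨x * Real.cos ψ - y * Real.sin ψ, x * Real.sin ψ + y * Real.cos ψ⟩

private theorem ffd_pr_vec (ψ φ x y : ℝ) :
    pr φ (ffdVec ψ x y) = x * Real.cos (φ - ψ) + y * Real.sin (φ - ψ) := by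
  simp only [pr, ffdVec]
  rw [Real.cos_sub, Real.sin_sub]
  ring

private theorem ffd_pr_comb (φ : ℝ) (m n : ℤ) (v w : ℂ) :
    pr φ ((m : ℂ) * v + (n : ℂ) * w) = m * pr φ v + n * pr φ w := by
  simp only [pr, Complex.add_re, Complex.add_im, Complex.mul_re, Complex.mul_im,
    Complex.intCast_re, Complex.intCast_im, zero_mul, sub_zero, add_zero]
  ring

private theorem ffd_pr_sub (φ : ℝ) (v w : ℂ) : pr φ (v - w) = pr φ v - pr φ w := by
  simp only [pr, Complex.sub_re, Complex.sub_im]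
  ring

private theorem ffd_sep (φ : ℝ) {A B : Set ℂ} {c : ℝ} (hA : ∀ z ∈ A, pr φ z ≤ c)
    (hB : ∀ z ∈ B, c ≤ pr φ z) : Disjoint (interior A) (interior B) := by
  refine disjoint_interior_of_sep (f := pr φ) (v := (⟨Real.cos φ, Real.sin φ⟩ : ℂ)) (d := 1) one_pos ?_
    hA hB
  intro z s
  simp only [pr, Complex.add_re, Complex.add_im, Complex.real_smul, Complex.mul_re, Complex.mul_im,
    Complex.ofReal_re, Complex.ofReal_im, zero_mul, sub_zero, add_zero]
  linear_combination s * Real.sin_sq_add_cos_sq φ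

private theorem ffd_mul {W N u : ℝ} (hW : 0 < W) (hN : 1 ≤ N) (hu : W ≤ u) : W ≤ N * u := by
  nlinarith

/-- the copies -/
private noncomputable def ffdMap (c : ℂ) (j : Fin 2) (z : ℂ) : ℂ := if j = 0 then z else c - z

private theorem ffd_map_rigid (c : ℂ) (j : Fin 2) : IsRigidMotion (ffdMap c j) := by
  by_cases hj : j = 0
  · refine ⟨1, 0, norm_one, fun z => ?_⟩
    rw [ffdMap, if_pos hj]
    ring
  · refine ⟨-1, c, by simp, fun z => ?_⟩
    rw [ffdMap, if_neg hj]
    ring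

/-- general double lattice packing lemma -/
private theorem ffd_pack {K : Set ℂ} (hK : IsCompact K) {W : ℝ}
    (hsum : ∀ θ, supportFn K θ + supportFn K (θ + Real.pi) = W) {r b c : ℂ} {D : ℝ}
    (hD : D = X r * Y b - X b * Y r) (hD0 : 0 < D)
    (same : ∀ M N : ℤ, ¬ (M = 0 ∧ N = 0) → ∃ φ, W ≤ M * pr φ r + N * pr φ b)
    (opp : ∀ M N : ℤ, ∃ φ, 2 * supportFn K φ ≤ pr φ c + (M * pr φ r + N * pr φ b)) :
    BlockPacks K (D / (2 : ℕ)) := by
  have hle : ∀ φ, ∀ z ∈ K, pr φ z ≤ supportFn K φ := fun φ z hz => pr_le hK hz φ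
  have hge : ∀ φ, ∀ z ∈ K, supportFn K φ - W ≤ pr φ z := by
    intro φ z hz
    have h1 := hle (φ + Real.pi) z hz
    rw [pr_add_pi] at h1
    have h2 := hsum φ
    linarith
  have key : ∀ p p' : ℤ × ℤ, Disjoint
      (interior ((fun z => ffdMap c 0 z + ((p.1 : ℂ) * r + (p.2 : ℂ) * b)) '' K))
      (interior ((fun z => ffdMap c 1 z + ((p'.1 : ℂ) * r + (p'.2 : ℂ) * b)) '' K)) := by
    intro p p'
    obtain ⟨φ, hφ⟩ := opp (p'.1 - p.1) (p'.2 - p.2)
    push_cast at hφ
    refine ffd_sep φ (c := supportFn K φ + (p.1 * pr φ r + p.2 * pr φ b)) ?_ ?_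
    · rintro _ ⟨z, hz, rfl⟩
      have h1 := hle φ z hz
      simp only [ffdMap, if_pos]
      rw [pr_add, ffd_pr_comb]
      linarith
    · rintro _ ⟨z, hz, rfl⟩
      have h1 := hle φ z hz
      have h01 : (1 : Fin 2) ≠ 0 := by decide
      simp only [ffdMap, if_neg h01]
      rw [pr_add, ffd_pr_comb, ffd_pr_sub]
      linarith
  refine block_of_periodic hK.isBounded (n := 2) (by norm_num) (ffdMap c) (ffd_map_rigid c) hD hD0 ?_
  intro j j' p p' hne
  have hj2 : ∀ j : Fin 2, j = 0 ∨ j = 1 := by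
    intro j
    fin_cases j
    · exact Or.inl rfl
    · exact Or.inr rfl
  by_cases hjj : j = j'
  · subst hjj
    have hp : ¬ (p'.1 - p.1 = 0 ∧ p'.2 - p.2 = 0) := by
      rintro ⟨h1, h2⟩
      apply hne
      rw [Prod.mk.injEq]
      refine ⟨rfl, Prod.ext ?_ ?_⟩
      · omega
      · omega
    obtain ⟨φ, hφ⟩ := same _ _ hp
    push_cast at hφ
    rcases hj2 j with rfl | rfl
    · refine ffd_sep φ (c := supportFn K φ + (p.1 * pr φ r + p.2 * pr φ b)) ?_ ?_
      · rintro _ ⟨z, hz, rfl⟩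
        have h1 := hle φ z hz
        simp only [ffdMap, if_pos]
        rw [pr_add, ffd_pr_comb]
        linarith
      · rintro _ ⟨z, hz, rfl⟩
        have h1 := hge φ z hz
        simp only [ffdMap, if_pos]
        rw [pr_add, ffd_pr_comb]
        linarith
    · have h01 : (1 : Fin 2) ≠ 0 := by decide
      refine ffd_sep φ (c := pr φ c - supportFn K φ + W + (p.1 * pr φ r + p.2 * pr φ b)) ?_ ?_
      · rintro _ ⟨z, hz, rfl⟩
        have h1 := hge φ z hz
        simp only [ffdMap, if_neg h01]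
        rw [pr_add, ffd_pr_comb, ffd_pr_sub]
        linarith
      · rintro _ ⟨z, hz, rfl⟩
        have h1 := hle φ z hz
        simp only [ffdMap, if_neg h01]
        rw [pr_add, ffd_pr_comb, ffd_pr_sub]
        linarith
  · rcases hj2 j with rfl | rfl
    · rcases hj2 j' with rfl | rfl
      · exact absurd rfl hjj
      · exact key p p'
    · rcases hj2 j' with rfl | rfl
      · exact (key p' p).symm
      · exact absurd rfl hjj

theorem double {K : Set ℂ} (hK : IsCompact K) (hne : K.Nonempty) {W : ℝ} (hW : 0 < W)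
    {f : ℝ → ℝ} (hf : ∀ θ, supportFn K θ = W / 2 + f θ) (hanti : ∀ θ, f (θ + Real.pi) = - f θ)
    {t δ : ℝ} (hδ : |δ| ≤ Real.pi / 6) :
    BlockPacks K (W / 2 * (3 * W / 2 + (2 * f (t + Real.pi / 3 + δ) * Real.cos (Real.pi / 3 + δ) +
      2 * f (t + δ) * Real.cos (Real.pi / 3 - δ) + W * Real.cos δ * (1 - Real.cos δ) -
      f (t + Real.pi / 3) - f t))) := by
  have hpi := Real.pi_pos
  obtain ⟨hδ1, hδ2⟩ := abs_le.1 hδ
  have hsum : ∀ θ, supportFn K θ + supportFn K (θ + Real.pi) = W := by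
    intro θ
    rw [hf, hf, hanti]
    ring
  set h := supportFn K with hh
  have hq0 : (0 : ℝ) < √3 := by positivity
  have hq : √3 * √3 = 3 := Real.mul_self_sqrt (by norm_num)
  have hq1 : 1.7 < √3 := by
    rw [Real.lt_sqrt (by norm_num)]
    norm_num
  set q' : ℝ := 2 / √3 with hq'
  have hqq : q' * (√3 / 2) = 1 := by
    rw [hq']
    field_simp
  set ψ : ℝ := t - Real.pi / 3 with hψ
  set cA : ℝ := Real.cos (Real.pi / 3 + δ) with hcA
  set sA : ℝ := Real.sin (Real.pi / 3 + δ) with hsA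
  set cB : ℝ := Real.cos (Real.pi / 3 - δ) with hcB
  set sB : ℝ := Real.sin (Real.pi / 3 - δ) with hsB
  have hcA0 : 0 ≤ cA := Real.cos_nonneg_of_neg_pi_div_two_le_of_le (by linarith) (by linarith)
  have hcB0 : 0 ≤ cB := Real.cos_nonneg_of_neg_pi_div_two_le_of_le (by linarith) (by linarith)
  have hs : sB * cA + cB * sA = √3 / 2 := by
    rw [hsB, hcA, hcB, hsA, ← Real.sin_add]
    rw [show Real.pi / 3 - δ + (Real.pi / 3 + δ) = Real.pi - Real.pi / 3 by ring, Real.sin_pi_sub,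
      Real.sin_pi_div_three]
  have hprod : cA * cB = Real.cos δ ^ 2 - 3 / 4 := by
    rw [hcA, hcB, Real.cos_add, Real.cos_sub, Real.cos_pi_div_three, Real.sin_pi_div_three]
    have h2 := Real.sin_sq_add_cos_sq δ
    linear_combination (- (1 / 4) * Real.sin δ ^ 2) * hq - (3 / 4) * h2
  have hadd : cA + cB = Real.cos δ := by
    rw [hcA, hcB, Real.cos_add, Real.cos_sub, Real.cos_pi_div_three]
    ring
  -- the vectors
  set h1 : ℝ := h (t + δ) with hh1
  set h2 : ℝ := h (t + Real.pi / 3 + δ) with hh2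
  set h3 : ℝ := h (t + Real.pi) with hh3
  set h4 : ℝ := h (t + Real.pi / 3 + Real.pi) with hh4
  set y : ℝ := q' * (cA * (2 * h2 - W * cB) + cB * (2 * h1)) with hy
  set x : ℝ := q' * (2 * h1 * sB - (2 * h2 - W * cB) * sA) with hx
  set y' : ℝ := - (q' * (h3 + h4 - W / 4)) with hy'
  set x' : ℝ := 2 * h4 - 2 * h3 - W / 2 with hx'
  set r : ℂ := ffdVec ψ W 0 with hr
  set c : ℂ := ffdVec ψ x y with hc
  set d : ℂ := ffdVec ψ x' y' with hd
  set b : ℂ := c - d with hb
  -- projections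
  have e1 : ∀ φ, pr φ r = W * Real.cos (φ - ψ) := by
    intro φ
    rw [hr, ffd_pr_vec]
    ring
  have hcosB : Real.cos (t + Real.pi / 3 + δ - ψ) = - cB := by
    rw [hcB, hψ, ← Real.cos_pi_sub]
    congr 1
    ring
  have hsinB : Real.sin (t + Real.pi / 3 + δ - ψ) = sB := by
    rw [hsB, hψ, ← Real.sin_pi_sub]
    congr 1
    ring
  have hcosA : Real.cos (t + δ - ψ) = cA := by
    rw [hcA, hψ]
    congr 1
    ring
  have hsinA : Real.sin (t + δ - ψ) = sA := by
    rw [hsA, hψ]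
    congr 1
    ring
  have hc3 : Real.cos (t + Real.pi - ψ) = - (1 / 2) := by
    rw [hψ, show t + Real.pi - (t - Real.pi / 3) = Real.pi / 3 + Real.pi by ring, Real.cos_add_pi,
      Real.cos_pi_div_three]
  have hs3 : Real.sin (t + Real.pi - ψ) = - (√3 / 2) := by
    rw [hψ, show t + Real.pi - (t - Real.pi / 3) = Real.pi / 3 + Real.pi by ring, Real.sin_add_pi,
      Real.sin_pi_div_three]
  have hc4 : Real.cos (t + Real.pi / 3 + Real.pi - ψ) = 1 / 2 := by
    rw [hψ, show t + Real.pi / 3 + Real.pi - (t - Real.pi / 3)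
      = (Real.pi - Real.pi / 3) + Real.pi by ring, Real.cos_add_pi, Real.cos_pi_sub,
      Real.cos_pi_div_three, neg_neg]
  have hs4 : Real.sin (t + Real.pi / 3 + Real.pi - ψ) = - (√3 / 2) := by
    rw [hψ, show t + Real.pi / 3 + Real.pi - (t - Real.pi / 3)
      = (Real.pi - Real.pi / 3) + Real.pi by ring, Real.sin_add_pi, Real.sin_pi_sub,
      Real.sin_pi_div_three]
  have hc5 : Real.cos (ψ + Real.pi / 2 - ψ) = 0 := by
    rw [add_sub_cancel_left, Real.cos_pi_div_two]
  have hs5 : Real.sin (ψ + Real.pi / 2 - ψ) = 1 := by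
    rw [add_sub_cancel_left, Real.sin_pi_div_two]
  have hc6 : Real.cos (ψ + Real.pi / 2 + Real.pi - ψ) = 0 := by
    rw [show ψ + Real.pi / 2 + Real.pi - ψ = Real.pi / 2 + Real.pi by ring, Real.cos_add_pi,
      Real.cos_pi_div_two, neg_zero]
  have hs6 : Real.sin (ψ + Real.pi / 2 + Real.pi - ψ) = -1 := by
    rw [show ψ + Real.pi / 2 + Real.pi - ψ = Real.pi / 2 + Real.pi by ring, Real.sin_add_pi,
      Real.sin_pi_div_two]
  have pc1 : pr (t + δ) c = 2 * h1 := by
    rw [hc, ffd_pr_vec, hcosA, hsinA, hx, hy]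
    linear_combination (q' * 2 * h1) * hs + (2 * h1) * hqq
  have pc2 : pr (t + Real.pi / 3 + δ) c = 2 * h2 - W * cB := by
    rw [hc, ffd_pr_vec, hcosB, hsinB, hx, hy]
    linear_combination (q' * (2 * h2 - W * cB)) * hs + (2 * h2 - W * cB) * hqq
  have pd3 : pr (t + Real.pi) d = 2 * h3 := by
    rw [hd, ffd_pr_vec, hc3, hs3, hx', hy']
    linear_combination (h3 + h4 - W / 4) * hqq
  have pd4 : pr (t + Real.pi / 3 + Real.pi) d = 2 * h4 - W / 2 := by
    rw [hd, ffd_pr_vec, hc4, hs4, hx', hy']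
    linear_combination (h3 + h4 - W / 4) * hqq
  have pc5 : pr (ψ + Real.pi / 2) c = y := by
    rw [hc, ffd_pr_vec, hc5, hs5]
    ring
  have pd5 : pr (ψ + Real.pi / 2) d = y' := by
    rw [hd, ffd_pr_vec, hc5, hs5]
    ring
  have pc6 : pr (ψ + Real.pi / 2 + Real.pi) c = - y := by
    rw [hc, ffd_pr_vec, hc6, hs6]
    ring
  have pd6 : pr (ψ + Real.pi / 2 + Real.pi) d = - y' := by
    rw [hd, ffd_pr_vec, hc6, hs6]
    ring
  -- the support function inequalities
  have hin1 : √3 / 2 * h (ψ + Real.pi / 2) ≤ cA * h2 + cB * h1 := by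
    obtain ⟨z, hz, hz2⟩ := exists_pr hK hne (ψ + Real.pi / 2)
    rw [← hh] at hz2
    have g1 := pr_le hK hz (t + δ)
    have g2 := pr_le hK hz (t + Real.pi / 3 + δ)
    have g3 : √3 / 2 * pr (ψ + Real.pi / 2) z
        = cA * pr (t + Real.pi / 3 + δ) z + cB * pr (t + δ) z := by
      have a1 : t + δ = ψ + (Real.pi / 3 + δ) := by rw [hψ]; ring
      have a2 : t + Real.pi / 3 + δ = ψ + (Real.pi - (Real.pi / 3 - δ)) := by rw [hψ]; ring
      rw [a1, a2]
      simp only [pr]
      rw [Real.cos_add ψ, Real.sin_add ψ, Real.cos_add ψ, Real.sin_add ψ, Real.cos_add ψ, Real.sin_add ψ,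
        Real.cos_pi_sub, Real.sin_pi_sub, Real.cos_pi_div_two, Real.sin_pi_div_two,
        ← hcA, ← hsA, ← hcB, ← hsB]
      linear_combination (z.re * Real.sin ψ - z.im * Real.cos ψ) * hs
    rw [← hz2, g3]
    exact add_le_add (mul_le_mul_of_nonneg_left g2 hcA0) (mul_le_mul_of_nonneg_left g1 hcB0)
  have hin2 : √3 * h (ψ + Real.pi / 2 + Real.pi) ≤ h3 + h4 := by
    obtain ⟨z, hz, hz2⟩ := exists_pr hK hne (ψ + Real.pi / 2 + Real.pi)
    rw [← hh] at hz2
    have g1 := pr_le hK hz (t + Real.pi)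
    have g2 := pr_le hK hz (t + Real.pi / 3 + Real.pi)
    have g3 : √3 * pr (ψ + Real.pi / 2 + Real.pi) z
        = pr (t + Real.pi) z + pr (t + Real.pi / 3 + Real.pi) z := by
      have a1 : t + Real.pi = ψ + (Real.pi / 3 + Real.pi) := by rw [hψ]; ring
      have a2 : t + Real.pi / 3 + Real.pi = ψ + ((Real.pi - Real.pi / 3) + Real.pi) := by
        rw [hψ]; ring
      have a3 : ψ + Real.pi / 2 + Real.pi = ψ + (Real.pi / 2 + Real.pi) := by ring
      rw [a1, a2, a3]
      simp only [pr]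
      rw [Real.cos_add ψ, Real.sin_add ψ, Real.cos_add ψ, Real.sin_add ψ, Real.cos_add ψ, Real.sin_add ψ,
        Real.cos_add_pi, Real.sin_add_pi, Real.cos_add_pi, Real.sin_add_pi, Real.cos_add_pi,
        Real.sin_add_pi, Real.cos_pi_sub, Real.sin_pi_sub, Real.cos_pi_div_two, Real.sin_pi_div_two,
        Real.cos_pi_div_three, Real.sin_pi_div_three]
      ring
    rw [← hz2, g3]
    exact add_le_add g1 g2
  have hcd : Real.cos δ ^ 2 ≤ 1 := Real.cos_sq_le_one δ
  have hylow : 2 * h (ψ + Real.pi / 2) - q' * (W / 4) ≤ y := by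
    have hq'0 : 0 < q' := by positivity
    have k1 : y = q' * (2 * (cA * h2 + cB * h1)) - q' * W * (cA * cB) := by
      rw [hy]; ring
    have k2 : q' * (2 * (√3 / 2 * h (ψ + Real.pi / 2))) ≤ q' * (2 * (cA * h2 + cB * h1)) :=
      mul_le_mul_of_nonneg_left (by linarith) hq'0.le
    have k3 : q' * (2 * (√3 / 2 * h (ψ + Real.pi / 2))) = 2 * h (ψ + Real.pi / 2) := by
      linear_combination (2 * h (ψ + Real.pi / 2)) * hqq
    have k4 : q' * W * (cA * cB) ≤ q' * W * (1 / 4) := by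
      rw [hprod]
      exact mul_le_mul_of_nonneg_left (by linarith) (by positivity)
    linarith
  have hy'low : 2 * h (ψ + Real.pi / 2 + Real.pi) - q' * (W / 4) ≤ - y' := by
    have hq'0 : 0 < q' := by positivity
    have k1 : - y' = q' * (h3 + h4) - q' * (W / 4) := by
      rw [hy']; ring
    have k2 : q' * (√3 * h (ψ + Real.pi / 2 + Real.pi)) ≤ q' * (h3 + h4) :=
      mul_le_mul_of_nonneg_left hin2 hq'0.le
    have k3 : q' * (√3 * h (ψ + Real.pi / 2 + Real.pi)) = 2 * h (ψ + Real.pi / 2 + Real.pi) := by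
      linear_combination (2 * h (ψ + Real.pi / 2 + Real.pi)) * hqq
    linarith
  have hq'1 : q' ≤ 1.18 := by
    rw [hq', div_le_iff₀ hq0]
    linarith
  have hWq : q' * (W / 4) ≤ 0.3 * W := by
    have := mul_le_mul_of_nonneg_right hq'1 (show (0 : ℝ) ≤ W / 4 by positivity)
    linarith
  have hyy : 1.4 * W ≤ y - y' := by
    have k := hsum (ψ + Real.pi / 2)
    linarith
  have hbp : ∀ φ, pr φ b = pr φ c - pr φ d := fun φ => ffd_pr_sub φ c d
  have r5 : pr (ψ + Real.pi / 2) r = 0 := by rw [e1, hc5, mul_zero]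
  have r6 : pr (ψ + Real.pi / 2 + Real.pi) r = 0 := by rw [e1, hc6, mul_zero]
  have b5 : pr (ψ + Real.pi / 2) b = y - y' := by rw [hbp, pc5, pd5]
  have b6 : pr (ψ + Real.pi / 2 + Real.pi) b = - (y - y') := by rw [hbp, pc6, pd6]; ring
  have r7 : pr ψ r = W := by rw [e1, sub_self, Real.cos_zero, mul_one]
  have r8 : pr (ψ + Real.pi) r = - W := by rw [pr_add_pi, r7]
  have hcross : X r * Y b - X b * Y r = √3 / 2 * W * (y - y') := by
    have k : ∀ u v : ℂ, X u * Y v - X v * Y u = √3 / 2 * (u.re * v.im - v.re * u.im) := by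
      intro u v
      simp only [X, Y]
      ring
    rw [k, hb, hr, hc, hd]
    simp only [ffdVec, Complex.sub_re, Complex.sub_im]
    linear_combination (√3 / 2 * W * (y - y')) * Real.sin_sq_add_cos_sq ψ
  have hfin := ffd_pack hK (W := W) hsum (r := r) (b := b) (c := c) hcross.symm
    (by
      have : 0 < y - y' := by linarith
      positivity) ?_ ?_
  · have hval : √3 / 2 * W * (y - y') / (2 : ℕ) = W / 2 * (3 * W / 2 +
        (2 * f (t + Real.pi / 3 + δ) * cA + 2 * f (t + δ) * cB + W * Real.cos δ * (1 - Real.cos δ) -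
          f (t + Real.pi / 3) - f t)) := by
      have k1 : √3 / 2 * (y - y') = cA * (2 * h2 - W * cB) + cB * (2 * h1) + (h3 + h4 - W / 4) := by
        rw [hy, hy']
        linear_combination (cA * (2 * h2 - W * cB) + cB * (2 * h1) + (h3 + h4 - W / 4)) * hqq
      have k2 : h1 = W / 2 + f (t + δ) := hf _
      have k3 : h2 = W / 2 + f (t + Real.pi / 3 + δ) := hf _
      have k4 : h3 = W / 2 - f t := by rw [hh3, hf, hanti]; ring
      have k5 : h4 = W / 2 - f (t + Real.pi / 3) := by rw [hh4, hf, hanti]; ring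
      have k6 : √3 / 2 * W * (y - y') / (2 : ℕ) = W / 2 * (√3 / 2 * (y - y')) := by
        push_cast
        ring
      rw [k6, k1, k2, k3, k4, k5]
      linear_combination (-(W ^ 2 / 2)) * hprod + (W ^ 2 / 2) * hadd
    rw [hval] at hfin
    exact hfin
  · intro M N hMN
    have hy1 : W ≤ y - y' := by linarith only [hyy, hW]
    rcases lt_trichotomy N 0 with hN | hN | hN
    · have hN' : (N : ℝ) ≤ -1 := by exact_mod_cast Int.le_sub_one_of_lt (by omega : N < 0)
      refine ⟨ψ + Real.pi / 2 + Real.pi, ?_⟩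
      rw [r6, b6]
      have := ffd_mul hW (show (1 : ℝ) ≤ - N by linarith only [hN']) hy1
      linarith only [this]
    · have hM0 : M ≠ 0 := fun h => hMN ⟨h, hN⟩
      rcases lt_or_gt_of_ne hM0 with hM | hM
      · have hM' : (M : ℝ) ≤ -1 := by exact_mod_cast Int.le_sub_one_of_lt (by omega : M < 0)
        refine ⟨ψ + Real.pi, ?_⟩
        rw [r8, hN, Int.cast_zero, zero_mul, add_zero]
        have := ffd_mul hW (show (1 : ℝ) ≤ - M by linarith only [hM']) le_rfl
        linarith only [this]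
      · have hM' : (1 : ℝ) ≤ M := by exact_mod_cast (by omega : 1 ≤ M)
        refine ⟨ψ, ?_⟩
        rw [r7, hN, Int.cast_zero, zero_mul, add_zero]
        exact ffd_mul hW hM' le_rfl
    · have hN' : (1 : ℝ) ≤ N := by exact_mod_cast (by omega : 1 ≤ N)
      refine ⟨ψ + Real.pi / 2, ?_⟩
      rw [r5, b5]
      have := ffd_mul hW hN' hy1
      linarith only [this]
  · intro M N
    rcases lt_trichotomy N 0 with hN | hN | hN
    · by_cases hN1 : N = -1
      · rcases le_or_gt M 0 with hM | hM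
        · have hM' : (M : ℝ) ≤ 0 := by exact_mod_cast hM
          refine ⟨t + Real.pi, ?_⟩
          change 2 * h3 ≤ _
          rw [hbp, e1, hc3, hN1, pd3]
          push_cast
          have := mul_nonneg (show (0 : ℝ) ≤ - M by linarith only [hM']) hW.le
          linarith only [this]
        · have hM' : (1 : ℝ) ≤ M := by exact_mod_cast (by omega : 1 ≤ M)
          refine ⟨t + Real.pi / 3 + Real.pi, ?_⟩
          change 2 * h4 ≤ _
          rw [hbp, e1, hc4, hN1, pd4]
          push_cast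
          have := mul_nonneg (show (0 : ℝ) ≤ M - 1 by linarith only [hM']) hW.le
          linarith only [this]
      · have hN' : (N : ℝ) ≤ -2 := by exact_mod_cast (by omega : N ≤ -2)
        refine ⟨ψ + Real.pi / 2 + Real.pi, ?_⟩
        change 2 * h (ψ + Real.pi / 2 + Real.pi) ≤ _
        rw [r6, b6, pc6]
        have h5 : 0 ≤ y - y' := by linarith only [hyy, hW]
        have := mul_nonneg (show (0 : ℝ) ≤ - N - 2 by linarith only [hN']) h5
        linarith only [this, hy'low, hWq, hyy, hW]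
    · rcases le_or_gt 0 M with hM | hM
      · have hM' : (0 : ℝ) ≤ M := by exact_mod_cast hM
        refine ⟨t + δ, ?_⟩
        change 2 * h1 ≤ _
        rw [pc1, e1, hcosA, hN, Int.cast_zero, zero_mul, add_zero]
        have := mul_nonneg hM' (mul_nonneg hW.le hcA0)
        linarith only [this]
      · have hM' : (M : ℝ) ≤ -1 := by exact_mod_cast Int.le_sub_one_of_lt (by omega : M < 0)
        refine ⟨t + Real.pi / 3 + δ, ?_⟩
        change 2 * h2 ≤ _
        rw [pc2, e1, hcosB, hN, Int.cast_zero, zero_mul, add_zero]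
        have := mul_nonneg (show (0 : ℝ) ≤ - M - 1 by linarith only [hM']) (mul_nonneg hW.le hcB0)
        linarith only [this]
    · have hN' : (1 : ℝ) ≤ N := by exact_mod_cast (by omega : 1 ≤ N)
      refine ⟨ψ + Real.pi / 2, ?_⟩
      change 2 * h (ψ + Real.pi / 2) ≤ _
      rw [r5, b5, pc5]
      have h5 : 0 ≤ y - y' := by linarith only [hyy, hW]
      have := mul_nonneg (show (0 : ℝ) ≤ N - 1 by linarith only [hN']) h5
      linarith only [this, hylow, hWq, hyy, hW]

end Pool.Agent.Helper89.FF
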