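import Pool.Agent.Helper89.FF.Defs
import Pool.Agent.Helper79.PK.Place

/-!
# FF-NEAR: containers for arbitrary members

This is the first half of the proof of `Pool.Agent.Helper79.PK.place`
(`Pool/Agent/Helper79/PK/Place.lean`): for a type `τ = (a, b, c)` with
`W0 = (a + 1) / m`, `W2 = (b + 1) / m`, `ζ = c / m`, `W1 = S0 - W0 - W2`, `S0 = 3 / π + 3 / m`, the
container is `P τ = {z | InCell W0 W1 W2 ζ 0 0 z}` if `|W0 - W2| ≤ W1` and `0 < W1`, and `∅`
otherwise (`Slots ∅ ℓ M` holds for every `M`). For the good types `lattice_count` and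
`lattice_sep` give the slots (translations by `pt (e.1 W0 - e.2 t) (- e.1 t + e.2 W2)`), as in
`place`. Every unit convex set is moved by a rigid motion into one of the containers by `widths`
and `rounding`.
-/

namespace Pool.Agent.Helper89.FF

open Pool.Agent.Helper16.Disk7 Pool.Agent.Helper79.PK Metric

theorem near_slots {m : ℕ} (hm : 1 ≤ m) {ℓ : ℝ} (hℓ : 6 < ℓ) :
    ∃ P : Fin m × Fin m × Fin (m + 1) → Set ℂ,
      (∀ τ, ∃ M : ℕ, 12 * (ℓ - 6) ^ 2 / (3 / Real.pi + 3 / m) ^ 2 ≤ (M : ℝ) ∧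
        Slots (P τ) ℓ M) ∧
      ∀ K : Set ℂ, IsUnitConvexSet K → ∃ τ, ∃ g : ℂ → ℂ, IsRigidMotion g ∧ g '' K ⊆ P τ := by
  classical
  have hm0 : (0 : ℝ) < m := by exact_mod_cast hm
  have hpi := Real.pi_pos
  set S0 : ℝ := 3 / Real.pi + 3 / m with hS0
  have hS0pos : 0 < S0 := by positivity
  have hℓ6 : 0 < ℓ - 6 := by linarith
  set μ : ℝ := 12 * (ℓ - 6) ^ 2 / S0 ^ 2 with hμ
  set M : ℕ := ⌈μ⌉₊ with hM
  have hMμ : μ ≤ M := Nat.le_ceil μ
  let T := Fin m × Fin m × Fin (m + 1)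
  let W0 : T → ℝ := fun τ => (((τ.1 : Fin m) : ℕ) + 1 : ℝ) / m
  let W2 : T → ℝ := fun τ => (((τ.2.1 : Fin m) : ℕ) + 1 : ℝ) / m
  let Z : T → ℝ := fun τ => (((τ.2.2 : Fin (m + 1)) : ℕ) : ℝ) / m
  let W1 : T → ℝ := fun τ => S0 - W0 τ - W2 τ
  let tt : T → ℝ := fun τ => max 0 ((W0 τ + W2 τ - W1 τ) / 2)
  have hW0 : ∀ τ, 0 < W0 τ := fun τ => by positivity
  have hW2 : ∀ τ, 0 < W2 τ := fun τ => by positivity
  have hW0' : ∀ τ, W0 τ ≤ 1 := fun τ => by
    simp only [W0]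
    rw [div_le_one hm0]
    exact_mod_cast τ.1.2
  have hW2' : ∀ τ, W2 τ ≤ 1 := fun τ => by
    simp only [W2]
    rw [div_le_one hm0]
    exact_mod_cast τ.2.1.2
  refine ⟨fun τ => {z | (|W0 τ - W2 τ| ≤ W1 τ ∧ 0 < W1 τ) ∧
    InCell (W0 τ) (W1 τ) (W2 τ) (Z τ) 0 0 z}, ?_, ?_⟩
  · intro τ
    refine ⟨M, hMμ, ?_⟩
    by_cases hgood : |W0 τ - W2 τ| ≤ W1 τ ∧ 0 < W1 τ
    · obtain ⟨c1, c2, c3, c4, c5⟩ := cell_area (hW0 τ) (hW2 τ) hgood.1 hgood.2 (t := tt τ) rfl
      obtain ⟨Q, hQ, hQin⟩ := lattice_count (hW0 τ) (hW2 τ) c3 c4 c5 c1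
        (by linarith [hW0' τ]) (by linarith [hW2' τ]) hℓ.le
      have hcard : M ≤ Q.card := by
        rw [hM, Nat.ceil_le, hμ, div_le_iff₀ (by positivity)]
        have e : W0 τ + W1 τ + W2 τ = S0 := by simp only [W1]; ring
        rw [e] at c2
        have : (Q.card : ℝ) * (W0 τ * W2 τ - tt τ ^ 2) ≤ Q.card * (S0 ^ 2 / 12) :=
          mul_le_mul_of_nonneg_left c2 (Nat.cast_nonneg _)
        linarith
      obtain ⟨Q', hQ', hQc⟩ := Finset.exists_subset_card_eq hcard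
      let e : Fin M → ℤ × ℤ := fun s => ((Q'.equivFinOfCardEq hQc).symm s : ℤ × ℤ)
      have einj : Function.Injective e := by
        intro s s' hss
        exact (Q'.equivFinOfCardEq hQc).symm.injective (Subtype.ext hss)
      have he : ∀ s, 0 ≤ ((e s).1 : ℝ) * W0 τ - (e s).2 * tt τ ∧
          ((e s).1 : ℝ) * W0 τ - (e s).2 * tt τ ≤ ℓ - 2 ∧
          0 ≤ -((e s).1 : ℝ) * tt τ + (e s).2 * W2 τ ∧
          -((e s).1 : ℝ) * tt τ + (e s).2 * W2 τ ≤ ℓ - 2 := by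
        intro s
        exact hQin _ (hQ' ((Q'.equivFinOfCardEq hQc).symm s).2)
      let PX : Fin M → ℝ := fun s => ((e s).1 : ℝ) * W0 τ - (e s).2 * tt τ
      let PY : Fin M → ℝ := fun s => -((e s).1 : ℝ) * tt τ + (e s).2 * W2 τ
      have hcell : ∀ s, ∀ z ∈ (fun z => z + pt (PX s) (PY s)) ''
          {z | (|W0 τ - W2 τ| ≤ W1 τ ∧ 0 < W1 τ) ∧ InCell (W0 τ) (W1 τ) (W2 τ) (Z τ) 0 0 z},
          InCell (W0 τ) (W1 τ) (W2 τ) (Z τ) (PX s) (PY s) z := by
        rintro s z ⟨y, ⟨-, q1, q2, q3, q4, q5, q6⟩, rfl⟩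
        simp only [InCell, X_add, Y_add, X_pt, Y_pt]
        refine ⟨by linarith, by linarith, by linarith, by linarith, by linarith, by linarith⟩
      refine ⟨fun s z => z + pt (PX s) (PY s), fun s => isRigidMotion_add _, ?_, ?_⟩
      · intro s z hz
        obtain ⟨q1, q2, q3, q4, -, -⟩ := hcell s z hz
        obtain ⟨u1, u2, u3, u4⟩ := he s
        have v0 := hW0' τ
        have v2 := hW2' τ
        simp only [PX, PY] at q1 q2 q3 q4
        exact ⟨by linarith, by linarith, by linarith, by linarith⟩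
      · intro s t hst
        refine sep_cells (hcell s) (hcell t) ?_
        have hls := lattice_sep (hW0 τ) (hW2 τ) hgood.1 (t := tt τ) rfl
          (m := (e s).1 - (e t).1) (n := (e s).2 - (e t).2) (by
            rintro ⟨hx, hy⟩
            exact hst (einj (Prod.ext (by omega) (by omega))))
        have ex : PX s - PX t = (((e s).1 - (e t).1 : ℤ) : ℝ) * W0 τ -
            (((e s).2 - (e t).2 : ℤ) : ℝ) * tt τ := by
          simp only [PX]; push_cast; ring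
        have ey : PY s - PY t = -(((e s).1 - (e t).1 : ℤ) : ℝ) * tt τ +
            (((e s).2 - (e t).2 : ℤ) : ℝ) * W2 τ := by
          simp only [PY]; push_cast; ring
        rw [ex, ey]
        exact hls
    · refine ⟨fun _ z => z + 0, fun _ => isRigidMotion_add 0, ?_, ?_⟩
      · rintro s z ⟨y, ⟨hy, -⟩, -⟩
        exact absurd hy hgood
      · intro s t _
        have hempty : {z | (|W0 τ - W2 τ| ≤ W1 τ ∧ 0 < W1 τ) ∧
            InCell (W0 τ) (W1 τ) (W2 τ) (Z τ) 0 0 z} = ∅ := by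
          ext z
          constructor
          · rintro ⟨h, -⟩
            exact absurd h hgood
          · rintro ⟨⟩
        beta_reduce
        rw [hempty]
        simp
  · intro K hK
    obtain ⟨g, hg, w0, w1, w2, ζ, h0, h1, h2, hs, hd, hζ, hζ1, hin⟩ :=
      Pool.Agent.Helper79.PK.widths hK
    obtain ⟨a, b, c, r0, r2, r3, r4, r5, r6⟩ := rounding hm h0 h1 h2 hs hd hζ hζ1
    refine ⟨(a, b, c), g, hg, ?_⟩
    intro z hz
    obtain ⟨q1, q2, q3, q4, q5, q6⟩ := hin z hz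
    refine ⟨⟨r5, r6⟩, ?_⟩
    have e0 : W0 (a, b, c) = (((a : Fin m) : ℕ) + 1 : ℝ) / m := rfl
    have e2 : W2 (a, b, c) = (((b : Fin m) : ℕ) + 1 : ℝ) / m := rfl
    have e3 : Z (a, b, c) = (((c : Fin (m + 1)) : ℕ) : ℝ) / m := rfl
    have e4 : W1 (a, b, c) = S0 - W0 (a, b, c) - W2 (a, b, c) := rfl
    rw [← e0, ← e2, ← e3] at r4
    rw [← e0] at r0
    rw [← e2] at r2
    rw [← e3] at r3
    rw [e4]
    simp only [InCell]
    refine ⟨by linarith, by linarith, by linarith, by linarith, by linarith, by linarith⟩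

end Pool.Agent.Helper89.FF
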