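import Pool.Agent.Helper89.FF.Defs

/-!
# FF-NUM: the numerical part

Compare `Pool/Agent/Helper79/PK/Num.lean` (theorem `numerics`, whose proof treats `m = 0`);
`kappa ^ 2 = √3 / (2 π ^ 3)`, so `(√3 / 2) π kappa ^ 2 = 3 / (4 π ^ 2) = a0`.

Take `L = max 12 (2 |C1| + 1)`, `c = (a0 - a) / (2 a0) ≤ 1 / 2`, `C = 4 L + 3 B`,
`B = 102 a0 + 48 L ^ 2 + 4 J L ^ 2`. Let `x ≥ 1`, `x ≤ M ≤ x + 1 ≤ 2 x`, `ℓ = L M`. Then
`ℓ / (ℓ - 6) ≤ 1 + 1 / M`, `ℓ / (ℓ - C1) ≤ 1 + 1 / M`,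
`(3 / π + 3 / M) ^ 2 / 12 ≤ a0 (1 + 4 / M) ^ 2`, so the left-hand side is at most
`(x ^ 6 - m) a0 (1 + 99 / M) + m a (1 + 3 / M) + (M ^ 2 (M + 1) + J) L ^ 2 M ^ 2
≤ a0 x ^ 6 - (a0 - a) m + B x ^ 5` (`x ^ 6 / M ≤ x ^ 5`, `M ≤ 2 x`, `M + 1 ≤ 3 x`).
The right-hand side: `R - 2 ℓ ≥ kappa s + (C - 4 L) x ^ 2`, `s = √(x ^ 6 - c m) ≥ x ^ 3 / √2`, so it
is at least `(√3 / 2) π (kappa ^ 2 s ^ 2 + 2 kappa s 3 B x ^ 2) ≥ a0 (x ^ 6 - c m) + B x ^ 5`, and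
`a0 c ≤ a0 - a`. (`kappa ≥ 16 / 100` is `kappa_lower`.)
-/

namespace Pool.Agent.Helper89.FF

open Pool.Agent.Helper79.PK

private theorem a0_kappa15 : √3 / 2 * Real.pi * kappa ^ 2 = a0 := by
  have hπ0 := Real.pi_pos
  rw [kappa_sq, a0]
  have h3 : √3 * √3 = 3 := Real.mul_self_sqrt (by norm_num)
  field_simp
  nlinarith

/-- the factor of the blocks of disks -/
private theorem factor_disk15 {L M : ℝ} (hL : 12 ≤ L) (hM1 : 1 ≤ M) :
    ((3 / Real.pi + 3 / M) ^ 2 / 12) / (L * M - 6) ^ 2 * (L * M) ^ 2 ≤ a0 * (1 + 99 * (1 / M)) := by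
  have hπ0 := Real.pi_pos
  have hπ4 : Real.pi < 3.15 := Real.pi_lt_d2
  have hM0 : 0 < M := by linarith
  have hy0 : 0 < 1 / M := by positivity
  have hy1 : 1 / M ≤ 1 := by rw [div_le_one hM0]; exact hM1
  have hLM : 12 ≤ L * M := by nlinarith
  have f1 : (3 / Real.pi + 3 / M) ^ 2 / 12 ≤ a0 * (1 + 4 * (1 / M)) ^ 2 := by
    have e : (3 / Real.pi + 3 / M) = 3 / Real.pi * (1 + Real.pi * (1 / M)) := by field_simp
    have e2 : a0 * (1 + 4 * (1 / M)) ^ 2 = (3 / Real.pi) ^ 2 * (1 + 4 * (1 / M)) ^ 2 / 12 := by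
      unfold a0
      ring
    rw [e, e2, mul_pow]
    have : (1 + Real.pi * (1 / M)) ^ 2 ≤ (1 + 4 * (1 / M)) ^ 2 := by
      refine pow_le_pow_left₀ (by positivity) ?_ 2
      nlinarith
    exact div_le_div_of_nonneg_right (mul_le_mul_of_nonneg_left this (by positivity)) (by norm_num)
  have f2 : (L * M) ^ 2 / (L * M - 6) ^ 2 ≤ (1 + 1 / M) ^ 2 := by
    rw [← div_pow]
    refine pow_le_pow_left₀ (div_nonneg (by linarith) (by linarith)) ?_ 2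
    rw [div_le_iff₀ (by linarith)]
    have h1 : 1 / M * M = 1 := by field_simp
    have h2 : (1 + 1 / M) * (L * M - 6) = L * M - 6 + L * (1 / M * M) - 6 * (1 / M) := by ring
    rw [h2, h1]
    linarith
  have f3 : (1 + 4 * (1 / M)) ^ 2 * (1 + 1 / M) ^ 2 ≤ 1 + 99 * (1 / M) := by
    generalize 1 / M = y at hy0 hy1 ⊢
    have hy2 : y ^ 2 ≤ y := by nlinarith
    have hy3 : y ^ 3 ≤ y := by nlinarith
    have hy4 : y ^ 4 ≤ y := by nlinarith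
    nlinarith
  have h0 := a0_pos
  calc ((3 / Real.pi + 3 / M) ^ 2 / 12) / (L * M - 6) ^ 2 * (L * M) ^ 2 =
      ((3 / Real.pi + 3 / M) ^ 2 / 12) * ((L * M) ^ 2 / (L * M - 6) ^ 2) := by ring
    _ ≤ (a0 * (1 + 4 * (1 / M)) ^ 2) * (1 + 1 / M) ^ 2 :=
        mul_le_mul f1 f2 (by positivity) (by positivity)
    _ = a0 * ((1 + 4 * (1 / M)) ^ 2 * (1 + 1 / M) ^ 2) := by ring
    _ ≤ _ := mul_le_mul_of_nonneg_left f3 h0.le

/-- the factor of the other blocks -/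
private theorem factor_other15 {L M a C1 : ℝ} (ha : 0 < a) (hL : 12 ≤ L) (hC : 2 * |C1| + 1 ≤ L)
    (hM1 : 1 ≤ M) :
    a / (L * M - C1) ^ 2 * (L * M) ^ 2 ≤ a * (1 + 3 * (1 / M)) := by
  have hM0 : 0 < M := by linarith
  have hy0 : 0 < 1 / M := by positivity
  have hy1 : 1 / M ≤ 1 := by rw [div_le_one hM0]; exact hM1
  have hC1 := le_abs_self C1
  have hC2 := abs_nonneg C1
  have hLM : L ≤ L * M := by nlinarith
  have f2 : (L * M) ^ 2 / (L * M - C1) ^ 2 ≤ (1 + 1 / M) ^ 2 := by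
    rw [← div_pow]
    refine pow_le_pow_left₀ (div_nonneg (by linarith) (by linarith)) ?_ 2
    rw [div_le_iff₀ (by linarith)]
    have h1 : 1 / M * M = 1 := by field_simp
    have h2 : (1 + 1 / M) * (L * M - C1) = L * M - C1 + L * (1 / M * M) - C1 * (1 / M) := by ring
    have h3 : C1 * (1 / M) ≤ |C1| := by
      calc C1 * (1 / M) ≤ |C1| * (1 / M) := mul_le_mul_of_nonneg_right hC1 hy0.le
        _ ≤ |C1| * 1 := mul_le_mul_of_nonneg_left hy1 hC2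
        _ = _ := mul_one _
    rw [h2, h1]
    linarith
  have f3 : (1 + 1 / M) ^ 2 ≤ 1 + 3 * (1 / M) := by
    generalize 1 / M = y at hy0 hy1 ⊢
    nlinarith
  calc a / (L * M - C1) ^ 2 * (L * M) ^ 2 = a * ((L * M) ^ 2 / (L * M - C1) ^ 2) := by ring
    _ ≤ _ := mul_le_mul_of_nonneg_left (f2.trans f3) ha.le

/-- the left-hand side -/
private theorem lhs15 {a C1 L x m M : ℝ} (ha : 0 < a) (ha' : a < a0) (J : ℕ) (hL : 12 ≤ L)
    (hC : 2 * |C1| + 1 ≤ L) (hx : 1 ≤ x) (hm : 0 ≤ m) (hm' : m ≤ x ^ 6) (hM : x ≤ M)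
    (hM2 : M ≤ x + 1) :
    ((x ^ 6 - m) * ((3 / Real.pi + 3 / M) ^ 2 / 12) / (L * M - 6) ^ 2 +
          m * a / (L * M - C1) ^ 2 + (M * M * (M + 1) + J)) * (L * M) ^ 2 ≤
      a0 * x ^ 6 - (a0 - a) * m + (102 * a0 + 48 * L ^ 2 + 4 * J * L ^ 2) * x ^ 5 := by
  have hM1 : 1 ≤ M := hx.trans hM
  have hM0 : 0 < M := by linarith
  have hx0 : 0 < x := by linarith
  have h0 := a0_pos
  have e : ((x ^ 6 - m) * ((3 / Real.pi + 3 / M) ^ 2 / 12) / (L * M - 6) ^ 2 +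
          m * a / (L * M - C1) ^ 2 + (M * M * (M + 1) + J)) * (L * M) ^ 2 =
      (x ^ 6 - m) * (((3 / Real.pi + 3 / M) ^ 2 / 12) / (L * M - 6) ^ 2 * (L * M) ^ 2) +
        m * (a / (L * M - C1) ^ 2 * (L * M) ^ 2) + (M ^ 4 * (M + 1) + J * M ^ 2) * L ^ 2 := by
    ring
  rw [e]
  have g1 := mul_le_mul_of_nonneg_left (factor_disk15 hL hM1) (sub_nonneg.2 hm')
  have g2 := mul_le_mul_of_nonneg_left (factor_other15 ha hL hC hM1) hm
  have g3 : x ^ 6 * (1 / M) ≤ x ^ 5 := by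
    rw [mul_one_div, div_le_iff₀ hM0]
    calc x ^ 6 = x ^ 5 * x := by ring
      _ ≤ _ := mul_le_mul_of_nonneg_left hM (by positivity)
  have g4 : (x ^ 6 - m) * (a0 * (1 + 99 * (1 / M))) + m * (a * (1 + 3 * (1 / M))) ≤
      a0 * x ^ 6 - (a0 - a) * m + 102 * a0 * x ^ 5 := by
    have hy0 : 0 < 1 / M := by positivity
    have h1 : m * (1 / M) * (99 * a0 - 3 * a) ≥ 0 := by
      have : 0 ≤ 99 * a0 - 3 * a := by linarith
      positivity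
    have h2 : 99 * a0 * (x ^ 6 * (1 / M)) ≤ 99 * a0 * x ^ 5 :=
      mul_le_mul_of_nonneg_left g3 (by positivity)
    have h3 : 0 ≤ 3 * a0 * x ^ 5 := by positivity
    have h4 : (x ^ 6 - m) * (a0 * (1 + 99 * (1 / M))) + m * (a * (1 + 3 * (1 / M))) =
        a0 * x ^ 6 - (a0 - a) * m + 99 * a0 * (x ^ 6 * (1 / M)) -
          m * (1 / M) * (99 * a0 - 3 * a) := by ring
    rw [h4]
    linarith
  have hM2x : M ≤ 2 * x := by linarith
  have g5 : (M ^ 4 * (M + 1) + J * M ^ 2) * L ^ 2 ≤ (48 * L ^ 2 + 4 * J * L ^ 2) * x ^ 5 := by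
    have h1 : M ^ 4 ≤ 16 * x ^ 4 := by
      calc M ^ 4 ≤ (2 * x) ^ 4 := pow_le_pow_left₀ hM0.le hM2x 4
        _ = _ := by ring
    have h2 : M ^ 4 * (M + 1) ≤ 16 * x ^ 4 * (3 * x) :=
      mul_le_mul h1 (by linarith) (by positivity) (by positivity)
    have h3 : M ^ 2 ≤ 4 * x ^ 5 := by
      calc M ^ 2 ≤ (2 * x) ^ 2 := pow_le_pow_left₀ hM0.le hM2x 2
        _ = 4 * (x ^ 2 * 1) := by ring
        _ ≤ 4 * (x ^ 2 * x ^ 3) := by
          have := one_le_pow₀ hx (n := 3)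
          exact mul_le_mul_of_nonneg_left (mul_le_mul_of_nonneg_left this (by positivity))
            (by norm_num)
        _ = _ := by ring
    have h4 : (J : ℝ) * M ^ 2 ≤ J * (4 * x ^ 5) := mul_le_mul_of_nonneg_left h3 (Nat.cast_nonneg J)
    calc (M ^ 4 * (M + 1) + J * M ^ 2) * L ^ 2 ≤ (16 * x ^ 4 * (3 * x) + J * (4 * x ^ 5)) * L ^ 2 :=
          mul_le_mul_of_nonneg_right (add_le_add h2 h4) (by positivity)
      _ = _ := by ring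
  calc _ ≤ ((x ^ 6 - m) * (a0 * (1 + 99 * (1 / M))) + m * (a * (1 + 3 * (1 / M)))) +
        (48 * L ^ 2 + 4 * J * L ^ 2) * x ^ 5 := add_le_add (add_le_add g1 g2) g5
    _ ≤ (a0 * x ^ 6 - (a0 - a) * m + 102 * a0 * x ^ 5) + (48 * L ^ 2 + 4 * J * L ^ 2) * x ^ 5 :=
        add_le_add g4 le_rfl
    _ = _ := by ring

/-- the right-hand side -/
private theorem rhs15 {B c x m y : ℝ} (hB : 0 ≤ B) (hc0 : 0 ≤ c) (hc : c ≤ 1 / 2) (hx : 1 ≤ x)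
    (hm : 0 ≤ m) (hm' : m ≤ x ^ 6) (hy : kappa * √(x ^ 6 - c * m) + 3 * B * x ^ 2 ≤ y) :
    a0 * (x ^ 6 - c * m) + B * x ^ 5 ≤ √3 / 2 * Real.pi * y ^ 2 := by
  have hx0 : 0 < x := by linarith
  have hκ := kappa_lower
  have hκ0 := kappa_pos
  have hs3 : (1.73 : ℝ) ≤ √3 := Real.le_sqrt_of_sq_le (by norm_num)
  have hπ314 : (3.14 : ℝ) < Real.pi := Real.pi_gt_d2
  have hcm : c * m ≤ 1 / 2 * x ^ 6 := mul_le_mul hc hm' hm (by norm_num)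
  have hx6 : 0 < x ^ 6 := by positivity
  have hs0 : 0 ≤ √(x ^ 6 - c * m) := Real.sqrt_nonneg _
  have hs2 : √(x ^ 6 - c * m) ^ 2 = x ^ 6 - c * m := Real.sq_sqrt (by linarith)
  have hs1 : 7 / 10 * x ^ 3 ≤ √(x ^ 6 - c * m) := by
    refine Real.le_sqrt_of_sq_le ?_
    have : (7 / 10 * x ^ 3) ^ 2 = 49 / 100 * x ^ 6 := by ring
    rw [this]
    linarith
  generalize √(x ^ 6 - c * m) = s at hs0 hs2 hs1 hy
  have h1 : (kappa * s + 3 * B * x ^ 2) ^ 2 ≤ y ^ 2 := pow_le_pow_left₀ (by positivity) hy 2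
  have h2 : kappa ^ 2 * s ^ 2 + 6 * (kappa * s) * (B * x ^ 2) ≤
      (kappa * s + 3 * B * x ^ 2) ^ 2 := by
    have : (kappa * s + 3 * B * x ^ 2) ^ 2 =
      kappa ^ 2 * s ^ 2 + 6 * (kappa * s) * (B * x ^ 2) + (3 * B * x ^ 2) ^ 2 := by ring
    rw [this]
    have := sq_nonneg (3 * B * x ^ 2)
    linarith
  have h3 : 16 / 100 * (7 / 10 * x ^ 3) ≤ kappa * s := mul_le_mul hκ hs1 (by positivity) hκ0.le
  have h4 : 16 / 100 * (7 / 10 * x ^ 3) * (B * x ^ 2) ≤ kappa * s * (B * x ^ 2) :=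
    mul_le_mul_of_nonneg_right h3 (by positivity)
  have h5 : (1.73 : ℝ) / 2 * 3.14 ≤ √3 / 2 * Real.pi :=
    mul_le_mul (by linarith) hπ314.le (by norm_num) (by positivity)
  have hBx : 0 ≤ B * x ^ 5 := by positivity
  have h6 : B * x ^ 5 ≤ √3 / 2 * Real.pi * (6 * (kappa * s) * (B * x ^ 2)) := by
    calc B * x ^ 5 ≤ 1.73 / 2 * 3.14 * (6 * (16 / 100 * (7 / 10 * x ^ 3) * (B * x ^ 2))) := by
          have : (1.73 : ℝ) / 2 * 3.14 * (6 * (16 / 100 * (7 / 10 * x ^ 3) * (B * x ^ 2))) =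
            (1.73 / 2 * 3.14 * 6 * (16 / 100) * (7 / 10)) * (B * x ^ 5) := by ring
          rw [this]
          have h7 : (1 : ℝ) ≤ 1.73 / 2 * 3.14 * 6 * (16 / 100) * (7 / 10) := by norm_num
          nlinarith
      _ ≤ √3 / 2 * Real.pi * (6 * (kappa * s * (B * x ^ 2))) :=
          mul_le_mul h5 (mul_le_mul_of_nonneg_left h4 (by norm_num)) (by positivity) (by positivity)
      _ = _ := by ring
  have h8 : √3 / 2 * Real.pi * (kappa ^ 2 * s ^ 2) = a0 * (x ^ 6 - c * m) := by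
    rw [hs2, ← mul_assoc, a0_kappa15]
  calc a0 * (x ^ 6 - c * m) + B * x ^ 5 ≤
      √3 / 2 * Real.pi * (kappa ^ 2 * s ^ 2 + 6 * (kappa * s) * (B * x ^ 2)) := by
        rw [mul_add, h8]
        linarith
    _ ≤ _ := mul_le_mul_of_nonneg_left (h2.trans h1) (by positivity)

theorem numerics' {a C1 : ℝ} (ha : 0 < a) (ha' : a < a0) (J : ℕ) :
    ∃ c C L : ℝ, 0 < c ∧ c ≤ 1 / 2 ∧ 0 < C ∧ 12 ≤ L ∧ C1 < L ∧
      ∀ x m M R : ℝ, 1 ≤ x → 0 ≤ m → m ≤ x ^ 6 → x ≤ M → M ≤ x + 1 →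
        kappa * √(x ^ 6 - c * m) + C * x ^ 2 ≤ R →
        2 * (L * M) ≤ R ∧
        ((x ^ 6 - m) * ((3 / Real.pi + 3 / M) ^ 2 / 12) / (L * M - 6) ^ 2 +
          m * a / (L * M - C1) ^ 2 + (M * M * (M + 1) + J)) * (L * M) ^ 2 ≤
        √3 / 2 * Real.pi * (R - 2 * (L * M)) ^ 2 := by
  have h0 := a0_pos
  have hJ : (0 : ℝ) ≤ J := Nat.cast_nonneg J
  obtain ⟨L, hL, hC⟩ : ∃ L : ℝ, 12 ≤ L ∧ 2 * |C1| + 1 ≤ L :=
    ⟨max 12 (2 * |C1| + 1), le_max_left _ _, le_max_right _ _⟩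
  have hC1 := le_abs_self C1
  have hC2 := abs_nonneg C1
  obtain ⟨c, hc⟩ : ∃ c : ℝ, c = (a0 - a) / (2 * a0) := ⟨_, rfl⟩
  have hc0 : 0 < c := by rw [hc]; exact div_pos (by linarith) (by linarith)
  have hc1 : c ≤ 1 / 2 := by
    rw [hc, div_le_iff₀ (by linarith)]
    linarith
  have hca : a0 * c ≤ a0 - a := by
    rw [hc]
    have : a0 * ((a0 - a) / (2 * a0)) = (a0 - a) / 2 := by
      field_simp
    rw [this]
    linarith
  obtain ⟨B, hB⟩ : ∃ B : ℝ, B = 102 * a0 + 48 * L ^ 2 + 4 * J * L ^ 2 := ⟨_, rfl⟩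
  have hB0 : 0 ≤ B := by rw [hB]; positivity
  refine ⟨c, 4 * L + 3 * B, L, hc0, hc1, by linarith, hL, by linarith, ?_⟩
  intro x m M R hx hm hm' hM hM2 hR
  have hx0 : 0 < x := by linarith
  have hM2x : M ≤ 2 * x := by linarith
  have hxx : x ≤ x ^ 2 := by nlinarith
  have hLM : 2 * (L * M) ≤ 4 * L * x ^ 2 := by
    calc 2 * (L * M) ≤ 2 * (L * (2 * x ^ 2)) := by
          refine mul_le_mul_of_nonneg_left (mul_le_mul_of_nonneg_left ?_ (by linarith))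
            (by norm_num)
          linarith
      _ = _ := by ring
  have hy : kappa * √(x ^ 6 - c * m) + 3 * B * x ^ 2 ≤ R - 2 * (L * M) := by
    have : kappa * √(x ^ 6 - c * m) + (4 * L + 3 * B) * x ^ 2 =
      kappa * √(x ^ 6 - c * m) + 3 * B * x ^ 2 + 4 * L * x ^ 2 := by ring
    rw [this] at hR
    linarith
  have hκ0 := kappa_pos
  have hy0 : 0 ≤ kappa * √(x ^ 6 - c * m) + 3 * B * x ^ 2 :=
    add_nonneg (mul_nonneg hκ0.le (Real.sqrt_nonneg _)) (by positivity)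
  refine ⟨by linarith, ?_⟩
  have h1 := lhs15 (M := M) ha ha' J hL hC hx hm hm' hM hM2
  have h2 := rhs15 hB0 hc0.le hc1 hx hm hm' hy
  rw [← hB] at h1
  have h3 : a0 * (c * m) ≤ (a0 - a) * m := by
    rw [← mul_assoc]
    exact mul_le_mul_of_nonneg_right hca hm
  have h4 : a0 * (x ^ 6 - c * m) = a0 * x ^ 6 - a0 * (c * m) := by ring
  linarith

end Pool.Agent.Helper89.FF
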