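import Mathlib

/-!
# FF-RIG: a rigidity lemma of real analysis

`f` is Lipschitz, `f (t + π) = - f t`. Put `q t = f (t + π / 3) + f t`,
`p t = √3 (f (t + π / 3) - f t)`. Since `2 cos (π / 3 ± δ) = cos δ ∓ √3 sin δ`, the hypothesis
`hineq` reads `q t ≤ cos δ q (t + δ) - sin δ p (t + δ) + W cos δ (1 - cos δ)` for `|δ| ≤ π / 6`.

1. With `(t + δ, - δ)` for `(t, δ)`: `q (t + δ) ≤ cos δ q t + sin δ p t + O (δ ^ 2)`; with
   `(t, δ)`: `q (t + δ) cos δ ≥ q t + sin δ p (t + δ) - O (δ ^ 2)`; `f` is bounded (antiperiodic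
   and continuous) and `p` is Lipschitz, so `|q (t + δ) - q t - δ p t| ≤ C δ ^ 2`: `q` has the
   derivative `p t` at `t`.
2. Let `S` be the shift by `π / 3`, so `S ^ 3 f = - f`, `q = (S + 1) f`, `p = √3 (S - 1) f`.
   `(S ^ 2 - S + 1) q = (S ^ 3 + 1) f = 0`, so its derivative
   `√3 (S - 1) (S ^ 2 - S + 1) f` is zero; for `g = (S ^ 2 - S + 1) f` this gives `S g = g`, and
   `(S + 1) g = (S ^ 3 + 1) f = 0` gives `g = 0`.
3. So `f (t + 2 π / 3) = f (t + π / 3) - f t`, hence `f = (2 - S) q / 3` is differentiable with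
   `f' = (2 - S) p / 3 = (2 S - 1) f / √3`, and `f'' = (2 S - 1) ^ 2 f / 3 = - f`.
4. `f t = f 0 cos t + f' 0 sin t`: the functions `f cos - f' sin`, `f sin + f' cos` have
   derivative zero.
-/

namespace Pool.Agent.Helper89.FF

private lemma sin_sub_bound {x : ℝ} (hx : |x| ≤ 1) : |Real.sin x - x| ≤ x ^ 2 := by
  have h := Real.sin_bound hx
  have h2 : |x| ^ 2 = x ^ 2 := sq_abs x
  have h0 := abs_nonneg x
  have h3 : |x| ^ 3 ≤ |x| ^ 2 := pow_le_pow_of_le_one h0 hx (by norm_num)
  have h4 : |x| ^ 4 ≤ |x| ^ 2 := pow_le_pow_of_le_one h0 hx (by norm_num)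
  have h5 : |x ^ 3 / 6| ≤ |x| ^ 3 / 6 := by rw [abs_div, abs_pow]; norm_num
  have h6 : Real.sin x - x = (Real.sin x - (x - x ^ 3 / 6)) - x ^ 3 / 6 := by ring
  rw [h6]
  refine (abs_sub _ _).trans ?_
  nlinarith

theorem rigid {f : ℝ → ℝ} {W L : ℝ} (hL : ∀ s t, |f s - f t| ≤ L * |s - t|)
    (hanti : ∀ t, f (t + Real.pi) = - f t)
    (hineq : ∀ t δ, |δ| ≤ Real.pi / 6 → f (t + Real.pi / 3) + f t ≤
      2 * f (t + Real.pi / 3 + δ) * Real.cos (Real.pi / 3 + δ) +
      2 * f (t + δ) * Real.cos (Real.pi / 3 - δ) + W * Real.cos δ * (1 - Real.cos δ)) :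
    ∃ a b : ℝ, ∀ t, f t = a * Real.cos t + b * Real.sin t := by
  have hpi := Real.pi_pos
  have hpi3 := Real.pi_gt_three
  have hpi4 := Real.pi_lt_four
  have h3 : √3 * √3 = 3 := Real.mul_self_sqrt (by norm_num)
  have h30 : 0 < √3 := by positivity
  have h32 : √3 ≤ 2 := by nlinarith
  have hL0 : 0 ≤ L := by
    have := (abs_nonneg _).trans (hL 1 0)
    simpa using this
  have hB : ∀ t, |f t| ≤ L * 2 := by
    intro t
    have h := hL (t + Real.pi) t
    rw [hanti] at h
    have e : - f t - f t = - (2 * f t) := by ring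
    have e2 : t + Real.pi - t = Real.pi := by ring
    rw [e, e2, abs_neg, abs_mul, abs_of_pos hpi, abs_of_pos (by norm_num : (0 : ℝ) < 2)] at h
    nlinarith
  set q : ℝ → ℝ := fun t => f (t + Real.pi / 3) + f t with hq
  set p : ℝ → ℝ := fun t => √3 * (f (t + Real.pi / 3) - f t) with hp
  have hqB : ∀ t, |q t| ≤ L * 4 := by
    intro t
    simp only [hq]
    refine (abs_add_le _ _).trans ?_
    linarith [hB (t + Real.pi / 3), hB t]
  have hpB : ∀ t, |p t| ≤ L * 8 := by
    intro t
    simp only [hp]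
    rw [abs_mul, abs_of_pos h30]
    have := abs_sub (f (t + Real.pi / 3)) (f t)
    have h1 := hB (t + Real.pi / 3)
    have h2 := hB t
    calc √3 * |f (t + Real.pi / 3) - f t| ≤ 2 * (L * 4) := by
          refine mul_le_mul h32 (by linarith) (abs_nonneg _) (by norm_num)
      _ = _ := by ring
  have hpL : ∀ s t, |p s - p t| ≤ L * 4 * |s - t| := by
    intro s t
    simp only [hp]
    have e : √3 * (f (s + Real.pi / 3) - f s) - √3 * (f (t + Real.pi / 3) - f t) =
      √3 * ((f (s + Real.pi / 3) - f (t + Real.pi / 3)) - (f s - f t)) := by ring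
    rw [e, abs_mul, abs_of_pos h30]
    have h1 := hL (s + Real.pi / 3) (t + Real.pi / 3)
    have h2 := hL s t
    have e2 : s + Real.pi / 3 - (t + Real.pi / 3) = s - t := by ring
    rw [e2] at h1
    have h4 := abs_sub (f (s + Real.pi / 3) - f (t + Real.pi / 3)) (f s - f t)
    calc √3 * |f (s + Real.pi / 3) - f (t + Real.pi / 3) - (f s - f t)| ≤
          2 * (L * 2 * |s - t|) := by
          refine mul_le_mul h32 (by linarith) (abs_nonneg _) (by norm_num)
      _ = _ := by ring
  have hI : ∀ t δ, |δ| ≤ Real.pi / 6 → q t ≤ Real.cos δ * q (t + δ) - Real.sin δ * p (t + δ) +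
      W * Real.cos δ * (1 - Real.cos δ) := by
    intro t δ hδ
    have h := hineq t δ hδ
    rw [Real.cos_add, Real.cos_sub, Real.cos_pi_div_three, Real.sin_pi_div_three] at h
    have e : t + δ + Real.pi / 3 = t + Real.pi / 3 + δ := by ring
    simp only [hq, hp]
    rw [e]
    linarith
  set C : ℝ := L * 14 + |W| with hC
  have hC0 : 0 ≤ C := by positivity
  -- the derivative of `q`
  have hquad : ∀ t δ, |δ| ≤ 1 / 2 → |q (t + δ) - q t - δ * p t| ≤ C * δ ^ 2 := by
    intro t δ hδ
    have hδ6 : |δ| ≤ Real.pi / 6 := by linarith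
    have hδ1 : |δ| ≤ 1 := by linarith
    have hc1 : 1 - δ ^ 2 / 2 ≤ Real.cos δ := Real.one_sub_sq_div_two_le_cos
    have hc2 : Real.cos δ ≤ 1 := Real.cos_le_one δ
    have hc0 : 0 ≤ Real.cos δ := by
      have : δ ^ 2 ≤ 1 := by
        rw [← sq_abs]
        nlinarith [abs_nonneg δ]
      linarith
    have hs := sin_sub_bound hδ1
    have hW : |W * Real.cos δ * (1 - Real.cos δ)| ≤ |W| * (δ ^ 2 / 2) := by
      rw [abs_mul, abs_mul, abs_of_nonneg hc0, abs_of_nonneg (by linarith : 0 ≤ 1 - Real.cos δ)]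
      calc |W| * Real.cos δ * (1 - Real.cos δ) ≤ |W| * 1 * (δ ^ 2 / 2) := by
            refine mul_le_mul (mul_le_mul_of_nonneg_left hc2 (abs_nonneg _)) (by linarith)
              (by linarith) (by positivity)
        _ = _ := by ring
    have i1 := hI t δ hδ6
    have i2 := hI (t + δ) (-δ) (by rwa [abs_neg])
    rw [Real.cos_neg, Real.sin_neg, show t + δ + -δ = t by ring] at i2
    obtain ⟨w1, w2⟩ := abs_le.1 hW
    have hδs : |δ| * |δ| = δ ^ 2 := by rw [← sq, sq_abs]
    -- products
    have m1 : |(1 - Real.cos δ) * q (t + δ)| ≤ δ ^ 2 / 2 * (L * 4) := by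
      rw [abs_mul, abs_of_nonneg (by linarith : 0 ≤ 1 - Real.cos δ)]
      exact mul_le_mul (by linarith) (hqB _) (abs_nonneg _) (by positivity)
    have m2 : |(1 - Real.cos δ) * q t| ≤ δ ^ 2 / 2 * (L * 4) := by
      rw [abs_mul, abs_of_nonneg (by linarith : 0 ≤ 1 - Real.cos δ)]
      exact mul_le_mul (by linarith) (hqB _) (abs_nonneg _) (by positivity)
    have m3 : |(Real.sin δ - δ) * p t| ≤ δ ^ 2 * (L * 8) := by
      rw [abs_mul]
      exact mul_le_mul hs (hpB _) (abs_nonneg _) (by positivity)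
    have m4 : |Real.sin δ * (p (t + δ) - p t)| ≤ L * 4 * δ ^ 2 := by
      rw [abs_mul]
      have h1 := hpL (t + δ) t
      rw [add_sub_cancel_left] at h1
      have h2 : |Real.sin δ| ≤ |δ| := Real.abs_sin_le_abs
      calc |Real.sin δ| * |p (t + δ) - p t| ≤ |δ| * (L * 4 * |δ|) :=
            mul_le_mul h2 h1 (abs_nonneg _) (abs_nonneg _)
        _ = L * 4 * (|δ| * |δ|) := by ring
        _ = _ := by rw [hδs]
    obtain ⟨a1, a2⟩ := abs_le.1 m1
    obtain ⟨b1, b2⟩ := abs_le.1 m2
    obtain ⟨c1, c2⟩ := abs_le.1 m3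
    obtain ⟨d1, d2⟩ := abs_le.1 m4
    have hWn := abs_nonneg W
    have hd2 := sq_nonneg δ
    have hLd : 0 ≤ L * δ ^ 2 := by positivity
    have hWd : 0 ≤ |W| * δ ^ 2 := by positivity
    rw [abs_le, hC]
    constructor
    · nlinarith
    · nlinarith
  have hder : ∀ t, HasDerivAt q (p t) t := by
    intro t
    rw [hasDerivAt_iff_isLittleO_nhds_zero]
    have hO : (fun h : ℝ => q (t + h) - q t - h • p t) =O[nhds 0] fun h : ℝ => h ^ 2 := by
      refine Asymptotics.IsBigO.of_bound C ?_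
      have : ∀ᶠ h : ℝ in nhds 0, |h| ≤ 1 / 2 := by
        have := Metric.closedBall_mem_nhds (0 : ℝ) (by norm_num : (0 : ℝ) < 1 / 2)
        filter_upwards [this] with h hh
        simpa [Real.dist_eq] using hh
      filter_upwards [this] with h hh
      rw [Real.norm_eq_abs, Real.norm_eq_abs, abs_of_nonneg (sq_nonneg h), smul_eq_mul]
      exact hquad t h hh
    refine hO.trans_isLittleO ?_
    have := Asymptotics.isLittleO_pow_id (𝕜 := ℝ) (n := 2) (by norm_num)
    simpa using this
  -- the recurrence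
  have hg : ∀ t, f (t + 2 * (Real.pi / 3)) = f (t + Real.pi / 3) - f t := by
    intro t
    have e1 : ∀ s, q (s + 2 * (Real.pi / 3)) - q (s + Real.pi / 3) + q s = 0 := by
      intro s
      simp only [hq]
      rw [show s + 2 * (Real.pi / 3) + Real.pi / 3 = s + Real.pi by ring,
        show s + Real.pi / 3 + Real.pi / 3 = s + 2 * (Real.pi / 3) by ring, hanti]
      ring
    have d1 : HasDerivAt (fun s => q (s + 2 * (Real.pi / 3)) - q (s + Real.pi / 3) + q s)
        (p (t + 2 * (Real.pi / 3)) - p (t + Real.pi / 3) + p t) t :=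
      (((hder _).comp_add_const t (2 * (Real.pi / 3))).sub
        ((hder _).comp_add_const t (Real.pi / 3))).add (hder t)
    have d2 : HasDerivAt (fun s => q (s + 2 * (Real.pi / 3)) - q (s + Real.pi / 3) + q s) 0 t := by
      have : (fun s => q (s + 2 * (Real.pi / 3)) - q (s + Real.pi / 3) + q s) = fun _ => (0 : ℝ) :=
        funext e1
      rw [this]
      exact hasDerivAt_const t 0
    have e2 := d1.unique d2
    simp only [hp] at e2
    rw [show t + 2 * (Real.pi / 3) + Real.pi / 3 = t + Real.pi by ring,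
      show t + Real.pi / 3 + Real.pi / 3 = t + 2 * (Real.pi / 3) by ring, hanti] at e2
    have e3 : √3 * (-2 * (f (t + 2 * (Real.pi / 3)) - f (t + Real.pi / 3) + f t)) = 0 := by
      linarith
    rcases mul_eq_zero.1 e3 with h | h
    · exact absurd h h30.ne'
    · linarith
  set f1 : ℝ → ℝ := fun t => √3 / 3 * (2 * f (t + Real.pi / 3) - f t) with hf1
  have hfd : ∀ t, HasDerivAt f (f1 t) t := by
    intro t
    have e : f = fun s => (2 * q s - q (s + Real.pi / 3)) / 3 := by
      funext s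
      simp only [hq]
      rw [show s + Real.pi / 3 + Real.pi / 3 = s + 2 * (Real.pi / 3) by ring, hg]
      ring
    have d : HasDerivAt (fun s => (2 * q s - q (s + Real.pi / 3)) / 3)
        ((2 * p t - p (t + Real.pi / 3)) / 3) t :=
      (((hder t).const_mul 2).sub ((hder _).comp_add_const t (Real.pi / 3))).div_const 3
    rw [← e] at d
    convert d using 1
    simp only [hf1, hp]
    rw [show t + Real.pi / 3 + Real.pi / 3 = t + 2 * (Real.pi / 3) by ring, hg]
    ring
  have hfd1 : ∀ t, HasDerivAt f1 (- f t) t := by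
    intro t
    have d : HasDerivAt f1 (√3 / 3 * (2 * f1 (t + Real.pi / 3) - f1 t)) t :=
      ((((hfd _).comp_add_const t (Real.pi / 3)).const_mul 2).sub (hfd t)).const_mul (√3 / 3)
    convert d using 1
    simp only [hf1]
    rw [show t + Real.pi / 3 + Real.pi / 3 = t + 2 * (Real.pi / 3) by ring, hg]
    linear_combination ((1 : ℝ) / 3 * f t) * h3
  -- constancy
  have hu : ∀ t, f t * Real.cos t - f1 t * Real.sin t = f 0 := by
    intro t
    have hd : ∀ s, HasDerivAt (fun s => f s * Real.cos s - f1 s * Real.sin s) 0 s := by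
      intro s
      exact (((hfd s).mul (Real.hasDerivAt_cos s)).sub
        ((hfd1 s).mul (Real.hasDerivAt_sin s))).congr_deriv (by ring)
    have := is_const_of_deriv_eq_zero (f := fun s => f s * Real.cos s - f1 s * Real.sin s)
      (fun s => (hd s).differentiableAt) (fun s => (hd s).deriv) t 0
    simpa using this
  have hv : ∀ t, f t * Real.sin t + f1 t * Real.cos t = f1 0 := by
    intro t
    have hd : ∀ s, HasDerivAt (fun s => f s * Real.sin s + f1 s * Real.cos s) 0 s := by
      intro s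
      exact (((hfd s).mul (Real.hasDerivAt_sin s)).add
        ((hfd1 s).mul (Real.hasDerivAt_cos s))).congr_deriv (by ring)
    have := is_const_of_deriv_eq_zero (f := fun s => f s * Real.sin s + f1 s * Real.cos s)
      (fun s => (hd s).differentiableAt) (fun s => (hd s).deriv) t 0
    simpa using this
  refine ⟨f 0, f1 0, fun t => ?_⟩
  rw [← hu t, ← hv t]
  linear_combination (- f t) * (Real.sin_sq_add_cos_sq t)

end Pool.Agent.Helper89.FF
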