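import Pool.Agent.Helper89.FF.Double
import Pool.Agent.Helper89.FF.Rigid

/-!
# FF-S2: sets of constant width which are not disks

`supportFn K θ + supportFn K (θ + π) = W`; the perimeter is `1 = π W`. Put
`f = supportFn K - W / 2`. If for all `t` and `|δ| ≤ π / 6` the inequality `hineq` of `rigid`
held, then `f t = a cos t + b sin t` and `K` would be a disk (`eq_closedBall`). So there are
`t`, `δ` with `E := 2 f (t + π / 3 + δ) cos (π / 3 + δ) + 2 f (t + δ) cos (π / 3 - δ)
+ W cos δ (1 - cos δ) - f (t + π / 3) - f t < 0`. For `r ≥ 0` the set `cthickening r K` has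
`supportFn (cthickening r K) θ = supportFn K θ + r = (W + 2 r) / 2 + f θ`, so by `double`
it packs with area `(W + 2 r) / 2 * (3 (W + 2 r) / 2 + (... with W + 2 r for W ...))`, which is
continuous in `r` and for `r = 0` is `3 W ^ 2 / 4 + W E / 2 < a0 = 3 W ^ 2 / 4`.
-/

namespace Pool.Agent.Helper89.FF

open Pool.Agent.Helper16.Disk7 Pool.Agent.Helper79.PK Metric Widths

private theorem s2_width {K : Set ℂ} (hK : IsUnitConvexSet K) {W : ℝ}
    (hcw : ∀ θ, supportFn K θ + supportFn K (θ + Real.pi) = W) : Real.pi * W = 1 := by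
  have hc : Continuous (supportFn K) := continuous_supportFn hK.isCompact hK.nonempty
  have h1 : ∫ θ in (0 : ℝ)..(2 * Real.pi), supportFn K θ = 1 := hK.perimeter_eq
  have h2 : ∫ θ in (0 : ℝ)..(2 * Real.pi), supportFn K θ =
      (∫ θ in (0 : ℝ)..Real.pi, supportFn K θ) + ∫ θ in Real.pi..(2 * Real.pi), supportFn K θ :=
    (intervalIntegral.integral_add_adjacent_intervals (hc.intervalIntegrable _ _)
      (hc.intervalIntegrable _ _)).symm
  have h3 : ∫ θ in Real.pi..(2 * Real.pi), supportFn K θ =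
      ∫ θ in (0 : ℝ)..Real.pi, supportFn K (θ + Real.pi) := by
    rw [intervalIntegral.integral_comp_add_right (fun x => supportFn K x)]
    congr 1 <;> ring
  have h4 : (∫ θ in (0 : ℝ)..Real.pi, supportFn K θ) +
      ∫ θ in (0 : ℝ)..Real.pi, supportFn K (θ + Real.pi) = Real.pi * W := by
    have hc2 : Continuous fun θ => supportFn K (θ + Real.pi) :=
      hc.comp (continuous_id.add continuous_const)
    rw [← intervalIntegral.integral_add (hc.intervalIntegrable _ _)
      (hc2.intervalIntegrable _ _)]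
    simp only [hcw, intervalIntegral.integral_const, smul_eq_mul, sub_zero]
  linarith

theorem strict2 {K : Set ℂ} (hK : IsUnitConvexSet K)
    (hcw : ∃ W : ℝ, ∀ θ, supportFn K θ + supportFn K (θ + Real.pi) = W)
    (hnd : ∀ c : ℂ, K ≠ closedBall c (1 / (2 * Real.pi))) :
    ∃ r > 0, ∃ a < a0, BlockPacks (cthickening r K) a := by
  obtain ⟨W, hW⟩ := hcw
  have hpi := Real.pi_pos
  have hpW := s2_width hK hW
  have hWe : W = 1 / Real.pi := by
    rw [eq_div_iff hpi.ne', mul_comm]
    exact hpW
  have hW0 : 0 < W := by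
    rw [hWe]
    positivity
  obtain ⟨L, hL⟩ := hK.isCompact.isBounded.exists_norm_le
  set f : ℝ → ℝ := fun θ => supportFn K θ - W / 2 with hf
  have hfK : ∀ θ, supportFn K θ = W / 2 + f θ := fun θ => by simp only [hf]; ring
  have hanti : ∀ t, f (t + Real.pi) = - f t := by
    intro t
    have := hW t
    simp only [hf]
    linarith
  have hlip : ∀ s t, |f s - f t| ≤ L * |s - t| := by
    intro s t
    have := supportFn_lip hK.isCompact hK.nonempty hL s t
    simp only [hf]
    rwa [sub_sub_sub_cancel_right]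
  have hnot : ¬ ∀ t δ, |δ| ≤ Real.pi / 6 → f (t + Real.pi / 3) + f t ≤
      2 * f (t + Real.pi / 3 + δ) * Real.cos (Real.pi / 3 + δ) +
      2 * f (t + δ) * Real.cos (Real.pi / 3 - δ) + W * Real.cos δ * (1 - Real.cos δ) := by
    intro hineq
    obtain ⟨a, b, hab⟩ := rigid hlip hanti hineq
    refine hnd ⟨a, b⟩ ?_
    have h1 : (1 : ℝ) / (2 * Real.pi) = W / 2 := by
      rw [hWe]
      field_simp
    rw [h1]
    refine eq_closedBall hK.isCompact hK.convex hK.nonempty (by linarith) fun θ => ?_
    rw [hfK, hab]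
    ring
  push Not at hnot
  obtain ⟨t, δ, hδ, hlt⟩ := hnot
  set F : ℝ → ℝ := fun r => (W + 2 * r) / 2 * (3 * (W + 2 * r) / 2 +
    (2 * f (t + Real.pi / 3 + δ) * Real.cos (Real.pi / 3 + δ) +
      2 * f (t + δ) * Real.cos (Real.pi / 3 - δ) +
      (W + 2 * r) * Real.cos δ * (1 - Real.cos δ) -
      f (t + Real.pi / 3) - f t)) with hF
  have hFc : Continuous F := by
    simp only [hF]
    fun_prop
  have ha0 : a0 = 3 * W ^ 2 / 4 := by
    rw [hWe]
    unfold a0
    field_simp
    ring
  have hF0 : F 0 < a0 := by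
    rw [ha0]
    simp only [hF, mul_zero, add_zero]
    nlinarith
  have hev : ∀ᶠ r in nhdsWithin (0 : ℝ) (Set.Ioi 0), F r < a0 :=
    (hFc.continuousAt.eventually (gt_mem_nhds hF0)).filter_mono nhdsWithin_le_nhds
  obtain ⟨r, hr, hr0⟩ := (hev.and self_mem_nhdsWithin).exists
  have hr0 : 0 < r := hr0
  refine ⟨r, hr0, F r, hr, ?_⟩
  have hfr : ∀ θ, supportFn (cthickening r K) θ = (W + 2 * r) / 2 + f θ := by
    intro θ
    rw [supportFn_cthickening hK.isCompact hK.nonempty hr0.le, hfK]
    ring
  exact double hK.isCompact.cthickening (hK.nonempty.mono (self_subset_cthickening K))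
    (by linarith) hfr hanti hδ

end Pool.Agent.Helper89.FF
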