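import Pool.Agent.Helper89.FF.Strict1
import Pool.Agent.Helper89.FF.Strict2
import Pool.Agent.Helper89.FF.Cpt
import Pool.Agent.Helper89.FF.Near
import Pool.Agent.Helper89.FF.Asm
import Pool.Agent.Helper89.FF.Num
import Pool.Agent.Helper79.PK.Final

/-!
# Families with members far from the disk: the main theorem
-/

namespace Pool.Agent.Helper89.FF

open Pool.Agent.Helper16.Disk7 Pool.Agent.Helper79.PK Metric

theorem local_pack (K : Set ℂ) (hK : IsUnitConvexSet K)
    (hnd : ∀ c : ℂ, K ≠ closedBall c (1 / (2 * Real.pi))) :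
    ∃ r > 0, ∃ a < a0, BlockPacks (cthickening r K) a := by
  by_cases hcw : ∃ W : ℝ, ∀ θ, supportFn K θ + supportFn K (θ + Real.pi) = W
  · exact strict2 hK hcw hnd
  · exact strict1 hK hcw

/-- Every family with `m` members far from the disks fits into every disk of radius
`κ √(k - c m) + C k ^ (1 / 3)`. -/
theorem far_main {ε : ℝ} (hε : 0 < ε) :
    ∃ c C : ℝ, 0 < c ∧ c ≤ 1 / 2 ∧ 0 < C ∧ ∀ k : ℕ, 1 ≤ k → ∀ K : Fin k → Set ℂ,
      (∀ i, IsUnitConvexSet (K i)) → ∀ m : ℕ, m ≤ Nat.card {i : Fin k // Far ε (K i)} →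
      ∀ (z : ℂ) (R : ℝ), kappa * √((k : ℝ) - c * m) + C * (k : ℝ) ^ (1 / 3 : ℝ) ≤ R →
      Accommodates (closedBall z R) K := by
  classical
  obtain ⟨J, P, a, ha, ha', hP, hKP⟩ := finite_containers hε local_pack
  -- one constant for all containers
  choose C0 hC0 using hP
  obtain ⟨C1, hC1⟩ : ∃ C1 : ℝ, ∀ j, C0 j ≤ C1 := by
    obtain ⟨B, hB⟩ := (Set.finite_range C0).bddAbove
    exact ⟨B, fun j => hB ⟨j, rfl⟩⟩
  obtain ⟨c, C, L, hc, hc2, hC, hL, hL1, hnum⟩ := numerics' (C1 := C1) ha ha' J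
  refine ⟨c, C, hc, hc2, hC, fun k hk K hK m' hm' z R hR => ?_⟩
  set S : Finset (Fin k) := Finset.univ.filter fun i => Far ε (K i) with hS
  set m : ℕ := S.card with hm
  have hm'm : m' ≤ m := by
    rw [Nat.card_eq_fintype_card, Fintype.card_subtype] at hm'
    exact hm'
  have hmk : m ≤ k := by
    have := Finset.card_le_univ S
    simpa using this
  have hk1 : (1 : ℝ) ≤ k := by exact_mod_cast hk
  have hk0 : (0 : ℝ) ≤ k := by linarith
  have hmR : (m : ℝ) ≤ k := by exact_mod_cast hmk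
  have hR' : kappa * √((k : ℝ) - c * m) + C * (k : ℝ) ^ (1 / 3 : ℝ) ≤ R := by
    refine le_trans ?_ hR
    have h1 : (m' : ℝ) ≤ m := by exact_mod_cast hm'm
    have h2 : √((k : ℝ) - c * m) ≤ √((k : ℝ) - c * m') := Real.sqrt_le_sqrt (by nlinarith)
    have h3 := mul_le_mul_of_nonneg_left h2 kappa_pos.le
    linarith
  set x : ℝ := (k : ℝ) ^ (1 / 6 : ℝ) with hx
  have hx1 : 1 ≤ x := Real.one_le_rpow hk1 (by norm_num)
  have hx0 : 0 ≤ x := by linarith
  have hx6 : x ^ 6 = k := by
    rw [hx, ← Real.rpow_natCast, ← Real.rpow_mul hk0]; norm_num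
  have hx2 : x ^ 2 = (k : ℝ) ^ (1 / 3 : ℝ) := by
    rw [hx, ← Real.rpow_natCast, ← Real.rpow_mul hk0]; norm_num
  set n : ℕ := ⌈x⌉₊ with hn
  have hn1 : x ≤ (n : ℝ) := Nat.le_ceil x
  have hn2 : (n : ℝ) ≤ x + 1 := (Nat.ceil_lt_add_one hx0).le
  have hn3 : (1 : ℝ) ≤ (n : ℝ) := hx1.trans hn1
  have hn4 : 1 ≤ n := by exact_mod_cast hn3
  rw [← hx2, ← hx6] at hR'
  obtain ⟨hR2, hcnt⟩ := hnum x m n R hx1 (Nat.cast_nonneg m) (by rw [hx6]; exact hmR) hn1 hn2 hR'
  rw [hx6] at hcnt
  set ℓ : ℝ := L * n with hℓ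
  have hℓL : L ≤ ℓ := by rw [hℓ]; nlinarith
  have hℓ6 : 6 < ℓ := by linarith
  have hℓ0 : 0 < ℓ := by linarith
  have hℓC : C1 < ℓ := by linarith
  -- the capacities
  obtain ⟨Q, hQ, hKQ⟩ := near_slots hn4 hℓ6
  set μ : ℝ := 12 * (ℓ - 6) ^ 2 / (3 / Real.pi + 3 / n) ^ 2 with hμ
  have hpi := Real.pi_pos
  have hS0 : 0 < 3 / Real.pi + 3 / (n : ℝ) := by positivity
  have hμ0 : 0 < μ := by
    have : 0 < ℓ - 6 := by linarith
    positivity
  set ν : ℝ := (ℓ - C1) ^ 2 / a with hν
  have hν0 : 0 < ν := by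
    have : 0 < ℓ - C1 := by linarith
    positivity
  have hslQ : ∀ t, Slots (Q t) ℓ ⌈μ⌉₊ := by
    intro t
    obtain ⟨M, h1, h2⟩ := hQ t
    exact h2.mono_num (Nat.ceil_le.2 h1)
  have hslP : ∀ j, Slots (P j) ℓ ⌈ν⌉₊ := by
    intro j
    obtain ⟨M, h1, h2⟩ := hC0 j ℓ ((hC1 j).trans hℓC.le)
    refine h2.mono_num (Nat.ceil_le.2 ?_)
    rw [hν, div_le_iff₀ ha]
    refine le_trans ?_ h1
    have h3 := hC1 j
    exact pow_le_pow_left₀ (by linarith) (by linarith) 2
  -- the types
  choose tQ gQ hgQ hgQs using hKQ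
  choose jP vP hvP using hKP
  let T := (Fin n × Fin n × Fin (n + 1)) ⊕ Fin J
  let Pall : T → Set ℂ := Sum.elim Q P
  let Mall : T → ℕ := Sum.elim (fun _ => ⌈μ⌉₊) (fun _ => ⌈ν⌉₊)
  let τ : Fin k → T := fun i =>
    if h : Far ε (K i) then Sum.inr (jP (K i) (hK i) h) else Sum.inl (tQ (K i) (hK i))
  let e : Fin k → ℂ → ℂ := fun i =>
    if h : Far ε (K i) then (fun z => z + vP (K i) (hK i) h) else gQ (K i) (hK i)
  have hτ1 : ∀ i, Far ε (K i) → ∃ j, τ i = Sum.inr j := fun i h => ⟨_, dif_pos h⟩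
  have hτ2 : ∀ i, ¬ Far ε (K i) → ∃ t, τ i = Sum.inl t := fun i h => ⟨_, dif_neg h⟩
  refine place_containers (T := T) (ℓ := ℓ) hℓ0 hR2 Pall Mall ?_ ?_ K τ e ?_ ?_ ?_ z
  · rintro (t | j)
    · exact Nat.ceil_pos.2 hμ0
    · exact Nat.ceil_pos.2 hν0
  · rintro (t | j)
    · exact hslQ t
    · exact hslP j
  · intro i
    by_cases h : Far ε (K i)
    · simp only [e, dif_pos h]
      exact isRigidMotion_add _
    · simp only [e, dif_neg h]
      exact hgQ _ _
  · intro i
    by_cases h : Far ε (K i)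
    · simp only [e, τ, dif_pos h]
      exact hvP _ _ _
    · simp only [e, τ, dif_neg h]
      exact hgQs _ _
  · refine le_trans (mul_le_mul_of_nonneg_right ?_ (by positivity)) hcnt
    -- the number of boxes
    push_cast
    rw [Finset.sum_add_distrib, Fintype.sum_sum_type]
    have e1 : ∑ t : Fin n × Fin n × Fin (n + 1),
        (((Finset.univ.filter fun i => τ i = Sum.inl t).card / Mall (Sum.inl t) : ℕ) : ℝ) ≤
        ((k : ℝ) - m) / μ := by
      have h1 : ∀ t : Fin n × Fin n × Fin (n + 1),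
          (((Finset.univ.filter fun i => τ i = Sum.inl t).card / Mall (Sum.inl t) : ℕ) : ℝ) ≤
          ((Finset.univ.filter fun i => τ i = Sum.inl t).card : ℝ) / μ := by
        intro t
        refine Nat.cast_div_le.trans ?_
        exact div_le_div_of_nonneg_left (Nat.cast_nonneg _) hμ0 (Nat.le_ceil μ)
      refine (Finset.sum_le_sum fun t _ => h1 t).trans ?_
      rw [← Finset.sum_div]
      refine div_le_div_of_nonneg_right ?_ hμ0.le
      have h2 : ∑ t : Fin n × Fin n × Fin (n + 1),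
          (Finset.univ.filter fun i => τ i = Sum.inl t).card ≤ (Sᶜ).card := by
        rw [← Finset.card_biUnion]
        · refine Finset.card_le_card ?_
          intro i hi
          simp only [Finset.mem_biUnion, Finset.mem_univ, true_and, Finset.mem_filter] at hi
          obtain ⟨t, ht⟩ := hi
          rw [Finset.mem_compl, hS, Finset.mem_filter]
          rintro ⟨-, h⟩
          obtain ⟨j, hj⟩ := hτ1 i h
          rw [hj] at ht
          exact absurd ht (by simp)
        · intro s _ t _ hst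
          rw [Function.onFun, Finset.disjoint_left]
          intro i hi hi'
          simp only [Finset.mem_filter, Finset.mem_univ, true_and] at hi hi'
          rw [hi] at hi'
          exact hst (Sum.inl_injective hi')
      have h3 : (Sᶜ).card = k - m := by
        rw [Finset.card_compl, Fintype.card_fin]
      rw [h3] at h2
      have h4 : ((∑ t : Fin n × Fin n × Fin (n + 1),
          (Finset.univ.filter fun i => τ i = Sum.inl t).card : ℕ) : ℝ) ≤ ((k - m : ℕ) : ℝ) := by
        exact_mod_cast h2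
      rw [Nat.cast_sub hmk] at h4
      push_cast at h4
      exact h4
    have e2 : ∑ j : Fin J,
        (((Finset.univ.filter fun i => τ i = Sum.inr j).card / Mall (Sum.inr j) : ℕ) : ℝ) ≤
        (m : ℝ) / ν := by
      have h1 : ∀ j : Fin J,
          (((Finset.univ.filter fun i => τ i = Sum.inr j).card / Mall (Sum.inr j) : ℕ) : ℝ) ≤
          ((Finset.univ.filter fun i => τ i = Sum.inr j).card : ℝ) / ν := by
        intro t
        refine Nat.cast_div_le.trans ?_
        exact div_le_div_of_nonneg_left (Nat.cast_nonneg _) hν0 (Nat.le_ceil ν)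
      refine (Finset.sum_le_sum fun t _ => h1 t).trans ?_
      rw [← Finset.sum_div]
      refine div_le_div_of_nonneg_right ?_ hν0.le
      have h2 : ∑ j : Fin J,
          (Finset.univ.filter fun i => τ i = Sum.inr j).card ≤ S.card := by
        rw [← Finset.card_biUnion]
        · refine Finset.card_le_card ?_
          intro i hi
          simp only [Finset.mem_biUnion, Finset.mem_univ, true_and, Finset.mem_filter] at hi
          obtain ⟨t, ht⟩ := hi
          rw [hS, Finset.mem_filter]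
          refine ⟨Finset.mem_univ i, ?_⟩
          by_contra h
          obtain ⟨j, hj⟩ := hτ2 i h
          rw [hj] at ht
          exact absurd ht (by simp)
        · intro s _ t _ hst
          rw [Function.onFun, Finset.disjoint_left]
          intro i hi hi'
          simp only [Finset.mem_filter, Finset.mem_univ, true_and] at hi hi'
          rw [hi] at hi'
          exact hst (Sum.inr_injective hi')
      exact_mod_cast h2
    have e3 : ∑ _t : T, (1 : ℝ) = n * n * (n + 1) + J := by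
      rw [Finset.sum_const, Finset.card_univ]
      simp [T, Fintype.card_sum, Fintype.card_prod]
      ring
    have e4 : ((k : ℝ) - m) / μ =
        ((k : ℝ) - m) * ((3 / Real.pi + 3 / n) ^ 2 / 12) / (ℓ - 6) ^ 2 := by
      have : 0 < ℓ - 6 := by linarith
      rw [hμ]
      field_simp
    have e5 : (m : ℝ) / ν = m * a / (ℓ - C1) ^ 2 := by
      have : 0 < ℓ - C1 := by linarith
      rw [hν]
      field_simp
    rw [e4] at e1
    rw [e5] at e2
    have e6 : ∑ _t : T, (1 : ℝ) ≤ n * n * (n + 1) + J := e3.le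
    simp only [Finset.sum_const, Finset.card_univ, nsmul_eq_mul, mul_one] at e6 ⊢
    linarith

end Pool.Agent.Helper89.FF
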