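import Pool.Agent.Helper89.FF.Final

/-!
# Families with members far from the disk: consequences
-/

namespace Pool.Agent.Helper89.FF

open Pool.Agent.Helper16.Disk7 Pool.Agent.Helper79.PK Metric Filter

/-- The closed disks of perimeter `1`. -/
abbrev unitDisk : Set ℂ := closedBall (0 : ℂ) (1 / (2 * Real.pi))

/-- `(P_k)` holds for the families with at least `C k ^ (5 / 6)` members far from the disks. -/
theorem far_P {ε : ℝ} (hε : 0 < ε) :
    ∃ C : ℝ, 0 < C ∧ ∀ k : ℕ, 1 ≤ k → ∀ K : Fin k → Set ℂ,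
      (∀ i, IsUnitConvexSet (K i)) →
      C * (k : ℝ) ^ (5 / 6 : ℝ) ≤ (Nat.card {i : Fin k // Far ε (K i)} : ℝ) →
      ∀ (z : ℂ) (R : ℝ), Accommodates (closedBall z R) (fun _ : Fin k => unitDisk) →
      Accommodates (closedBall z R) K := by
  obtain ⟨c, C, hc, hc2, hC, H⟩ := far_main hε
  have hκ := kappa_pos
  refine ⟨2 * (C + 1) / (kappa * c), by positivity, fun k hk K hK hm z R hR => ?_⟩
  refine H k hk K hK _ le_rfl z R (le_trans ?_ (lower hk hR))
  set m : ℝ := (Nat.card {i : Fin k // Far ε (K i)} : ℝ) with hmdef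
  have hk1 : (1 : ℝ) ≤ k := by exact_mod_cast hk
  have hk0 : (0 : ℝ) < k := by linarith
  have hmk : m ≤ k := by
    have h1 : Nat.card {i : Fin k // Far ε (K i)} ≤ Nat.card (Fin k) :=
      Nat.card_le_card_of_injective _ Subtype.val_injective
    rw [Nat.card_eq_fintype_card (α := Fin k), Fintype.card_fin] at h1
    rw [hmdef]
    exact_mod_cast h1
  have hm0 : 0 ≤ m := Nat.cast_nonneg _
  have h13 : 1 ≤ (k : ℝ) ^ (1 / 3 : ℝ) := Real.one_le_rpow hk1 (by norm_num)
  have hs : √(k : ℝ) ^ 2 = k := Real.sq_sqrt hk0.le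
  have hs' : √((k : ℝ) - c * m) ^ 2 = k - c * m := Real.sq_sqrt (by nlinarith)
  have hs0 : 0 < √(k : ℝ) := Real.sqrt_pos.2 hk0
  have hs0' : 0 ≤ √((k : ℝ) - c * m) := Real.sqrt_nonneg _
  have hle : √((k : ℝ) - c * m) ≤ √(k : ℝ) := Real.sqrt_le_sqrt (by nlinarith)
  have hp : (k : ℝ) ^ (5 / 6 : ℝ) = (k : ℝ) ^ (1 / 3 : ℝ) * √(k : ℝ) := by
    rw [Real.sqrt_eq_rpow, ← Real.rpow_add hk0]
    norm_num
  -- the gain
  have h1 : 2 * (C + 1) * (k : ℝ) ^ (1 / 3 : ℝ) * √(k : ℝ) ≤ kappa * c * m := by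
    rw [hp, div_mul_eq_mul_div, div_le_iff₀ (by positivity)] at hm
    linarith
  have h2 : c * m ≤ 2 * √(k : ℝ) * (√(k : ℝ) - √((k : ℝ) - c * m)) := by
    have : c * m = (√(k : ℝ) + √((k : ℝ) - c * m)) * (√(k : ℝ) - √((k : ℝ) - c * m)) := by
      have e : (√(k : ℝ) + √((k : ℝ) - c * m)) * (√(k : ℝ) - √((k : ℝ) - c * m)) =
        √(k : ℝ) ^ 2 - √((k : ℝ) - c * m) ^ 2 := by ring
      rw [e, hs, hs']
      ring
    refine this.le.trans ?_
    exact mul_le_mul_of_nonneg_right (by linarith) (by linarith)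
  have h3 : (C + 1) * (k : ℝ) ^ (1 / 3 : ℝ) ≤
      kappa * (√(k : ℝ) - √((k : ℝ) - c * m)) := by
    have h4 : 2 * √(k : ℝ) * ((C + 1) * (k : ℝ) ^ (1 / 3 : ℝ)) ≤
        2 * √(k : ℝ) * (kappa * (√(k : ℝ) - √((k : ℝ) - c * m))) := by
      have := mul_le_mul_of_nonneg_left h2 hκ.le
      linarith
    exact le_of_mul_le_mul_left h4 (by positivity)
  linarith

/-- A convex set of perimeter `1` which is not a disk is far from the disks. -/
theorem exists_far {K : Set ℂ} (hK : IsUnitConvexSet K)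
    (hnd : ∀ c : ℂ, K ≠ closedBall c (1 / (2 * Real.pi))) : ∃ ε > 0, Far ε K := by
  have hpi := Real.pi_pos
  set r : ℝ := 1 / (2 * Real.pi) with hr
  have hr0 : 0 < r := by positivity
  have hfin : ∀ (A B : Set ℂ), A.Nonempty → B.Nonempty → Bornology.IsBounded A →
      Bornology.IsBounded B → hausdorffEDist A B ≠ ⊤ := fun A B h1 h2 h3 h4 =>
    hausdorffEDist_ne_top_of_nonempty_of_bounded h1 h2 h3 h4
  have hne : ∀ c : ℂ, (closedBall c r).Nonempty := fun c => ⟨c, mem_closedBall_self hr0.le⟩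
  -- the distance is a continuous function of the centre
  have hlip : ∀ c d : ℂ, hausdorffDist K (closedBall c r) ≤
      hausdorffDist K (closedBall d r) + dist c d := by
    intro c d
    refine (hausdorffDist_triangle (hfin _ _ hK.nonempty (hne d) hK.isCompact.isBounded
      isBounded_closedBall)).trans ?_
    gcongr
    refine hausdorffDist_le_of_mem_dist dist_nonneg ?_ ?_
    · intro x hx
      refine ⟨x + (c - d), ?_, ?_⟩
      · rw [mem_closedBall, dist_eq_norm] at hx ⊢
        rw [show x + (c - d) - c = x - d by ring]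
        exact hx
      · rw [dist_eq_norm, dist_eq_norm, show x - (x + (c - d)) = -(c - d) by ring, norm_neg]
    · intro x hx
      refine ⟨x + (d - c), ?_, ?_⟩
      · rw [mem_closedBall, dist_eq_norm] at hx ⊢
        rw [show x + (d - c) - d = x - c by ring]
        exact hx
      · rw [dist_eq_norm, dist_eq_norm, show x - (x + (d - c)) = c - d by ring]
  have hcont : Continuous fun c : ℂ => hausdorffDist K (closedBall c r) := by
    refine continuous_iff_continuousAt.2 fun c => ?_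
    refine continuousAt_of_locally_lipschitz (r := 1) one_pos 1 fun d _ => ?_
    rw [Real.dist_eq, one_mul, abs_le]
    have h1 := hlip c d
    have h2 := hlip d c
    rw [dist_comm c d] at h1
    constructor <;> linarith
  obtain ⟨z0, hz0⟩ := hK.nonempty
  set D : ℝ := hausdorffDist K (closedBall z0 r) with hD
  have hD0 : 0 ≤ D := hausdorffDist_nonneg
  obtain ⟨c0, hc0, hmin⟩ := (isCompact_closedBall z0 (D + r + 1)).exists_isMinOn
    ⟨z0, mem_closedBall_self (by positivity)⟩ hcont.continuousOn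
  have hpos : 0 < hausdorffDist K (closedBall c0 r) := by
    rcases (hausdorffDist_nonneg (s := K) (t := closedBall c0 r)).eq_or_lt with h | h
    · exfalso
      refine hnd c0 ?_
      exact (IsClosed.hausdorffDist_zero_iff_eq hK.isCompact.isClosed isClosed_closedBall
        (hfin _ _ hK.nonempty (hne c0) hK.isCompact.isBounded isBounded_closedBall)).1 h.symm
    · exact h
  refine ⟨hausdorffDist K (closedBall c0 r), hpos, fun c => ?_⟩
  by_cases hc : c ∈ closedBall z0 (D + r + 1)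
  · exact hmin hc
  · have h1 : hausdorffDist K (closedBall c0 r) ≤ D :=
      hmin (mem_closedBall_self (by positivity))
    refine h1.trans ?_
    by_contra hlt
    push Not at hlt
    obtain ⟨y, hy, hyd⟩ := exists_dist_lt_of_hausdorffDist_lt hz0 hlt
      (hfin _ _ hK.nonempty (hne c) hK.isCompact.isBounded isBounded_closedBall)
    refine hc ?_
    rw [mem_closedBall] at hy ⊢
    have := dist_triangle c y z0
    rw [dist_comm c y, dist_comm y z0] at this
    linarith

/-- `k` copies of a set which is not a disk, `k` large. -/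
theorem copies {K : Set ℂ} (hK : IsUnitConvexSet K)
    (hnd : ∀ c : ℂ, K ≠ closedBall c (1 / (2 * Real.pi))) :
    ∃ k0 : ℕ, ∀ k : ℕ, k0 ≤ k → ∀ (z : ℂ) (R : ℝ),
      Accommodates (closedBall z R) (fun _ : Fin k => unitDisk) →
      Accommodates (closedBall z R) (fun _ : Fin k => K) := by
  obtain ⟨ε, hε, hfar⟩ := exists_far hK hnd
  obtain ⟨C, hC, H⟩ := far_P hε
  obtain ⟨k0, hk0⟩ := exists_nat_ge (C ^ 6)
  refine ⟨k0 + 1, fun k hk z R hR => H k (by omega) _ (fun _ => hK) ?_ z R hR⟩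
  have hk1 : (k0 : ℝ) + 1 ≤ k := by exact_mod_cast hk
  have hk00 : (0 : ℝ) ≤ k0 := Nat.cast_nonneg _
  have hkpos : (0 : ℝ) < k := by linarith
  have hcard : Nat.card {i : Fin k // Far ε K} = k := by
    have : {i : Fin k // Far ε K} ≃ Fin k :=
      Equiv.subtypeUnivEquiv fun _ => hfar
    rw [Nat.card_congr this, Nat.card_eq_fintype_card, Fintype.card_fin]
  rw [hcard]
  have h1 : C ≤ (k : ℝ) ^ (1 / 6 : ℝ) := by
    have h2 : C = (C ^ 6) ^ (1 / 6 : ℝ) := by
      rw [← Real.rpow_natCast, ← Real.rpow_mul hC.le]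
      norm_num
    rw [h2]
    exact Real.rpow_le_rpow (by positivity) (by linarith) (by norm_num)
  calc C * (k : ℝ) ^ (5 / 6 : ℝ) ≤ (k : ℝ) ^ (1 / 6 : ℝ) * (k : ℝ) ^ (5 / 6 : ℝ) :=
        mul_le_mul_of_nonneg_right h1 (by positivity)
    _ = k := by
        rw [← Real.rpow_add hkpos]
        norm_num

end Pool.Agent.Helper89.FF
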