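import Pool.Agent.Helper89.FF.Supp
import Pool.Agent.Helper89.FF.Blocks

/-!
# FF-S1: sets which are not of constant width

`w θ = supportFn K θ + supportFn K (θ + π)` is continuous and `π`-periodic with integral `2` over
`[0, 2 π]`, `s θ = w θ + w (θ + π / 3) + w (θ + 2 π / 3)` has integral `6`, mean `3 / π`
(see `Pool.Agent.Helper79.PK.Widths.exists_angle` in `Pool/Agent/Helper46/PK/Widths.lean`).

Claim: there is `θ` such that for `w0 = w θ`, `w1 = w (θ + π / 3)`, `w2 = w (θ + 2 π / 3)`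
either `w0 + w1 + w2 < 3 / π`, or `w0 + w1 + w2 = 3 / π` and not `w0 = w1 = w2`. Otherwise
`s θ ≥ 3 / π` everywhere, so `s θ = 3 / π` for all `θ` (continuity, mean value), and
`w0 = w1 = w2` for all `θ`, so `w = 1 / π` is constant.

For this `θ` put, for small `r > 0`, `w_i' = w_i + 2 r`, `t' = max 0 ((w0' + w2' - w1') / 2)`,
`A (r) = w0' w2' - t' ^ 2`. Then `A (0) < (3 / π) ^ 2 / 12 = a0` (strict form of `cell_area`:
if `t = 0` and `w0 + w2 ≤ w1`, `A = w0 w2 ≤ (w0 + w2) ^ 2 / 4` and
`(w0 + w1 + w2) ^ 2 / 12 ≥ (w0 + w2) ^ 2 / 3`; here `w0 + w2 > 0` because a nonempty set of zero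
width in two directions is a point, whose perimeter is `0`; or simply: if `w0 + w2 = 0` then
`A = 0 < a0`. If `t > 0`, `A = (w0 + w1 + w2) ^ 2 / 12 -
((w0 - w1) ^ 2 + (w1 - w2) ^ 2 + (w0 - w2) ^ 2) / 6`.) and `A` is continuous in `r`, so
`A (r) < a0` for some small `r > 0`.

As in `Pool.Agent.Helper79.PK.widths` a rigid motion `g` moves `K` into the hexagonal cell
`InCell w0 w1 w2 ζ 0 0`, so `cthickening r K` into `InCell w0' w1' w2' ζ' (-r) (-r)`
(`X`, `Y`, `X + Y` are `1`-Lipschitz). By `lattice_sep` and `sep_cells` the translates of the cell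
by `m v1 + n v2`, `v1 = pt w0' (- t')`, `v2 = pt (- t') w2'`, have disjoint interiors. Use
`block_of_periodic` with `n = 1`.
-/

namespace Pool.Agent.Helper89.FF

open Pool.Agent.Helper16.Disk7 Pool.Agent.Helper79.PK Metric Widths

/-- The width in the direction of angle `φ`. -/
private noncomputable def wd (K : Set ℂ) (φ : ℝ) : ℝ :=
  supportFn K φ + supportFn K (φ + Real.pi)

/-- A rigid motion moves a compact set into a hexagonal cell whose widths are the widths of the set
in three directions. -/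
private theorem s1_move {K : Set ℂ} (hc : IsCompact K) (hne : K.Nonempty) (θ : ℝ) :
    ∃ g : ℂ → ℂ, IsRigidMotion g ∧ ∃ ζ : ℝ, 0 ≤ wd K θ ∧ 0 ≤ wd K (θ + Real.pi / 3) ∧
      0 ≤ wd K (θ + 2 * Real.pi / 3) ∧
      |wd K θ - wd K (θ + 2 * Real.pi / 3)| ≤ wd K (θ + Real.pi / 3) ∧
      ∀ z ∈ g '' K, InCell (wd K θ) (wd K (θ + Real.pi / 3)) (wd K (θ + 2 * Real.pi / 3)) ζ 0 0 z := by
  have hs3 : √3 * √3 = 3 := Real.mul_self_sqrt (by norm_num)
  have hs3pos : 0 < √3 := Real.sqrt_pos.mpr (by norm_num)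
  simp only [wd]
  set h0 := supportFn K θ with hh0
  set h1 := supportFn K (θ + Real.pi / 3) with hh1
  set h2 := supportFn K (θ + 2 * Real.pi / 3) with hh2
  set h3 := supportFn K (θ + Real.pi) with hh3
  set h4 := supportFn K (θ + Real.pi / 3 + Real.pi) with hh4
  set h5 := supportFn K (θ + 2 * Real.pi / 3 + Real.pi) with hh5
  have b0 : ∀ z ∈ K, pr θ z ≤ h0 := fun z hz => pr_le hc hz _
  have b1 : ∀ z ∈ K, pr (θ + Real.pi / 3) z ≤ h1 := fun z hz => pr_le hc hz _
  have b2 : ∀ z ∈ K, pr (θ + 2 * Real.pi / 3) z ≤ h2 := fun z hz => pr_le hc hz _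
  have b3 : ∀ z ∈ K, - h3 ≤ pr θ z := fun z hz => by
    have := pr_le hc hz (θ + Real.pi)
    rw [pr_add_pi] at this
    linarith
  have b4 : ∀ z ∈ K, - h4 ≤ pr (θ + Real.pi / 3) z := fun z hz => by
    have := pr_le hc hz (θ + Real.pi / 3 + Real.pi)
    rw [pr_add_pi] at this
    linarith
  have b5 : ∀ z ∈ K, - h5 ≤ pr (θ + 2 * Real.pi / 3) z := fun z hz => by
    have := pr_le hc hz (θ + 2 * Real.pi / 3 + Real.pi)
    rw [pr_add_pi] at this
    linarith
  obtain ⟨z0, hz0, v0⟩ := exists_pr hc hne θ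
  obtain ⟨z1, hz1, v1⟩ := exists_pr hc hne (θ + Real.pi / 3)
  obtain ⟨z2, hz2, v2⟩ := exists_pr hc hne (θ + 2 * Real.pi / 3)
  obtain ⟨z3, hz3, v3⟩ := exists_pr hc hne (θ + Real.pi)
  obtain ⟨z4, hz4, v4⟩ := exists_pr hc hne (θ + Real.pi / 3 + Real.pi)
  obtain ⟨z5, hz5, v5⟩ := exists_pr hc hne (θ + 2 * Real.pi / 3 + Real.pi)
  rw [pr_add_pi] at v3 v4 v5
  have key : ∀ z : ℂ, pr (θ + Real.pi / 3) z = pr θ z + pr (θ + 2 * Real.pi / 3) z := by
    intro z
    unfold pr
    have c2 : Real.cos (2 * Real.pi / 3) = -(1 / 2) := by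
      rw [show 2 * Real.pi / 3 = Real.pi - Real.pi / 3 by ring, Real.cos_pi_sub,
        Real.cos_pi_div_three]
    have s2 : Real.sin (2 * Real.pi / 3) = √3 / 2 := by
      rw [show 2 * Real.pi / 3 = Real.pi - Real.pi / 3 by ring, Real.sin_pi_sub,
        Real.sin_pi_div_three]
    rw [Real.cos_add, Real.sin_add, Real.cos_add, Real.sin_add, c2, s2,
      Real.cos_pi_div_three, Real.sin_pi_div_three]
    ring
  set b : ℂ := ⟨h3, (h5 + h3 / 2) * 2 / √3⟩ with hb
  refine ⟨fun z => (⟨Real.cos θ, - Real.sin θ⟩ : ℂ) * z + b, ⟨⟨Real.cos θ, - Real.sin θ⟩, b,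
    ?_, fun z => rfl⟩, - h4 + h3 + h5, ?_, ?_, ?_, ?_, ?_⟩
  · have hn : Complex.normSq (⟨Real.cos θ, - Real.sin θ⟩ : ℂ) = 1 := by
      rw [Complex.normSq_mk]
      nlinarith [Real.sin_sq_add_cos_sq θ]
    rw [Complex.norm_def, hn, Real.sqrt_one]
  · linarith [b0 z0 hz0, b3 z0 hz0]
  · linarith [b1 z0 hz0, b4 z0 hz0]
  · linarith [b2 z0 hz0, b5 z0 hz0]
  · rw [abs_le]
    constructor
    · have k2 := key z2
      have k5 := key z5
      have := b1 z2 hz2
      have := b4 z5 hz5
      have := b3 z2 hz2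
      have := b0 z5 hz5
      have := b3 z5 hz5
      have := b0 z2 hz2
      linarith
    · have k0 := key z0
      have k3 := key z3
      have := b1 z0 hz0
      have := b4 z3 hz3
      have := b5 z0 hz0
      have := b2 z3 hz3
      linarith
  · rintro _ ⟨z, hz, rfl⟩
    have hX : X ((⟨Real.cos θ, - Real.sin θ⟩ : ℂ) * z + b) = pr θ z + h3 := by
      unfold X pr
      simp only [Complex.add_re, Complex.mul_re, hb]
      ring
    have hY : Y ((⟨Real.cos θ, - Real.sin θ⟩ : ℂ) * z + b)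
        = pr (θ + 2 * Real.pi / 3) z + h5 := by
      unfold Y pr
      have c2 : Real.cos (2 * Real.pi / 3) = -(1 / 2) := by
        rw [show 2 * Real.pi / 3 = Real.pi - Real.pi / 3 by ring, Real.cos_pi_sub,
          Real.cos_pi_div_three]
      have s2 : Real.sin (2 * Real.pi / 3) = √3 / 2 := by
        rw [show 2 * Real.pi / 3 = Real.pi - Real.pi / 3 by ring, Real.sin_pi_sub,
          Real.sin_pi_div_three]
      rw [Real.cos_add, Real.sin_add, c2, s2]
      simp only [Complex.add_re, Complex.mul_re, Complex.add_im, Complex.mul_im, hb]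
      field_simp
      ring
    have k := key z
    have := b0 z hz
    have := b1 z hz
    have := b2 z hz
    have := b3 z hz
    have := b4 z hz
    have := b5 z hz
    simp only [InCell]
    rw [hX, hY]
    refine ⟨?_, ?_, ?_, ?_, ?_, ?_⟩ <;> linarith

/-- There is a direction for which the three widths have small sum, or sum `3 / π` without being
equal. -/
private theorem s1_angle {K : Set ℂ} (hK : IsUnitConvexSet K)
    (hnc : ¬ ∃ W : ℝ, ∀ θ, supportFn K θ + supportFn K (θ + Real.pi) = W) :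
    ∃ θ : ℝ, wd K θ + wd K (θ + Real.pi / 3) + wd K (θ + 2 * Real.pi / 3) < 3 / Real.pi ∨
      (wd K θ + wd K (θ + Real.pi / 3) + wd K (θ + 2 * Real.pi / 3) = 3 / Real.pi ∧
        ¬ (wd K θ = wd K (θ + Real.pi / 3) ∧
          wd K (θ + Real.pi / 3) = wd K (θ + 2 * Real.pi / 3))) := by
  have hpi := Real.pi_pos
  have hcont : Continuous (supportFn K) := continuous_supportFn hK.isCompact hK.nonempty
  have hper := periodic_supportFn K
  have hint : ∀ c a : ℝ, IntervalIntegrable (fun θ => supportFn K (θ + c)) MeasureTheory.volume a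
      (a + 2 * Real.pi) := fun c a =>
    (hcont.comp (continuous_id.add continuous_const)).intervalIntegrable _ _
  have hval : ∀ c a : ℝ, ∫ θ in a..(a + 2 * Real.pi), supportFn K (θ + c) = 1 := by
    intro c a
    rw [intervalIntegral.integral_comp_add_right (fun x => supportFn K x) c]
    have h := hper.intervalIntegral_add_eq (a + c) 0
    have h1 := hK.perimeter_eq
    unfold perimeter at h1
    rw [zero_add] at h
    rw [show a + 2 * Real.pi + c = a + c + 2 * Real.pi by ring, h, h1]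
  by_contra hcon
  push Not at hcon
  have hwc : Continuous (wd K) := by
    unfold wd
    exact hcont.add (hcont.comp (continuous_id.add continuous_const))
  set s : ℝ → ℝ := fun θ => wd K θ + wd K (θ + Real.pi / 3) + wd K (θ + 2 * Real.pi / 3) with hs
  have hsc : Continuous s := by
    rw [hs]
    exact (hwc.add (hwc.comp (continuous_id.add continuous_const))).add
      (hwc.comp (continuous_id.add continuous_const))
  have hsum : ∀ θ, s θ = supportFn K (θ + 0) + supportFn K (θ + Real.pi)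
      + supportFn K (θ + Real.pi / 3) + supportFn K (θ + (Real.pi / 3 + Real.pi))
      + supportFn K (θ + 2 * Real.pi / 3) + supportFn K (θ + (2 * Real.pi / 3 + Real.pi)) := by
    intro θ
    simp only [hs, wd, add_zero]
    rw [← add_assoc θ, ← add_assoc θ]
    ring
  have hsint : ∀ a, ∫ θ in a..(a + 2 * Real.pi), s θ = 6 := by
    intro a
    simp only [hsum]
    rw [intervalIntegral.integral_add (((((hint _ a).add (hint _ a)).add (hint _ a)).add
        (hint _ a)).add (hint _ a)) (hint _ a),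
      intervalIntegral.integral_add ((((hint _ a).add (hint _ a)).add (hint _ a)).add
        (hint _ a)) (hint _ a),
      intervalIntegral.integral_add (((hint _ a).add (hint _ a)).add (hint _ a)) (hint _ a),
      intervalIntegral.integral_add ((hint _ a).add (hint _ a)) (hint _ a),
      intervalIntegral.integral_add (hint _ a) (hint _ a), hval, hval, hval, hval, hval, hval]
    norm_num
  have hseq : ∀ θ, s θ = 3 / Real.pi := by
    intro θ
    refine le_antisymm ?_ (hcon θ).1
    by_contra hlt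
    push Not at hlt
    have hpos : 0 < ∫ x in θ..(θ + 2 * Real.pi), (s x - 3 / Real.pi) := by
      apply intervalIntegral.integral_pos (by linarith)
      · exact (hsc.sub continuous_const).continuousOn
      · intro x _
        have := (hcon x).1
        simp only [hs]
        linarith
      · exact ⟨θ, ⟨le_refl _, by linarith⟩, by linarith⟩
    rw [intervalIntegral.integral_sub (hsc.intervalIntegrable _ _) intervalIntegrable_const,
      hsint, intervalIntegral.integral_const] at hpos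
    have h6 : (θ + 2 * Real.pi - θ) • (3 / Real.pi) = 6 := by
      rw [smul_eq_mul]
      field_simp
      ring
    rw [h6] at hpos
    linarith
  apply hnc
  refine ⟨1 / Real.pi, fun θ => ?_⟩
  obtain ⟨q1, q2⟩ := (hcon θ).2 (hseq θ)
  have q3 := hseq θ
  simp only [hs] at q3
  have q4 : wd K θ = 1 / Real.pi := by
    have : 3 * wd K θ = 3 / Real.pi := by linarith
    field_simp at this ⊢
    linarith
  exact q4

/-- The strict area estimate. -/
private theorem s1_area {w0 w1 w2 : ℝ} (h0 : 0 ≤ w0) (h1 : 0 ≤ w1) (h2 : 0 ≤ w2)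
    (h : w0 + w1 + w2 < 3 / Real.pi ∨ (w0 + w1 + w2 = 3 / Real.pi ∧ ¬ (w0 = w1 ∧ w1 = w2))) :
    w0 * w2 - (max 0 ((w0 + w2 - w1) / 2)) ^ 2 < a0 := by
  have hpi := Real.pi_pos
  have hS0 : 0 < 3 / Real.pi := by positivity
  have hS : w0 + w1 + w2 ≤ 3 / Real.pi := by
    rcases h with h | h
    · exact h.le
    · exact h.1.le
  unfold a0
  set S := 3 / Real.pi with hSdef
  rcases le_or_gt (w0 + w2 - w1) 0 with hc | hc
  · rw [max_eq_left (by linarith)]
    have e1 : w0 + w2 ≤ S / 2 := by linarith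
    have e2 : (w0 + w2) ^ 2 ≤ (S / 2) ^ 2 := pow_le_pow_left₀ (by linarith) e1 2
    nlinarith [sq_nonneg (w0 - w2), pow_pos hS0 2]
  · rw [max_eq_right (by linarith)]
    have e : w0 * w2 - ((w0 + w2 - w1) / 2) ^ 2 = (w0 + w1 + w2) ^ 2 / 12 -
        ((w0 - w1) ^ 2 + (w1 - w2) ^ 2 + (w0 - w2) ^ 2) / 6 := by ring
    rw [e]
    rcases h with h | h
    · have : (w0 + w1 + w2) ^ 2 < S ^ 2 := pow_lt_pow_left₀ h (by linarith) (by norm_num)
      nlinarith [sq_nonneg (w0 - w1), sq_nonneg (w1 - w2), sq_nonneg (w0 - w2)]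
    · rw [h.1]
      have : 0 < (w0 - w1) ^ 2 + (w1 - w2) ^ 2 + (w0 - w2) ^ 2 := by
        by_cases h01 : w0 = w1
        · have h12 : w1 ≠ w2 := fun h12 => h.2 ⟨h01, h12⟩
          have : 0 < (w1 - w2) ^ 2 := by
            have := sub_ne_zero.2 h12
            positivity
          nlinarith [sq_nonneg (w0 - w1), sq_nonneg (w0 - w2)]
        · have : 0 < (w0 - w1) ^ 2 := by
            have := sub_ne_zero.2 h01
            positivity
          nlinarith [sq_nonneg (w1 - w2), sq_nonneg (w0 - w2)]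
      linarith

theorem strict1 {K : Set ℂ} (hK : IsUnitConvexSet K)
    (hnc : ¬ ∃ W : ℝ, ∀ θ, supportFn K θ + supportFn K (θ + Real.pi) = W) :
    ∃ r > 0, ∃ a < a0, BlockPacks (cthickening r K) a := by
  have hc := hK.isCompact
  have hne := hK.nonempty
  obtain ⟨θ, hθ⟩ := s1_angle hK hnc
  obtain ⟨_, _, _, p0, p1, p2, p3, _⟩ := s1_move hc hne θ
  set w0 := wd K θ with hw0
  set w1 := wd K (θ + Real.pi / 3) with hw1
  set w2 := wd K (θ + 2 * Real.pi / 3) with hw2
  have harea := s1_area p0 p1 p2 hθ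
  -- small thickening
  set A : ℝ → ℝ := fun r => (w0 + 2 * r) * (w2 + 2 * r) -
    (max 0 ((w0 + 2 * r + (w2 + 2 * r) - (w1 + 2 * r)) / 2)) ^ 2 with hA
  have hAc : Continuous A := by
    rw [hA]
    fun_prop
  have hA0 : A 0 < a0 := by
    simp only [hA, mul_zero, add_zero]
    exact harea
  obtain ⟨ε, hε, hball⟩ := Metric.isOpen_iff.1 (isOpen_lt hAc continuous_const) 0
    (show (0 : ℝ) ∈ {x | A x < a0} from hA0)
  set r : ℝ := ε / 2 with hr
  have hr0 : 0 < r := by positivity
  have hAr : A r < a0 := by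
    refine hball ?_
    rw [Metric.mem_ball, Real.dist_eq, sub_zero, abs_of_pos hr0]
    linarith
  refine ⟨r, hr0, A r, hAr, ?_⟩
  -- the thickened set
  have hc' : IsCompact (cthickening r K) := hc.cthickening
  have hne' : (cthickening r K).Nonempty := hne.mono (self_subset_cthickening K)
  obtain ⟨g, hg, ζ, q0, q1, q2, q3, hcell⟩ := s1_move hc' hne' θ
  have hwd : ∀ φ, wd (cthickening r K) φ = wd K φ + 2 * r := by
    intro φ
    simp only [wd, supportFn_cthickening hc hne hr0.le]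
    ring
  simp only [hwd] at q0 q1 q2 q3 hcell
  rw [← hw0, ← hw1, ← hw2] at hcell
  rw [← hw0, ← hw1, ← hw2] at q3
  set u0 := w0 + 2 * r with hu0
  set u1 := w1 + 2 * r with hu1
  set u2 := w2 + 2 * r with hu2
  have r0 : 0 < u0 := by linarith
  have r1 : 0 < u1 := by linarith
  have r2 : 0 < u2 := by linarith
  set t : ℝ := max 0 ((u0 + u2 - u1) / 2) with ht
  obtain ⟨a1, -, -, -, -⟩ := cell_area r0 r2 q3 r1 ht
  have hAr' : A r = u0 * u2 - t ^ 2 := by simp only [hA, hu0, hu1, hu2, ht]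
  have hmain := block_of_periodic (P := cthickening r K) hc'.isBounded (n := 1) one_pos
    (fun _ => g) (fun _ => hg) (v1 := pt u0 (-t)) (v2 := pt (-t) u2) (D := u0 * u2 - t ^ 2)
    (by simp only [X_pt, Y_pt]; ring) a1 ?_
  · rw [hAr']
    simpa using hmain
  · intro j j' p p' hpp
    have hjj : j = j' := Subsingleton.elim _ _
    have hp : p ≠ p' := fun h => hpp (by rw [hjj, h])
    refine sep_cells (w0 := u0) (w1 := u1) (w2 := u2) (ζ := ζ)
      (a := (p.1 : ℝ) * u0 - p.2 * t) (b := -(p.1 : ℝ) * t + p.2 * u2)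
      (a' := (p'.1 : ℝ) * u0 - p'.2 * t) (b' := -(p'.1 : ℝ) * t + p'.2 * u2) ?_ ?_ ?_
    · rintro _ ⟨z, hz, rfl⟩
      have hz' := hcell (g z) ⟨z, hz, rfl⟩
      simp only [InCell] at hz' ⊢
      have eX : X ((p.1 : ℂ) * pt u0 (-t) + (p.2 : ℂ) * pt (-t) u2) =
          (p.1 : ℝ) * u0 - p.2 * t := by
        simp only [X, Complex.add_re, Complex.mul_re, Complex.intCast_re, Complex.intCast_im,
          zero_mul, sub_zero, pt]
        ring
      have eY : Y ((p.1 : ℂ) * pt u0 (-t) + (p.2 : ℂ) * pt (-t) u2) =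
          -(p.1 : ℝ) * t + p.2 * u2 := by
        have e1 := Y_pt u0 (-t)
        have e2 := Y_pt (-t) u2
        have : Y ((p.1 : ℂ) * pt u0 (-t) + (p.2 : ℂ) * pt (-t) u2) =
            (p.1 : ℝ) * Y (pt u0 (-t)) + (p.2 : ℝ) * Y (pt (-t) u2) := by
          simp only [Y, Complex.add_re, Complex.add_im, Complex.mul_re, Complex.mul_im,
            Complex.intCast_re, Complex.intCast_im, zero_mul, sub_zero, add_zero]
          ring
        rw [this, e1, e2]
        ring
      rw [X_add, Y_add, eX, eY]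
      obtain ⟨c1, c2, c3, c4, c5, c6⟩ := hz'
      refine ⟨?_, ?_, ?_, ?_, ?_, ?_⟩ <;> linarith
    · rintro _ ⟨z, hz, rfl⟩
      have hz' := hcell (g z) ⟨z, hz, rfl⟩
      simp only [InCell] at hz' ⊢
      have eX : X ((p'.1 : ℂ) * pt u0 (-t) + (p'.2 : ℂ) * pt (-t) u2) =
          (p'.1 : ℝ) * u0 - p'.2 * t := by
        simp only [X, Complex.add_re, Complex.mul_re, Complex.intCast_re, Complex.intCast_im,
          zero_mul, sub_zero, pt]
        ring
      have eY : Y ((p'.1 : ℂ) * pt u0 (-t) + (p'.2 : ℂ) * pt (-t) u2) =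
          -(p'.1 : ℝ) * t + p'.2 * u2 := by
        have e1 := Y_pt u0 (-t)
        have e2 := Y_pt (-t) u2
        have : Y ((p'.1 : ℂ) * pt u0 (-t) + (p'.2 : ℂ) * pt (-t) u2) =
            (p'.1 : ℝ) * Y (pt u0 (-t)) + (p'.2 : ℝ) * Y (pt (-t) u2) := by
          simp only [Y, Complex.add_re, Complex.add_im, Complex.mul_re, Complex.mul_im,
            Complex.intCast_re, Complex.intCast_im, zero_mul, sub_zero, add_zero]
          ring
        rw [this, e1, e2]
        ring
      rw [X_add, Y_add, eX, eY]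
      obtain ⟨c1, c2, c3, c4, c5, c6⟩ := hz'
      refine ⟨?_, ?_, ?_, ?_, ?_, ?_⟩ <;> linarith
    · have hmn : ¬ (p.1 - p'.1 = 0 ∧ p.2 - p'.2 = 0) := by
        rintro ⟨e1, e2⟩
        exact hp (Prod.ext (by omega) (by omega))
      have := lattice_sep r0 r2 q3 ht hmn
      push_cast at this
      have e1 : (p.1 : ℝ) * u0 - p.2 * t - ((p'.1 : ℝ) * u0 - p'.2 * t) =
          ((p.1 : ℝ) - p'.1) * u0 - ((p.2 : ℝ) - p'.2) * t := by ring
      have e2 : -(p.1 : ℝ) * t + p.2 * u2 - (-(p'.1 : ℝ) * t + p'.2 * u2) =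
          -((p.1 : ℝ) - p'.1) * t + ((p.2 : ℝ) - p'.2) * u2 := by ring
      rw [e1, e2]
      exact this

end Pool.Agent.Helper89.FF
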