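import Pool.Agent.Helper89.FF.Defs

/-!
# FF-SUP: elementary facts on the support function

`pr φ z = z.re cos φ + z.im sin φ` (`Widths.pr`), `supportFn K θ = sSup (pr θ '' K)` by `rfl`;
see the lemmas of `Pool.Agent.Helper46.PK.Widths` (`pr_le`, `exists_pr`, `pr_add_pi`,
`periodic_supportFn`) and `Pool.Agent.Helper57.CW` for related facts.

Proofs in words.
* `supportFn_le_hd`: for `z ∈ K` and `s > hausdorffDist K L` there is `w ∈ L` with `dist z w < s`
  (`Metric.exists_dist_lt_of_hausdorffDist_lt`), so `pr θ z ≤ pr θ w + s ≤ supportFn L θ + s`.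
* `supportFn_lip`: `|pr s z - pr t z| ≤ ‖z‖ |s - t|` for `z ∈ K`, `K` bounded.
* `supportFn_cthickening`: `cthickening r K = K + closedBall 0 r`
  (`IsCompact.cthickening_eq_add_closedBall`).
* `mem_of_forall_pr_le`: Hahn-Banach (`geometric_hahn_banach_point_closed` or
  `geometric_hahn_banach_closed_point`), a real linear functional on `ℂ` is
  `z ↦ ρ * pr θ z` with `ρ ≥ 0`.
* `eq_closedBall`: both inclusions from `mem_of_forall_pr_le`
  and `‖z - c‖ = sup over θ of pr θ (z - c)`.
-/

namespace Pool.Agent.Helper89.FF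

open Pool.Agent.Helper16.Disk7 Pool.Agent.Helper79.PK Metric Widths

theorem pr_add (φ : ℝ) (z w : ℂ) : pr φ (z + w) = pr φ z + pr φ w := by
  simp only [pr, Complex.add_re, Complex.add_im]
  ring

theorem abs_pr_le (φ : ℝ) (z : ℂ) : |pr φ z| ≤ ‖z‖ := by
  refine abs_le_of_sq_le_sq ?_ (norm_nonneg _)
  rw [Complex.sq_norm, Complex.normSq_apply]
  unfold pr
  nlinarith [Real.sin_sq_add_cos_sq φ, sq_nonneg (z.re * Real.sin φ - z.im * Real.cos φ)]

private theorem pr_sub56 (φ : ℝ) (z w : ℂ) : pr φ (z - w) = pr φ z - pr φ w := by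
  simp only [pr, Complex.sub_re, Complex.sub_im]
  ring

private theorem pr_dir56 (θ : ℝ) (r : ℝ) :
    pr θ (⟨r * Real.cos θ, r * Real.sin θ⟩ : ℂ) = r := by
  simp only [pr]
  linear_combination r * Real.sin_sq_add_cos_sq θ

/-- the direction of `z` -/
private theorem pr_arg56 (z : ℂ) : pr z.arg z = ‖z‖ := by
  rcases eq_or_ne z 0 with rfl | hz
  · simp [pr]
  · have h0 : 0 < ‖z‖ := norm_pos_iff.2 hz
    unfold pr
    rw [Complex.cos_arg hz, Complex.sin_arg]
    have h1 : ‖z‖ ^ 2 = z.re * z.re + z.im * z.im := by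
      rw [Complex.sq_norm, Complex.normSq_apply]
    field_simp
    linarith

theorem supportFn_le_hd {K L : Set ℂ} (hK : IsCompact K) (hL : IsCompact L) (hKn : K.Nonempty)
    (hLn : L.Nonempty) (θ : ℝ) : supportFn K θ ≤ supportFn L θ + hausdorffDist K L := by
  obtain ⟨z, hz, hzθ⟩ := exists_pr hK hKn θ
  refine le_of_forall_pos_le_add fun ε hε => ?_
  obtain ⟨w, hw, hd⟩ := exists_dist_lt_of_hausdorffDist_lt hz
    (show hausdorffDist K L < hausdorffDist K L + ε by linarith)
    (hausdorffEDist_ne_top_of_nonempty_of_bounded hKn hLn hK.isBounded hL.isBounded)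
  have h1 : pr θ z - pr θ w ≤ dist z w := by
    rw [← pr_sub56, dist_eq_norm]
    exact (le_abs_self _).trans (abs_pr_le θ _)
  have h2 := pr_le hL hw θ
  linarith

theorem abs_supportFn_sub_le {K L : Set ℂ} (hK : IsCompact K) (hL : IsCompact L)
    (hKn : K.Nonempty) (hLn : L.Nonempty) (θ : ℝ) :
    |supportFn K θ - supportFn L θ| ≤ hausdorffDist K L := by
  have h1 := supportFn_le_hd hK hL hKn hLn θ
  have h2 := supportFn_le_hd hL hK hLn hKn θ
  rw [hausdorffDist_comm] at h2
  rw [abs_le]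
  constructor <;> linarith

private theorem pr_lip56 (z : ℂ) (s t : ℝ) : |pr s z - pr t z| ≤ ‖z‖ * |s - t| := by
  have h1 : pr s z - pr t z = 2 * Real.sin ((s - t) / 2) * pr ((s + t) / 2 + Real.pi / 2) z := by
    have e1 := Real.cos_sub_cos s t
    have e2 := Real.sin_sub_sin s t
    unfold pr
    rw [Real.cos_add_pi_div_two, Real.sin_add_pi_div_two]
    linear_combination z.re * e1 + z.im * e2
  have h2 : |2 * Real.sin ((s - t) / 2)| ≤ |s - t| := by
    have h3 : |Real.sin ((s - t) / 2)| ≤ |(s - t) / 2| := Real.abs_sin_le_abs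
    rw [abs_mul, abs_two]
    rw [abs_div, abs_two] at h3
    linarith
  rw [h1, abs_mul, mul_comm ‖z‖]
  exact mul_le_mul h2 (abs_pr_le _ z) (abs_nonneg _) (abs_nonneg _)

theorem supportFn_lip {K : Set ℂ} (hK : IsCompact K) (hKn : K.Nonempty) {L : ℝ}
    (hL : ∀ z ∈ K, ‖z‖ ≤ L) (s t : ℝ) : |supportFn K s - supportFn K t| ≤ L * |s - t| := by
  have key : ∀ s t : ℝ, supportFn K s - supportFn K t ≤ L * |s - t| := by
    intro s t
    obtain ⟨z, hz, hzs⟩ := exists_pr hK hKn s
    have h1 := pr_le hK hz t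
    have h2 := (le_abs_self _).trans (pr_lip56 z s t)
    have h3 : ‖z‖ * |s - t| ≤ L * |s - t| := mul_le_mul_of_nonneg_right (hL z hz) (abs_nonneg _)
    linarith
  have h1 := key s t
  have h2 := key t s
  rw [abs_sub_comm t s] at h2
  rw [abs_le]
  constructor <;> linarith

theorem continuous_supportFn {K : Set ℂ} (hK : IsCompact K) (hKn : K.Nonempty) :
    Continuous (supportFn K) := by
  obtain ⟨L, hL⟩ := hK.isBounded.exists_norm_le
  refine (LipschitzWith.of_dist_le' (K := L) fun s t => ?_).continuous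
  rw [Real.dist_eq, Real.dist_eq]
  exact supportFn_lip hK hKn hL s t

theorem supportFn_cthickening {K : Set ℂ} (hK : IsCompact K) (hKn : K.Nonempty) {r : ℝ}
    (hr : 0 ≤ r) (θ : ℝ) : supportFn (cthickening r K) θ = supportFn K θ + r := by
  have hc : IsCompact (cthickening r K) := hK.cthickening
  have hn : (cthickening r K).Nonempty := hKn.mono (self_subset_cthickening K)
  apply le_antisymm
  · obtain ⟨z, hz, hzθ⟩ := exists_pr hc hn θ
    rw [hK.cthickening_eq_biUnion_closedBall hr, Set.mem_iUnion₂] at hz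
    obtain ⟨w, hw, hzw⟩ := hz
    have h1 : pr θ z - pr θ w ≤ dist z w := by
      rw [← pr_sub56, dist_eq_norm]
      exact (le_abs_self _).trans (abs_pr_le θ _)
    have h2 := pr_le hK hw θ
    rw [mem_closedBall] at hzw
    linarith
  · obtain ⟨w, hw, hwθ⟩ := exists_pr hK hKn θ
    have h1 : w + (⟨r * Real.cos θ, r * Real.sin θ⟩ : ℂ) ∈ cthickening r K := by
      apply mem_cthickening_of_dist_le _ w r K hw
      rw [dist_eq_norm, add_sub_cancel_left]
      apply le_of_eq
      rw [← sq_eq_sq₀ (norm_nonneg _) hr, Complex.sq_norm, Complex.normSq_apply]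
      nlinarith [Real.sin_sq_add_cos_sq θ]
    have h2 := pr_le hc h1 θ
    rw [pr_add, pr_dir56, hwθ] at h2
    exact h2

theorem mem_of_forall_pr_le {K : Set ℂ} (hK : IsCompact K) (hc : Convex ℝ K) (hKn : K.Nonempty)
    {z : ℂ} (h : ∀ θ, pr θ z ≤ supportFn K θ) : z ∈ K := by
  by_contra hz
  obtain ⟨f, u, hf1, hf2⟩ := geometric_hahn_banach_closed_point hc hK.isClosed hz
  set c : ℂ := ⟨f 1, f Complex.I⟩ with hcdef
  have hf : ∀ w : ℂ, f w = ‖c‖ * pr c.arg w := by
    intro w
    have h1 : f w = w.re * f 1 + w.im * f Complex.I := by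
      have h2 : w = w.re • (1 : ℂ) + w.im • Complex.I := by
        apply Complex.ext <;> simp
      conv_lhs => rw [h2]
      rw [map_add, map_smul, map_smul, smul_eq_mul, smul_eq_mul]
    rw [h1]
    unfold pr
    have h3 : ‖c‖ * Real.cos c.arg = f 1 := Complex.norm_mul_cos_arg c
    have h4 : ‖c‖ * Real.sin c.arg = f Complex.I := Complex.norm_mul_sin_arg c
    rw [← h3, ← h4]
    ring
  obtain ⟨w, hw, hwθ⟩ := exists_pr hK hKn c.arg
  have h1 := hf1 w hw
  rw [hf] at h1 hf2
  have h2 := h c.arg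
  rw [← hwθ] at h2
  have h3 := mul_le_mul_of_nonneg_left h2 (norm_nonneg c)
  linarith

theorem eq_closedBall {K : Set ℂ} (hK : IsCompact K) (hc : Convex ℝ K) (hKn : K.Nonempty)
    {r a b : ℝ} (hr : 0 ≤ r)
    (h : ∀ θ, supportFn K θ = r + a * Real.cos θ + b * Real.sin θ) :
    K = closedBall (⟨a, b⟩ : ℂ) r := by
  have hpc : ∀ θ, pr θ (⟨a, b⟩ : ℂ) = a * Real.cos θ + b * Real.sin θ := fun θ => rfl
  apply Set.Subset.antisymm
  · intro z hz
    rw [mem_closedBall, dist_eq_norm, ← pr_arg56, pr_sub56, hpc]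
    have h1 := pr_le hK hz (z - (⟨a, b⟩ : ℂ)).arg
    rw [h] at h1
    linarith
  · intro z hz
    rw [mem_closedBall, dist_eq_norm] at hz
    apply mem_of_forall_pr_le hK hc hKn
    intro θ
    have h1 := (le_abs_self _).trans (abs_pr_le θ (z - (⟨a, b⟩ : ℂ)))
    rw [pr_sub56, hpc] at h1
    rw [h]
    linarith

/-- `|perimeter K - perimeter L| ≤ 2 π hausdorffDist K L`. -/
theorem abs_perimeter_sub_le {K L : Set ℂ} (hK : IsCompact K) (hL : IsCompact L)
    (hKn : K.Nonempty) (hLn : L.Nonempty) :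
    |perimeter K - perimeter L| ≤ 2 * Real.pi * hausdorffDist K L := by
  have hcK := continuous_supportFn hK hKn
  have hcL := continuous_supportFn hL hLn
  unfold perimeter
  rw [← intervalIntegral.integral_sub (hcK.intervalIntegrable _ _) (hcL.intervalIntegrable _ _)]
  have h1 := intervalIntegral.norm_integral_le_of_norm_le_const
    (a := 0) (b := 2 * Real.pi) (f := fun θ => supportFn K θ - supportFn L θ)
    (C := hausdorffDist K L) (fun θ _ => by
      rw [Real.norm_eq_abs]
      exact abs_supportFn_sub_le hK hL hKn hLn θ)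
  rw [Real.norm_eq_abs, sub_zero,
    abs_of_pos (show (0 : ℝ) < 2 * Real.pi by have := Real.pi_pos; positivity)] at h1
  linarith

end Pool.Agent.Helper89.FF
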